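import Mathlib

set_option autoImplicit false

namespace Pool.Agent.H528.MCG

/-! The real model: `(x, y, z)` with `z^2 + x y z - x^2 - y^2 = k^2`. -/

abbrev R3 := ℝ × ℝ × ℝ

def fIx (p : R3) : R3 := (p.2.1*p.2.2 - p.1, p.2.1, p.2.2)
def fIy (p : R3) : R3 := (p.1, p.1*p.2.2 - p.2.1, p.2.2)
def fIz (p : R3) : R3 := (p.1, p.2.1, -(p.1*p.2.1) - p.2.2)
def fsw (p : R3) : R3 := (p.2.1, p.1, p.2.2)

def Ix : Equiv.Perm R3 := Function.Involutive.toPerm fIx (by
  intro p; unfold fIx; ext <;> simp)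
def Iy : Equiv.Perm R3 := Function.Involutive.toPerm fIy (by
  intro p; unfold fIy; ext <;> simp)
def Iz : Equiv.Perm R3 := Function.Involutive.toPerm fIz (by
  intro p; unfold fIz; ext <;> simp)
def sw : Equiv.Perm R3 := Function.Involutive.toPerm fsw (by
  intro p; rfl)

@[simp] theorem Ix_apply (p : R3) : Ix p = (p.2.1*p.2.2 - p.1, p.2.1, p.2.2) := rfl
@[simp] theorem Iy_apply (p : R3) : Iy p = (p.1, p.1*p.2.2 - p.2.1, p.2.2) := rfl
@[simp] theorem Iz_apply (p : R3) : Iz p = (p.1, p.2.1, -(p.1*p.2.1) - p.2.2) := rfl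
@[simp] theorem sw_apply (p : R3) : sw p = (p.2.1, p.1, p.2.2) := rfl

theorem Ix_mul : Ix * Ix = 1 := by ext p <;> simp
theorem Iy_mul : Iy * Iy = 1 := by ext p <;> simp
theorem Iz_mul : Iz * Iz = 1 := by ext p <;> simp
theorem sw_mul : sw * sw = 1 := by ext p <;> simp
theorem sw_Ix : sw * Ix = Iy * sw := by ext p <;> simp
theorem sw_Iy : sw * Iy = Ix * sw := by ext p <;> simp
theorem sw_Iz : sw * Iz = Iz * sw := by ext p <;> simp [mul_comm]

/-- all moves -/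
def Gam : Subgroup (Equiv.Perm R3) := Subgroup.closure {Ix, Iy, Iz, sw}
/-- the stabiliser of the special curve -/
def Dg : Subgroup (Equiv.Perm R3) := Subgroup.closure {Ix, Iy, sw}

/-- the level surface -/
def SK (k : ℝ) : Set R3 := {p | p.2.2^2 + p.1*p.2.1*p.2.2 - p.1^2 - p.2.1^2 = k^2}
/-- the wandering part -/
def WK (k : ℝ) : Set R3 := {p | p ∈ SK k ∧ p.2.2^2 < k^2}
/-- the four components -/
def WC (k a b : ℝ) : Set R3 := {p | p ∈ WK k ∧ 0 < a*p.1 ∧ 0 < b*p.2.2}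

theorem Ix_mem : Ix ∈ Gam := Subgroup.subset_closure (by simp)
theorem Iy_mem : Iy ∈ Gam := Subgroup.subset_closure (by simp)
theorem Iz_mem : Iz ∈ Gam := Subgroup.subset_closure (by simp)
theorem sw_mem : sw ∈ Gam := Subgroup.subset_closure (by simp)
theorem Ix_memD : Ix ∈ Dg := Subgroup.subset_closure (by simp)
theorem Iy_memD : Iy ∈ Dg := Subgroup.subset_closure (by simp)
theorem sw_memD : sw ∈ Dg := Subgroup.subset_closure (by simp)

theorem Ix_inv : Ix⁻¹ = Ix := inv_eq_of_mul_eq_one_left Ix_mul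
theorem Iy_inv : Iy⁻¹ = Iy := inv_eq_of_mul_eq_one_left Iy_mul
theorem Iz_inv : Iz⁻¹ = Iz := inv_eq_of_mul_eq_one_left Iz_mul
theorem sw_inv : sw⁻¹ = sw := inv_eq_of_mul_eq_one_left sw_mul

/-- induction principle for `Gam` -/
theorem Gam_induction {P : Equiv.Perm R3 → Prop} (h1 : P 1)
    (hx : ∀ g, P g → P (Ix * g)) (hy : ∀ g, P g → P (Iy * g)) (hz : ∀ g, P g → P (Iz * g))
    (hs : ∀ g, P g → P (sw * g)) {g : Equiv.Perm R3} (hg : g ∈ Gam) : P g := by
  refine Subgroup.closure_induction_left (p := fun g _ => P g) h1 ?_ ?_ hg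
  · intro a ha y hy' h
    simp only [Set.mem_insert_iff, Set.mem_singleton_iff] at ha
    rcases ha with rfl | rfl | rfl | rfl
    · exact hx _ h
    · exact hy _ h
    · exact hz _ h
    · exact hs _ h
  · intro a ha y hy' h
    simp only [Set.mem_insert_iff, Set.mem_singleton_iff] at ha
    rcases ha with rfl | rfl | rfl | rfl
    · rw [Ix_inv]; exact hx _ h
    · rw [Iy_inv]; exact hy _ h
    · rw [Iz_inv]; exact hz _ h
    · rw [sw_inv]; exact hs _ h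

theorem Dg_induction {P : Equiv.Perm R3 → Prop} (h1 : P 1)
    (hx : ∀ g, P g → P (Ix * g)) (hy : ∀ g, P g → P (Iy * g))
    (hs : ∀ g, P g → P (sw * g)) {g : Equiv.Perm R3} (hg : g ∈ Dg) : P g := by
  refine Subgroup.closure_induction_left (p := fun g _ => P g) h1 ?_ ?_ hg
  · intro a ha y hy' h
    simp only [Set.mem_insert_iff, Set.mem_singleton_iff] at ha
    rcases ha with rfl | rfl | rfl
    · exact hx _ h
    · exact hy _ h
    · exact hs _ h
  · intro a ha y hy' h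
    simp only [Set.mem_insert_iff, Set.mem_singleton_iff] at ha
    rcases ha with rfl | rfl | rfl
    · rw [Ix_inv]; exact hx _ h
    · rw [Iy_inv]; exact hy _ h
    · rw [sw_inv]; exact hs _ h

theorem Dg_le : Dg ≤ Gam := by
  unfold Dg Gam
  apply Subgroup.closure_mono
  intro x hx
  simp only [Set.mem_insert_iff, Set.mem_singleton_iff] at hx ⊢
  tauto

theorem SK_Ix {k : ℝ} {p : R3} : Ix p ∈ SK k ↔ p ∈ SK k := by
  simp only [SK, Ix_apply, Set.mem_ofPred_eq]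
  constructor <;> intro h <;> nlinarith
theorem SK_Iy {k : ℝ} {p : R3} : Iy p ∈ SK k ↔ p ∈ SK k := by
  simp only [SK, Iy_apply, Set.mem_ofPred_eq]
  constructor <;> intro h <;> nlinarith
theorem SK_Iz {k : ℝ} {p : R3} : Iz p ∈ SK k ↔ p ∈ SK k := by
  simp only [SK, Iz_apply, Set.mem_ofPred_eq]
  constructor <;> intro h <;> nlinarith
theorem SK_sw {k : ℝ} {p : R3} : sw p ∈ SK k ↔ p ∈ SK k := by
  simp only [SK, sw_apply, Set.mem_ofPred_eq]
  constructor <;> intro h <;> nlinarith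

theorem SK_Gam {k : ℝ} {g : Equiv.Perm R3} (hg : g ∈ Gam) (p : R3) : g p ∈ SK k ↔ p ∈ SK k := by
  refine Gam_induction (P := fun g => g p ∈ SK k ↔ p ∈ SK k) Iff.rfl ?_ ?_ ?_ ?_ hg
  · intro g h; rw [Equiv.Perm.mul_apply, SK_Ix, h]
  · intro g h; rw [Equiv.Perm.mul_apply, SK_Iy, h]
  · intro g h; rw [Equiv.Perm.mul_apply, SK_Iz, h]
  · intro g h; rw [Equiv.Perm.mul_apply, SK_sw, h]

theorem four_lt {k : ℝ} (hk : 2 < k) {p : R3} (hp : p ∈ SK k) : 4 < p.2.2^2 := by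
  obtain ⟨x, y, z⟩ := p
  simp only [SK, Set.mem_ofPred_eq] at hp
  show 4 < z^2
  by_contra hcon
  push Not at hcon
  -- x y z ≤ x^2 + y^2
  have hz : |z| ≤ 2 := by
    apply abs_le_of_sq_le_sq _ (by norm_num)
    linarith
  have h1 : x*y*z ≤ |x| * |y| * 2 := by
    calc x*y*z ≤ |x*y*z| := le_abs_self _
      _ = |x| * |y| * |z| := by rw [abs_mul, abs_mul]
      _ ≤ |x| * |y| * 2 := mul_le_mul_of_nonneg_left hz (by positivity)
  have h2 : |x| * |y| * 2 ≤ x^2 + y^2 := by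
    nlinarith [sq_nonneg (|x| - |y|), sq_abs x, sq_abs y]
  nlinarith

/-- on `WK` the product `x y z` is positive -/
theorem WK_pos {k : ℝ} {p : R3} (hp : p ∈ WK k) : 0 < p.1*p.2.1*p.2.2 := by
  obtain ⟨h1, h2⟩ := hp
  simp only [SK, Set.mem_ofPred_eq] at h1
  nlinarith [sq_nonneg p.1, sq_nonneg p.2.1]

theorem WK_D {k : ℝ} {g : Equiv.Perm R3} (hg : g ∈ Dg) : ∀ p, (g p).2.2 = p.2.2 := by
  refine Dg_induction (P := fun g => ∀ p, (g p).2.2 = p.2.2) ?_ ?_ ?_ ?_ hg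
  · intro p; rfl
  · intro g h p; rw [Equiv.Perm.mul_apply]; exact h p
  · intro g h p; rw [Equiv.Perm.mul_apply]; exact h p
  · intro g h p; rw [Equiv.Perm.mul_apply]; exact h p

theorem WK_mem_D {k : ℝ} {g : Equiv.Perm R3} (hg : g ∈ Dg) {p : R3} : g p ∈ WK k ↔ p ∈ WK k := by
  unfold WK
  simp only [Set.mem_ofPred_eq]
  rw [SK_Gam (Dg_le hg), WK_D (k := k) hg]

/-- reduced words leaving the stabiliser -/
inductive Red : Equiv.Perm R3 → Fin 3 → Prop
  | base (d : Equiv.Perm R3) (hd : d ∈ Dg) : Red (Iz * d) 2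
  | stepx (g : Equiv.Perm R3) (a : Fin 3) (h : Red g a) (ha : a ≠ 0) : Red (Ix * g) 0
  | stepy (g : Equiv.Perm R3) (a : Fin 3) (h : Red g a) (ha : a ≠ 1) : Red (Iy * g) 1
  | stepz (g : Equiv.Perm R3) (a : Fin 3) (h : Red g a) (ha : a ≠ 2) : Red (Iz * g) 2

def sig : Fin 3 → Fin 3 := ![1, 0, 2]

theorem Red_sw {g : Equiv.Perm R3} {a : Fin 3} (h : Red g a) : Red (sw * g) (sig a) := by
  induction h with
  | base d hd =>
    rw [← mul_assoc, sw_Iz, mul_assoc]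
    exact Red.base _ (Dg.mul_mem sw_memD hd)
  | stepx g a h ha ih =>
    rw [← mul_assoc, sw_Ix, mul_assoc]
    refine Red.stepy _ _ ih ?_
    fin_cases a <;> simp_all [sig]
  | stepy g a h ha ih =>
    rw [← mul_assoc, sw_Iy, mul_assoc]
    refine Red.stepx _ _ ih ?_
    fin_cases a <;> simp_all [sig]
  | stepz g a h ha ih =>
    rw [← mul_assoc, sw_Iz, mul_assoc]
    refine Red.stepz _ _ ih ?_
    fin_cases a <;> simp_all [sig]

theorem Red_Ix {g : Equiv.Perm R3} {a : Fin 3} (h : Red g a) : ∃ b, Red (Ix * g) b := by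
  by_cases ha : a = 0
  · cases h with
    | base d hd => simp at ha
    | stepx g a h ha' => exact ⟨a, by rw [← mul_assoc, Ix_mul, one_mul]; exact h⟩
    | stepy g a h ha' => simp at ha
    | stepz g a h ha' => simp at ha
  · exact ⟨0, Red.stepx _ _ h ha⟩

theorem Red_Iy {g : Equiv.Perm R3} {a : Fin 3} (h : Red g a) : ∃ b, Red (Iy * g) b := by
  by_cases ha : a = 1
  · cases h with
    | base d hd => simp at ha
    | stepx g a h ha' => simp at ha
    | stepy g a h ha' => exact ⟨a, by rw [← mul_assoc, Iy_mul, one_mul]; exact h⟩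
    | stepz g a h ha' => simp at ha
  · exact ⟨1, Red.stepy _ _ h ha⟩

theorem Red_Iz {g : Equiv.Perm R3} {a : Fin 3} (h : Red g a) :
    Iz * g ∈ Dg ∨ ∃ b, Red (Iz * g) b := by
  by_cases ha : a = 2
  · cases h with
    | base d hd => left; rw [← mul_assoc, Iz_mul, one_mul]; exact hd
    | stepx g a h ha' => simp at ha
    | stepy g a h ha' => simp at ha
    | stepz g a h ha' => right; exact ⟨a, by rw [← mul_assoc, Iz_mul, one_mul]; exact h⟩
  · right; exact ⟨2, Red.stepz _ _ h ha⟩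

theorem dichotomy {g : Equiv.Perm R3} (hg : g ∈ Gam) : g ∈ Dg ∨ ∃ a, Red g a := by
  refine Gam_induction (P := fun g => g ∈ Dg ∨ ∃ a, Red g a) (Or.inl (one_mem _)) ?_ ?_ ?_ ?_ hg
  · rintro g (h | ⟨a, h⟩)
    · exact Or.inl (Dg.mul_mem Ix_memD h)
    · exact Or.inr (Red_Ix h)
  · rintro g (h | ⟨a, h⟩)
    · exact Or.inl (Dg.mul_mem Iy_memD h)
    · exact Or.inr (Red_Iy h)
  · rintro g (h | ⟨a, h⟩)
    · exact Or.inr ⟨2, Red.base g h⟩
    · exact Red_Iz h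
  · rintro g (h | ⟨a, h⟩)
    · exact Or.inl (Dg.mul_mem sw_memD h)
    · exact Or.inr ⟨_, Red_sw h⟩

/-- being away from the centre, with inward letter `a` -/
def Away (a : Fin 3) (p : R3) : Prop :=
  (a = 2 → p.1*p.2.1*p.2.2 < 0) ∧
  (a = 0 → 0 < p.1*p.2.1*p.2.2 ∧ (p.2.1*p.2.2)^2 < 4*p.1^2) ∧
  (a = 1 → 0 < p.1*p.2.1*p.2.2 ∧ (p.1*p.2.2)^2 < 4*p.2.1^2)

theorem away_aux {A B Z : ℝ} (hAB : 0 < A*B) (h : (B*Z)^2 < 4*(A/Z)^2) (hZ : 4 < Z^2) :
    0 < (A - B)*A ∧ A^2 < 4*(A-B)^2 := by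
  have hZ0 : Z ≠ 0 := by rintro rfl; norm_num at hZ
  have h1 : (B*Z)^2*Z^2 < 4*A^2 := by
    have h2 := mul_lt_mul_of_pos_right h (show 0 < Z^2 by positivity)
    have h3 : 4*(A/Z)^2*Z^2 = 4*A^2 := by field_simp
    linarith
  have h4 : 4*B^2 < A^2 := by
    have h5 : (B*Z)^2*Z^2 = B^2*(Z^2*Z^2) := by ring
    have h6 : 16 ≤ Z^2*Z^2 := by nlinarith
    have h7 : B^2*16 ≤ B^2*(Z^2*Z^2) := mul_le_mul_of_nonneg_left h6 (sq_nonneg _)
    linarith
  have h8 : 0 < (A - 2*B)*A := by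
    -- (A-2B)(A+2B) > 0 and A(A+2B) > 0
    have h9 : 0 < (A-2*B)*(A+2*B) := by nlinarith
    have h10 : 0 < A*(A+2*B) := by nlinarith [sq_nonneg A, sq_nonneg B]
    have h11 : 0 < ((A-2*B)*(A+2*B))*(A*(A+2*B)) := mul_pos h9 h10
    have h12 : ((A-2*B)*(A+2*B))*(A*(A+2*B)) = ((A - 2*B)*A)*(A+2*B)^2 := by ring
    rw [h12] at h11
    by_contra hc
    push Not at hc
    have := mul_nonpos_of_nonpos_of_nonneg hc (sq_nonneg (A+2*B))
    linarith
  constructor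
  · nlinarith
  · nlinarith

theorem away_x {k : ℝ} (hk : 2 < k) {p : R3} (hp : p ∈ SK k) {a : Fin 3} (ha : a ≠ 0)
    (h : Away a p) : Away 0 (Ix p) := by
  have h4 := four_lt hk hp
  obtain ⟨x, y, z⟩ := p
  simp only [Away, Ix_apply] at *
  refine ⟨by simp, fun _ => ?_, by simp⟩
  obtain ⟨hA2, _, hA1⟩ := h
  fin_cases a
  · exact absurd rfl ha
  · obtain ⟨h1, h2⟩ := hA1 rfl
    have hz0 : z ≠ 0 := by rintro rfl; norm_num at h4
    have h5 : 0 < (y*z)*x := by nlinarith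
    have h6 : (x*z)^2 < 4*((y*z)/z)^2 := by
      have : y*z/z = y := by field_simp
      rw [this]; exact h2
    obtain ⟨h7, h8⟩ := away_aux h5 h6 h4
    exact ⟨by nlinarith, h8⟩
  · have h1 := hA2 rfl
    constructor
    · have h3 : (y*z - x)*y*z = (y*z)^2 - x*y*z := by ring
      rw [h3]; nlinarith [sq_nonneg (y*z)]
    · have h3 : 0 < (y*z)^2 := by
        have : y*z ≠ 0 := by
          intro h0
          rw [mul_assoc, h0, mul_zero] at h1
          exact lt_irrefl _ h1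
        positivity
      nlinarith [sq_nonneg x]

theorem away_y {k : ℝ} (hk : 2 < k) {p : R3} (hp : p ∈ SK k) {a : Fin 3} (ha : a ≠ 1)
    (h : Away a p) : Away 1 (Iy p) := by
  have h4 := four_lt hk hp
  obtain ⟨x, y, z⟩ := p
  simp only [Away, Iy_apply] at *
  refine ⟨by simp, by simp, fun _ => ?_⟩
  obtain ⟨hA2, hA0, _⟩ := h
  fin_cases a
  · obtain ⟨h1, h2⟩ := hA0 rfl
    have hz0 : z ≠ 0 := by rintro rfl; norm_num at h4
    have h5 : 0 < (x*z)*y := by nlinarith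
    have h6 : (y*z)^2 < 4*((x*z)/z)^2 := by
      have : x*z/z = x := by field_simp
      rw [this]; exact h2
    obtain ⟨h7, h8⟩ := away_aux h5 h6 h4
    exact ⟨by nlinarith, h8⟩
  · exact absurd rfl ha
  · have h1 := hA2 rfl
    constructor
    · have h3 : x*(x*z - y)*z = (x*z)^2 - x*y*z := by ring
      rw [h3]; nlinarith [sq_nonneg (x*z)]
    · have h3 : 0 < (x*z)^2 := by
        have : x*z ≠ 0 := by
          intro h0
          have h5 : x*y*z = (x*z)*y := by ring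
          rw [h5, h0, zero_mul] at h1
          exact lt_irrefl _ h1
        positivity
      nlinarith [sq_nonneg y]

theorem away_z {p : R3} (h : 0 < p.1*p.2.1*p.2.2) : Away 2 (Iz p) ∧ p.2.2^2 < (Iz p).2.2^2 := by
  obtain ⟨x, y, z⟩ := p
  simp only [Away, Iz_apply] at *
  refine ⟨⟨fun _ => ?_, by simp, by simp⟩, ?_⟩
  · have : x*y*(-(x*y) - z) = -((x*y)^2) - x*y*z := by ring
    rw [this]; nlinarith [sq_nonneg (x*y)]
  · nlinarith [sq_nonneg (x*y)]

theorem away_pos {p : R3} {a : Fin 3} (ha : a ≠ 2) (h : Away a p) : 0 < p.1*p.2.1*p.2.2 := by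
  obtain ⟨_, h0, h1⟩ := h
  fin_cases a
  · exact (h0 rfl).1
  · exact (h1 rfl).1
  · exact absurd rfl ha

theorem Iz_gt {k : ℝ} (hk : 2 < k) {p : R3} (hp : p ∈ WK k) : k^2 < (Iz p).2.2^2 := by
  obtain ⟨h1, h2⟩ := hp
  obtain ⟨x, y, z⟩ := p
  simp only [SK, Set.mem_ofPred_eq, Iz_apply] at *
  have h3 : z*(-(x*y) - z) = -(k^2 + x^2 + y^2) := by nlinarith
  by_contra hcon
  push Not at hcon
  have h4 : (z*(-(x*y) - z))^2 = (k^2+x^2+y^2)^2 := by rw [h3]; ring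
  have h5 : z^2*(-(x*y) - z)^2 < k^2*k^2 :=
    mul_lt_mul h2 hcon (by
      have : (-(x*y) - z) ≠ 0 := by
        intro h0
        rw [h0, mul_zero] at h3
        nlinarith [sq_nonneg x, sq_nonneg y]
      positivity) (by positivity)
  rw [mul_pow] at h4
  nlinarith [sq_nonneg x, sq_nonneg y]

theorem Red_away {k : ℝ} (hk : 2 < k) {g : Equiv.Perm R3} {a : Fin 3} (h : Red g a) :
    ∀ p ∈ WK k, g p ∈ SK k ∧ Away a (g p) ∧ k^2 < (g p).2.2^2 := by
  induction h with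
  | base d hd =>
    intro p hp
    have h1 : d p ∈ WK k := (WK_mem_D hd).2 hp
    rw [Equiv.Perm.mul_apply]
    exact ⟨SK_Iz.2 h1.1, (away_z (WK_pos h1)).1, Iz_gt hk h1⟩
  | stepx g a h ha ih =>
    intro p hp
    obtain ⟨h1, h2, h3⟩ := ih p hp
    rw [Equiv.Perm.mul_apply]
    exact ⟨SK_Ix.2 h1, away_x hk h1 ha h2, h3⟩
  | stepy g a h ha ih =>
    intro p hp
    obtain ⟨h1, h2, h3⟩ := ih p hp
    rw [Equiv.Perm.mul_apply]
    exact ⟨SK_Iy.2 h1, away_y hk h1 ha h2, h3⟩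
  | stepz g a h ha ih =>
    intro p hp
    obtain ⟨h1, h2, h3⟩ := ih p hp
    rw [Equiv.Perm.mul_apply]
    have h4 := away_z (away_pos ha h2)
    exact ⟨SK_Iz.2 h1, h4.1, h3.trans h4.2⟩

/-- a move either fixes the special curve or sends the wandering part off itself -/
theorem wander {k : ℝ} (hk : 2 < k) {g : Equiv.Perm R3} (hg : g ∈ Gam) :
    g ∈ Dg ∨ ∀ p ∈ WK k, k^2 < (g p).2.2^2 := by
  rcases dichotomy hg with h | ⟨a, h⟩
  · exact Or.inl h
  · exact Or.inr fun p hp => (Red_away hk h p hp).2.2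

/-- elements of `Dg` permute the components -/
theorem comp_Ix {k a b : ℝ} (hk : 2 < k) {p : R3} (hp : p ∈ WC k a b) : Ix p ∈ WC k a b := by
  obtain ⟨h1, h2, h3⟩ := hp
  refine ⟨(WK_mem_D Ix_memD).2 h1, ?_, h3⟩
  obtain ⟨h4, h5⟩ := h1
  obtain ⟨x, y, z⟩ := p
  simp only [SK, Set.mem_ofPred_eq, Ix_apply] at *
  -- x * (y z - x) = y^2 + k^2 - z^2 > 0
  have h6 : 0 < x*(y*z - x) := by nlinarith [sq_nonneg y]
  have h7 : 0 < (a*x)*(x*(y*z-x)) := mul_pos h2 h6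
  have h8 : (a*x)*(x*(y*z-x)) = (a*(y*z-x))*x^2 := by ring
  rw [h8] at h7
  by_contra hc
  push Not at hc
  have := mul_nonpos_of_nonpos_of_nonneg hc (sq_nonneg x)
  linarith

theorem comp_Iy {k a b : ℝ} {p : R3} (hp : p ∈ WC k a b) : Iy p ∈ WC k a b :=
  ⟨(WK_mem_D Iy_memD).2 hp.1, hp.2.1, hp.2.2⟩

theorem comp_sw {k a b : ℝ} {p : R3} (hp : p ∈ WC k a b) : sw p ∈ WC k (a*b) b := by
  refine ⟨(WK_mem_D sw_memD).2 hp.1, ?_, hp.2.2⟩
  have h1 := WK_pos hp.1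
  obtain ⟨h0, h2, h3⟩ := hp
  obtain ⟨x, y, z⟩ := p
  simp only [sw_apply] at *
  have h4 : 0 < (a*x)*(b*z) := mul_pos h2 h3
  have h5 : 0 < ((a*x)*(b*z))*(x*y*z) := mul_pos h4 h1
  have h6 : ((a*x)*(b*z))*(x*y*z) = (a*b*y)*(x*z)^2 := by ring
  rw [h6] at h5
  by_contra hc
  push Not at hc
  have := mul_nonpos_of_nonpos_of_nonneg hc (sq_nonneg (x*z))
  linarith

end Pool.Agent.H528.MCG
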