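import Pool.Agent.H528.MCG.Defs
import Pool.Agent.H528.MCG.Group

set_option autoImplicit false

open MeasureTheory

namespace Pool.Agent.H528.MCG

/-- An orientation reversing class: `X ↦ X⁻¹`, `Y ↦ Y`. -/
def refl : MulAut PiT :=
  MonoidHom.toMulEquiv (endo genX⁻¹ genY) (endo genX⁻¹ genY)
    (hom_ext (by simp [endo_X]) (by simp [endo_Y]))
    (hom_ext (by simp [endo_X]) (by simp [endo_Y]))

abbrev C3 := ℂ × ℂ × ℂ
abbrev SL2C := Matrix.SpecialLinearGroup (Fin 2) ℂ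

/-- trace -/
noncomputable def tr (A : SL2C) : ℂ := Matrix.trace (A : Matrix (Fin 2) (Fin 2) ℂ)

theorem tr_AAB (A B : SL2C) : tr (A * (A * B)) = tr A * tr (A * B) - tr B := by
  have h := A.det_coe
  rw [Matrix.det_fin_two] at h
  simp only [tr, Matrix.SpecialLinearGroup.coe_mul, Matrix.trace_fin_two, Matrix.mul_apply,
    Fin.sum_univ_two]
  linear_combination (-(B : Matrix (Fin 2) (Fin 2) ℂ) 0 0 - (B : Matrix (Fin 2) (Fin 2) ℂ) 1 1) * h

theorem tr_ABB (A B : SL2C) : tr ((A * B) * B) = tr (A * B) * tr B - tr A := by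
  have h := B.det_coe
  rw [Matrix.det_fin_two] at h
  simp only [tr, Matrix.SpecialLinearGroup.coe_mul, Matrix.trace_fin_two, Matrix.mul_apply,
    Fin.sum_univ_two]
  linear_combination (-(A : Matrix (Fin 2) (Fin 2) ℂ) 0 0 - (A : Matrix (Fin 2) (Fin 2) ℂ) 1 1) * h

theorem tr_inv (A : SL2C) : tr A⁻¹ = tr A := by
  simp [tr, Matrix.SpecialLinearGroup.coe_inv, Matrix.adjugate_fin_two, Matrix.trace_fin_two]
  ring

theorem tr_invAB (A B : SL2C) : tr (A⁻¹ * B) = tr A * tr B - tr (A * B) := by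
  simp only [tr, Matrix.SpecialLinearGroup.coe_mul, Matrix.trace_fin_two, Matrix.mul_apply,
    Fin.sum_univ_two, Matrix.SpecialLinearGroup.coe_inv, Matrix.adjugate_fin_two]
  simp
  ring

theorem tr_comm (A B : SL2C) : tr (A * B) = tr (B * A) := by
  simp only [tr, Matrix.SpecialLinearGroup.coe_mul]
  exact Matrix.trace_mul_comm _ _

theorem chr_eq (ρ : Rep) : chr ρ = (tr (ρ genX), tr (ρ genY), tr (ρ genX * ρ genY)) := by
  unfold chr tr; rw [map_mul]

/-- the polynomial maps induced by the generators -/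
def pX : Equiv.Perm C3 where
  toFun p := (p.1, p.2.2, p.1*p.2.2 - p.2.1)
  invFun p := (p.1, p.1*p.2.1 - p.2.2, p.2.1)
  left_inv p := by ext <;> simp
  right_inv p := by ext <;> simp

def pY : Equiv.Perm C3 where
  toFun p := (p.2.2, p.2.1, p.2.2*p.2.1 - p.1)
  invFun p := (p.1*p.2.1 - p.2.2, p.2.1, p.1)
  left_inv p := by ext <;> simp
  right_inv p := by ext <;> simp

def pR : Equiv.Perm C3 where
  toFun p := (p.1, p.2.1, p.1*p.2.1 - p.2.2)
  invFun p := (p.1, p.2.1, p.1*p.2.1 - p.2.2)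
  left_inv p := by ext <;> simp
  right_inv p := by ext <;> simp

/-- `g` is induced by `φ` -/
def Ind (φ : MulAut PiT) (g : C3 → C3) : Prop := ∀ ρ : Rep, g (chr ρ) = chr (ρ.comp φ.toMonoidHom)

theorem ind_X : Ind twX pX := by
  intro ρ
  have e1 : (ρ.comp twX.toMonoidHom) genX = ρ genX := by
    show ρ (endo genX (genX * genY) genX) = _
    rw [endo_X]
  have e2 : (ρ.comp twX.toMonoidHom) genY = ρ genX * ρ genY := by
    show ρ (endo genX (genX * genY) genY) = _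
    rw [endo_Y, map_mul]
  rw [chr_eq, chr_eq, e1, e2, tr_AAB]
  rfl

theorem ind_Y : Ind twY pY := by
  intro ρ
  have e1 : (ρ.comp twY.toMonoidHom) genX = ρ genX * ρ genY := by
    show ρ (endo (genX * genY) genY genX) = _
    rw [endo_X, map_mul]
  have e2 : (ρ.comp twY.toMonoidHom) genY = ρ genY := by
    show ρ (endo (genX * genY) genY genY) = _
    rw [endo_Y]
  rw [chr_eq, chr_eq, e1, e2, tr_ABB]
  rfl

theorem ind_R : Ind refl pR := by
  intro ρ
  have e1 : (ρ.comp refl.toMonoidHom) genX = (ρ genX)⁻¹ := by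
    show ρ (endo genX⁻¹ genY genX) = _
    rw [endo_X, map_inv]
  have e2 : (ρ.comp refl.toMonoidHom) genY = ρ genY := by
    show ρ (endo genX⁻¹ genY genY) = _
    rw [endo_Y]
  rw [chr_eq, chr_eq, e1, e2, tr_invAB, tr_inv]
  rfl

theorem ind_mul {φ ψ : MulAut PiT} {g h : Equiv.Perm C3} (hg : Ind φ g) (hh : Ind ψ h) :
    Ind (φ * ψ) (h * g : Equiv.Perm C3) := by
  intro ρ
  rw [Equiv.Perm.mul_apply, hg ρ, hh]
  rfl

theorem ind_inv {φ : MulAut PiT} {g : Equiv.Perm C3} (hg : Ind φ g) :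
    Ind φ⁻¹ (g⁻¹ : Equiv.Perm C3) := by
  intro ρ
  have h := hg (ρ.comp (φ⁻¹).toMonoidHom)
  have e : (ρ.comp (φ⁻¹).toMonoidHom).comp φ.toMonoidHom = ρ := by
    ext x
    show _ = _
    simp
  rw [e] at h
  rw [← h]
  simp

/-- every point of `ℂ³` is a character -/
theorem chr_surj (p : C3) : ∃ ρ : Rep, chr ρ = p := by
  obtain ⟨x, y, z⟩ := p
  -- choose `s` with `s + s⁻¹ = z`
  obtain ⟨s, hs⟩ : ∃ s : ℂ, s^2 - z*s + 1 = 0 := by
    obtain ⟨r, hr⟩ := IsAlgClosed.exists_pow_nat_eq (z^2 - 4) (n := 2) (by norm_num)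
    refine ⟨(z + r)/2, ?_⟩
    linear_combination hr/4
  have hs0 : s ≠ 0 := by
    rintro rfl; norm_num at hs
  let A : SL2C := ⟨!![x, -1; 1, 0], by rw [Matrix.det_fin_two_of]; ring⟩
  let B : SL2C := ⟨!![0, s; -s⁻¹, y], by
    rw [Matrix.det_fin_two_of]; field_simp; ring⟩
  refine ⟨FreeGroup.lift ![A, B], ?_⟩
  have e1 : (FreeGroup.lift ![A, B] : Rep) genX = A := by simp [genX]
  have e2 : (FreeGroup.lift ![A, B] : Rep) genY = B := by simp [genY]
  rw [chr_eq, e1, e2]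
  refine Prod.ext ?_ (Prod.ext ?_ ?_)
  · simp [tr, A, Matrix.trace_fin_two]
  · simp [tr, B, Matrix.trace_fin_two]
  · have hA : (A : Matrix (Fin 2) (Fin 2) ℂ) = !![x, -1; 1, 0] := rfl
    have hB : (B : Matrix (Fin 2) (Fin 2) ℂ) = !![0, s; -s⁻¹, y] := rfl
    show Matrix.trace ((A * B : SL2C) : Matrix (Fin 2) (Fin 2) ℂ) = z
    rw [Matrix.SpecialLinearGroup.coe_mul, hA, hB, Matrix.mul_fin_two, Matrix.trace_fin_two]
    simp
    field_simp
    linear_combination hs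

/-- standard embeddings of `ℝ³`, the real coordinate being in position `i` -/
noncomputable def em : Fin 3 → R3 → C3 :=
  ![fun p => (((p.2.2 : ℝ) : ℂ), (p.1 : ℂ) * Complex.I, (p.2.1 : ℂ) * Complex.I),
    fun p => ((p.1 : ℂ) * Complex.I, ((p.2.2 : ℝ) : ℂ), (p.2.1 : ℂ) * Complex.I),
    fun p => ((p.1 : ℂ) * Complex.I, (p.2.1 : ℂ) * Complex.I, ((p.2.2 : ℝ) : ℂ))]

theorem em0 (p : R3) : em 0 p =
  (((p.2.2 : ℝ) : ℂ), (p.1 : ℂ) * Complex.I, (p.2.1 : ℂ) * Complex.I) := rfl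
theorem em1 (p : R3) : em 1 p =
  ((p.1 : ℂ) * Complex.I, ((p.2.2 : ℝ) : ℂ), (p.2.1 : ℂ) * Complex.I) := rfl
theorem em2 (p : R3) : em 2 p =
  ((p.1 : ℂ) * Complex.I, (p.2.1 : ℂ) * Complex.I, ((p.2.2 : ℝ) : ℂ)) := rfl

/-- compatibility with the real moves -/
def Q (g : Equiv.Perm C3) : Prop := ∃ s : Equiv.Perm (Fin 3), ∃ γ : Fin 3 → Equiv.Perm R3,
  (∀ i, γ i ∈ Gam) ∧ ∀ i r, g (em i r) = em (s i) (γ i r)

theorem Q_mul {g h : Equiv.Perm C3} (hg : Q g) (hh : Q h) : Q (g * h) := by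
  obtain ⟨s, γ, h1, h2⟩ := hg
  obtain ⟨s', γ', h1', h2'⟩ := hh
  refine ⟨s * s', fun i => γ (s' i) * γ' i, fun i => Gam.mul_mem (h1 _) (h1' _), fun i r => ?_⟩
  rw [Equiv.Perm.mul_apply, h2', h2]; rfl

theorem Q_inv {g : Equiv.Perm C3} (hg : Q g) : Q g⁻¹ := by
  obtain ⟨s, γ, h1, h2⟩ := hg
  refine ⟨s⁻¹, fun i => (γ (s⁻¹ i))⁻¹, fun i => Gam.inv_mem (h1 _), fun i r => ?_⟩
  rw [Equiv.Perm.inv_eq_iff_eq, h2]
  simp

theorem Q_one : Q 1 := ⟨1, fun _ => 1, fun _ => one_mem _, fun _ _ => rfl⟩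

theorem Q_X : Q pX := by
  refine ⟨Equiv.swap 1 2, ![sw * Ix, Iz, Iy], ?_, ?_⟩
  · intro i
    fin_cases i
    · exact Gam.mul_mem sw_mem Ix_mem
    · exact Iz_mem
    · exact Iy_mem
  · intro i r
    have hI := Complex.I_mul_I
    fin_cases i
    · show pX (em 0 r) = em 0 ((sw * Ix) r)
      simp only [em0, pX, Equiv.coe_fn_mk, Equiv.Perm.mul_apply, Ix_apply, sw_apply]
      refine Prod.ext rfl (Prod.ext rfl ?_)
      push_cast; ring
    · show pX (em 1 r) = em 2 (Iz r)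
      simp only [em1, em2, pX, Equiv.coe_fn_mk, Iz_apply]
      refine Prod.ext rfl (Prod.ext rfl ?_)
      push_cast
      linear_combination (r.1 : ℂ) * r.2.1 * hI
    · show pX (em 2 r) = em 1 (Iy r)
      simp only [em1, em2, pX, Equiv.coe_fn_mk, Iy_apply]
      refine Prod.ext rfl (Prod.ext rfl ?_)
      push_cast; ring

theorem Q_Y : Q pY := by
  refine ⟨Equiv.swap 0 2, ![sw * Iz, sw * Ix, sw * Ix], ?_, ?_⟩
  · intro i
    fin_cases i
    · exact Gam.mul_mem sw_mem Iz_mem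
    · exact Gam.mul_mem sw_mem Ix_mem
    · exact Gam.mul_mem sw_mem Ix_mem
  · intro i r
    have hI := Complex.I_mul_I
    fin_cases i
    · show pY (em 0 r) = em 2 ((sw * Iz) r)
      simp only [em0, em2, pY, Equiv.coe_fn_mk, Equiv.Perm.mul_apply, Iz_apply, sw_apply]
      refine Prod.ext rfl (Prod.ext rfl ?_)
      push_cast
      linear_combination (r.1 : ℂ) * r.2.1 * hI
    · show pY (em 1 r) = em 1 ((sw * Ix) r)
      simp only [em1, pY, Equiv.coe_fn_mk, Equiv.Perm.mul_apply, Ix_apply, sw_apply]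
      refine Prod.ext rfl (Prod.ext rfl ?_)
      push_cast; ring
    · show pY (em 2 r) = em 0 ((sw * Ix) r)
      simp only [em0, em2, pY, Equiv.coe_fn_mk, Equiv.Perm.mul_apply, Ix_apply, sw_apply]
      refine Prod.ext rfl (Prod.ext rfl ?_)
      push_cast; ring

theorem Q_R : Q pR := by
  refine ⟨1, ![Iy, Iy, Iz], ?_, ?_⟩
  · intro i
    fin_cases i
    · exact Iy_mem
    · exact Iy_mem
    · exact Iz_mem
  · intro i r
    have hI := Complex.I_mul_I
    fin_cases i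
    · show pR (em 0 r) = em 0 (Iy r)
      simp only [em0, pR, Equiv.coe_fn_mk, Iy_apply]
      refine Prod.ext rfl (Prod.ext rfl ?_)
      push_cast; ring
    · show pR (em 1 r) = em 1 (Iy r)
      simp only [em1, pR, Equiv.coe_fn_mk, Iy_apply]
      refine Prod.ext rfl (Prod.ext rfl ?_)
      push_cast; ring
    · show pR (em 2 r) = em 2 (Iz r)
      simp only [em2, pR, Equiv.coe_fn_mk, Iz_apply]
      refine Prod.ext rfl (Prod.ext rfl ?_)
      push_cast
      linear_combination (r.1 : ℂ) * r.2.1 * hI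

end Pool.Agent.H528.MCG
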