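import Mathlib

set_option autoImplicit false

open MeasureTheory

namespace Pool.Agent.H528.MCG

/-- The fundamental group of the one-holed torus: the free group on `X = of 0`, `Y = of 1`. -/
abbrev PiT : Type := FreeGroup (Fin 2)

/-- the generator `X` -/
def genX : PiT := FreeGroup.of 0
/-- the generator `Y` -/
def genY : PiT := FreeGroup.of 1

/-- Representations of the fundamental group in `SL(2, ℂ)`. -/
abbrev Rep : Type := PiT →* Matrix.SpecialLinearGroup (Fin 2) ℂ

/-- The character `(tr ρ(X), tr ρ(Y), tr ρ(XY))` of a representation `ρ`. -/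
noncomputable def chr (ρ : Rep) : ℂ × ℂ × ℂ :=
  (Matrix.trace (ρ genX : Matrix (Fin 2) (Fin 2) ℂ),
   Matrix.trace (ρ genY : Matrix (Fin 2) (Fin 2) ℂ),
   Matrix.trace (ρ (genX * genY) : Matrix (Fin 2) (Fin 2) ℂ))

/-- The endomorphism of the free group with `X ↦ a`, `Y ↦ b`. -/
def endo (a b : PiT) : PiT →* PiT := FreeGroup.lift ![a, b]

theorem endo_X (a b : PiT) : endo a b genX = a := by
  simp [endo, genX]

theorem endo_Y (a b : PiT) : endo a b genY = b := by
  simp [endo, genY]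

theorem hom_ext {f g : PiT →* PiT} (hX : f genX = g genX) (hY : f genY = g genY) : f = g := by
  apply FreeGroup.ext_hom
  intro i
  fin_cases i
  · exact hX
  · exact hY

/-- The Dehn twist about the curve `X`: `X ↦ X`, `Y ↦ X Y`. -/
def twX : MulAut PiT :=
  MonoidHom.toMulEquiv (endo genX (genX * genY)) (endo genX (genX⁻¹ * genY))
    (hom_ext (by simp [endo_X]) (by simp [endo_X, endo_Y]))
    (hom_ext (by simp [endo_X]) (by simp [endo_X, endo_Y]))

/-- The Dehn twist about the curve `Y`: `X ↦ X Y`, `Y ↦ Y`. -/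
def twY : MulAut PiT :=
  MonoidHom.toMulEquiv (endo (genX * genY) genY) (endo (genX * genY⁻¹) genY)
    (hom_ext (by simp [endo_X, endo_Y]) (by simp [endo_Y]))
    (hom_ext (by simp [endo_X, endo_Y]) (by simp [endo_Y]))

/-- The group generated by the two Dehn twists: the orientation preserving mapping classes. -/
def ModPlus : Subgroup (MulAut PiT) := Subgroup.closure {twX, twY}

/-- The boundary trace `κ(x, y, z) = x² + y² + z² - xyz - 2`. -/
def kappa (p : ℂ × ℂ × ℂ) : ℂ :=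
  p.1 ^ 2 + p.2.1 ^ 2 + p.2.2 ^ 2 - p.1 * p.2.1 * p.2.2 - 2

/-- The component `iℝ × ℝ × iℝ`. -/
def Comp : Set (ℂ × ℂ × ℂ) := {p | p.1.re = 0 ∧ p.2.1.im = 0 ∧ p.2.2.re = 0}

/-- The level set `V_t` of the boundary trace on the component `iℝ × ℝ × iℝ`. -/
def V (t : ℝ) : Set (ℂ × ℂ × ℂ) := {p | p ∈ Comp ∧ kappa p = (t : ℂ)}

/-- The self-maps `g` of the space `ℂ³` of characters which are given by precomposition with an
automorphism `φ ∈ M` and which preserve the component `iℝ × ℝ × iℝ`. -/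
def act (M : Subgroup (MulAut PiT)) : Set (ℂ × ℂ × ℂ → ℂ × ℂ × ℂ) :=
  {g | (∃ φ ∈ M, ∀ ρ : Rep, g (chr ρ) = chr (ρ.comp φ.toMonoidHom)) ∧ g '' Comp = Comp}

/-- `U` is a wandering domain of `V_t`: a nonempty (relatively) open subset which every mapping
class preserves or moves off itself, with stabiliser acting properly on `U`. -/
def IsWanderingDomain (M : Subgroup (MulAut PiT)) (t : ℝ) (U : Set (ℂ × ℂ × ℂ)) : Prop :=
  U ⊆ V t ∧ U.Nonempty ∧ (∃ O : Set (ℂ × ℂ × ℂ), IsOpen O ∧ U = O ∩ V t) ∧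
  (∀ g ∈ act M, g '' U = U ∨ Disjoint (g '' U) U) ∧
  (∀ C : Set (ℂ × ℂ × ℂ), C ⊆ U → IsCompact C →
    {g | g ∈ act M ∧ g '' U = U ∧ (g '' C ∩ C).Nonempty}.Finite)

/-- Ergodicity of the action on an invariant set `E ⊆ V_t`, for the area class (two-dimensional
Hausdorff measure): every invariant Borel subset of `E` is null or has null complement in `E`. -/
def IsErgodic (M : Subgroup (MulAut PiT)) (E : Set (ℂ × ℂ × ℂ)) : Prop :=
  ∀ A : Set (ℂ × ℂ × ℂ), A ⊆ E → MeasurableSet A → (∀ g ∈ act M, g '' A = A) →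
    Measure.hausdorffMeasure 2 A = 0 ∨ Measure.hausdorffMeasure 2 (E \ A) = 0

/-- The four pieces of `{|y| < √(t+2)} ⊆ V_t`, according to the signs of `Im x` and `Re y`. -/
def W (t a b : ℝ) : Set (ℂ × ℂ × ℂ) :=
  {p | p ∈ V t ∧ 0 < a * p.1.im ∧ 0 < b * p.2.1.re ∧ p.2.1.re ^ 2 < t + 2}

/-- The translates of the four pieces by the mapping classes preserving the component. -/
def Translates (M : Subgroup (MulAut PiT)) (t : ℝ) : Set (Set (ℂ × ℂ × ℂ)) :=
  {U | ∃ g ∈ act M, ∃ a b : ℝ, (a = 1 ∨ a = -1) ∧ (b = 1 ∨ b = -1) ∧ U = g '' W t a b}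

end Pool.Agent.H528.MCG
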