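import Pool.Agent.H528.MCG.Null

set_option autoImplicit false

open MeasureTheory Set

namespace Pool.Agent.H528.MCG

section
variable {k : ℝ} (hk : 2 < k) {GG : Set (ℝ × ℝ)}
  (h1 : ∀ p ∈ GG, 0 < p.1 ∧ 0 < p.2) (h2 : ∀ p ∈ GG, (p.2, p.1) ∈ GG)
  (h3 : ∀ p ∈ GG, (|p.1 - p.2*zp k p.1 p.2|, p.2) ∈ GG)
  (h4 : ∀ p ∈ GG, k ≤ zp k p.1 p.2)

include hk h1 h2 h3 h4

theorem descent_aux (N : ℕ) : ∀ (x t : ℝ), x ≤ N*t → (x, t) ∈ GG → t < x →
    ∃ n : ℕ, ∃ w : ℝ, |w| ≤ t ∧ w ≠ 0 ∧ (t, |w|) ∈ GG ∧ (F k t)^[n+1] w = x := by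
  induction N with
  | zero =>
    intro x t hx hG hlt
    have := (h1 _ hG).1
    simp only [Nat.cast_zero, zero_mul] at hx
    simp only at this
    linarith
  | succ N ih =>
    intro x t hx hG hlt
    have hx0 : 0 < x := (h1 _ hG).1
    have ht0 : 0 < t := (h1 _ hG).2
    have hz4 : k ≤ zp k x t := h4 _ hG
    have hz := zp_eq hk x t
    have hG2 := h3 _ hG
    simp only at hG2
    have hy : G k t x = x - t*zp k x t := by rw [G_eq hk, zp_comm]
    rw [← hy] at hG2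
    have hyF : F k t (G k t x) = x := F_G hk t x
    set y := G k t x with hyd
    have hy0 : 0 < |y| := (h1 _ hG2).1
    have hyne : y ≠ 0 := abs_pos.1 hy0
    rcases le_or_gt (|y|) t with hle | hgt
    · exact ⟨0, y, hle, hyne, h2 _ hG2, by simpa using hyF⟩
    · rcases lt_or_ge y 0 with hneg | hpos
      · exfalso
        rw [abs_of_neg hneg] at hgt
        -- x > t, -y > t, x * (-y) = k^2 + t^2 - z^2
        have e : x*(-y) = k^2 + t^2 - zp k x t^2 := by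
          rw [hy]; nlinarith
        have h5 : t*t < x*(-y) := mul_lt_mul hlt hgt.le ht0 hx0.le
        have h6 : k^2 ≤ zp k x t^2 := by nlinarith
        nlinarith
      · rw [abs_of_nonneg hpos] at hgt hG2
        have hstep : y ≤ N*t := by
          have h7 : 2 < zp k x t := two_lt_zp hk x t
          have h8 : y = x - t*zp k x t := hy
          have h9 : t*2 ≤ t*zp k x t := mul_le_mul_of_nonneg_left h7.le ht0.le
          push_cast at hx
          nlinarith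
        obtain ⟨n, w, g1, g2, g3, g4⟩ := ih y t hstep hG2 hgt
        refine ⟨n+1, w, g1, g2, g3, ?_⟩
        rw [Function.iterate_succ_apply', g4, hyF]

theorem descent {p : ℝ × ℝ} (hp : p ∈ GG) (hO : p ∈ Om) :
    p ∈ Surv k ∧ ∃ a, ∃ q ∈ Surv k, q ∈ GG ∧ phi k a q = p := by
  obtain ⟨x, t⟩ := p
  have hx0 : 0 < x := (h1 _ hp).1
  have ht0 : 0 < t := (h1 _ hp).2
  have hz4 : k ≤ zp k x t := h4 _ hp
  have hS : t ≤ rr k * x := (surv_iff hk hO.1 hO.2).2 hz4
  refine ⟨⟨ht0, hS⟩, ?_⟩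
  have hlt : t < x := by
    have := rr_lt_one hk
    nlinarith
  obtain ⟨N, hN⟩ := exists_nat_ge (x/t)
  have hxN : x ≤ N*t := by rwa [div_le_iff₀ ht0] at hN
  obtain ⟨n, w, g1, g2, g3, g4⟩ := descent_aux hk h1 h2 h3 h4 N x t hxN hp hlt
  have hw0 : 0 < |w| := abs_pos.2 g2
  refine ⟨(n, decide (0 < w)), (t, |w|), ⟨hw0, ?_⟩, g3, ?_⟩
  · exact (surv_iff hk hw0 g1).2 (h4 _ g3)
  · unfold phi
    simp only
    have : sg (decide (0 < w)) |w| = w := by
      unfold sg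
      by_cases h : 0 < w
      · simp [h, abs_of_pos h]
      · push Not at h
        simp [not_lt.2 h, abs_of_nonpos h]
    rw [this, g4]

theorem chain (m : ℕ) : ∀ p ∈ GG, p ∈ Om → ∃ l : List (ℕ × Bool), l.length = m ∧
    ∃ a, ∃ q ∈ Surv k, phiL k l (phi k a q) = p := by
  induction m with
  | zero =>
    intro p hp hO
    obtain ⟨_, a, q, hq, _, h⟩ := descent hk h1 h2 h3 h4 hp hO
    exact ⟨[], rfl, a, q, hq, h⟩
  | succ m ih =>
    intro p hp hO
    obtain ⟨_, a, q, hq, hqG, h⟩ := descent hk h1 h2 h3 h4 hp hO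
    obtain ⟨l, hl, b, q', hq', h'⟩ := ih q hqG (Surv_sub_Om hk hq)
    exact ⟨a :: l, by simp [hl], b, q', hq', by rw [phiL_cons, h', h]⟩

theorem chain2 (m : ℕ) : ∀ p ∈ GG, p ∈ Om → ∃ l : List (ℕ × Bool),
    ∃ q ∈ GG, q ∈ Om ∧ phiL k l q = p ∧ q.1 ≤ rr k^m * p.1 := by
  induction m with
  | zero =>
    intro p hp hO
    exact ⟨[], p, hp, hO, rfl, by simp⟩
  | succ m ih =>
    intro p hp hO
    obtain ⟨hpS, a, q, hq, hqG, h⟩ := descent hk h1 h2 h3 h4 hp hO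
    obtain ⟨l, q', hq', hO', h', hle⟩ := ih q hqG (Surv_sub_Om hk hq)
    refine ⟨a :: l, q', hq', hO', by rw [phiL_cons, h', h], ?_⟩
    have e : q.1 = p.2 := by rw [← h]; rfl
    have h5 := hpS.2
    rw [e] at hle
    have := rr_pos hk
    calc q'.1 ≤ rr k^m * p.2 := hle
      _ ≤ rr k^m * (rr k * p.1) := by gcongr
      _ = rr k^(m+1) * p.1 := by ring

theorem null_GG : volume GG = 0 := by
  -- choose the level
  obtain ⟨d, hd0, hd1, hd2⟩ : ∃ d : ℝ, 0 < d ∧ d ≤ 1 ∧ 3*d^2 ≤ k - 2 := by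
    refine ⟨min 1 ((k-2)/3), ?_, min_le_left _ _, ?_⟩
    · exact lt_min one_pos (by linarith)
    · have g1 : min 1 ((k-2)/3) ≤ 1 := min_le_left _ _
      have g2 : min 1 ((k-2)/3) ≤ (k-2)/3 := min_le_right _ _
      have g3 : 0 < min 1 ((k-2)/3) := lt_min one_pos (by linarith)
      nlinarith
  have hsmall : mu k {p | p ∈ GG ∧ p ∈ Om ∧ p.1 < d} = 0 := by
    apply null_small hk hd1 hd2
    rintro p ⟨hp, hO, hpd⟩
    exact ⟨hpd, fun m => chain hk h1 h2 h3 h4 m p hp hO⟩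
  have hOm : mu k (GG ∩ Om) = 0 := by
    have hsub : GG ∩ Om ⊆ ⋃ l : List (ℕ × Bool), phiLE hk l '' {p | p ∈ GG ∧ p ∈ Om ∧ p.1 < d} := by
      rintro p ⟨hp, hO⟩
      have hr0 := rr_pos hk
      have hr1 := rr_lt_one hk
      have hp1 := Om_fst_pos hO
      obtain ⟨m, hm⟩ := exists_pow_lt_of_lt_one (div_pos hd0 hp1) hr1
      obtain ⟨l, q, hq, hqO, hql, hle⟩ := chain2 hk h1 h2 h3 h4 m p hp hO
      refine mem_iUnion.2 ⟨l, q, ⟨hq, hqO, ?_⟩, by rw [phiLE_apply, hql]⟩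
      rw [lt_div_iff₀ hp1] at hm
      linarith
    apply measure_mono_null hsub
    rw [measure_iUnion_null_iff]
    intro l
    rw [mu_image (mp_phiLE hk l), hsmall]
  have hall : mu k GG = 0 := by
    have hsub : GG ⊆ (GG ∩ Om) ∪ (MeasurableEquiv.prodComm : (ℝ × ℝ) ≃ᵐ (ℝ × ℝ)) '' (GG ∩ Om) := by
      intro p hp
      rcases le_total p.2 p.1 with h | h
      · left; exact ⟨hp, (h1 p hp).2, h⟩
      · right
        exact ⟨(p.2, p.1), ⟨h2 p hp, (h1 p hp).1, h⟩, rfl⟩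
    apply measure_mono_null hsub
    apply measure_union_null hOm
    rw [mu_image mp_swap, hOm]
  have hac : (volume : Measure (ℝ × ℝ)) ≪ mu k := by
    unfold mu
    apply withDensity_absolutelyContinuous' (measurable_ww k).aemeasurable
    filter_upwards with p
    unfold ww
    rw [Ne, ENNReal.ofReal_eq_zero, not_le]
    exact div_pos one_pos (sD_pos hk p.1 p.2)
  exact hac hall

end

end Pool.Agent.H528.MCG
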