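import Pool.Agent.H528.MCG.Small

set_option autoImplicit false

open MeasureTheory Set

namespace Pool.Agent.H528.MCG

/-- projection to the plane -/
def prj2 (p : C3) : ℝ × ℝ := (p.1.im, p.2.2.im)

theorem prj2_lip : LipschitzWith 1 prj2 := by
  apply LipschitzWith.of_dist_le_mul
  intro p q
  rw [NNReal.coe_one, one_mul]
  have h1 : ∀ a b : ℂ, dist a.im b.im ≤ dist a b := by
    intro a b
    rw [Real.dist_eq, ← Complex.sub_im, dist_eq_norm]
    exact Complex.abs_im_le_norm _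
  simp only [prj2, Prod.dist_eq]
  apply max_le
  · exact le_trans (h1 _ _) (le_max_left _ _)
  · exact le_trans (h1 _ _) (le_trans (le_max_right _ _) (le_max_right _ _))

theorem pos_aux {k : ℝ} {U : Set (ℝ × ℝ)} (hU : IsOpen U) (hne : U.Nonempty) {S : Set C3}
    (h : ∀ u ∈ U, em 1 (iota k u) ∈ S) : Measure.hausdorffMeasure 2 S ≠ 0 := by
  intro h0
  have h1 := prj2_lip.hausdorffMeasure_image_le (d := 2) (by norm_num) S
  rw [h0, mul_zero, hausdorffMeasure_prod_real] at h1
  have h2 : U ⊆ prj2 '' S := by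
    intro u hu
    refine ⟨_, h u hu, ?_⟩
    rw [em1]; simp [prj2, iota]
  have h3 : volume U = 0 := le_antisymm ((measure_mono h2).trans h1) zero_le
  exact (hU.measure_pos volume hne).ne' h3

theorem measurableSet_V (t : ℝ) : MeasurableSet (V t) := by
  apply IsClosed.measurableSet
  have e : V t = (({p : C3 | p.1.re = 0} ∩ {p | p.2.1.im = 0}) ∩ {p | p.2.2.re = 0}) ∩
      {p | kappa p = (t : ℂ)} := by
    ext p
    simp only [V, Comp, Set.mem_ofPred_eq, Set.mem_inter_iff]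
    tauto
  rw [e]
  refine IsClosed.inter (IsClosed.inter (IsClosed.inter ?_ ?_) ?_) ?_
  · exact isClosed_eq (by fun_prop) continuous_const
  · exact isClosed_eq (by fun_prop) continuous_const
  · exact isClosed_eq (by fun_prop) continuous_const
  · exact isClosed_eq (by unfold kappa; fun_prop) continuous_const

/-- values of `zp` on the diagonal -/
theorem zp_diag {k : ℝ} (hk : 2 < k) {z : ℝ} (h1 : 2 < z) (h2 : z < k) :
    ∃ s : ℝ, zp k s s = z := by
  have hpos : 0 < (k^2 - z^2)/(z-2) := by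
    apply div_pos <;> nlinarith
  refine ⟨Real.sqrt ((k^2 - z^2)/(z-2)), ?_⟩
  have hsq : Real.sqrt ((k^2 - z^2)/(z-2))^2 = (k^2 - z^2)/(z-2) := Real.sq_sqrt hpos.le
  have hsq' : Real.sqrt ((k^2 - z^2)/(z-2))^2*(z-2) = k^2 - z^2 := by
    rw [hsq]; field_simp [show z - 2 ≠ 0 by linarith]
  set s := Real.sqrt ((k^2 - z^2)/(z-2)) with hs
  symm
  apply zp_unique hk (by linarith)
  nlinarith

theorem not_ergodic {t k : ℝ} (hk2 : 2 < k) (hk : k^2 = t + 2) {M : Subgroup (MulAut PiT)} :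
    ¬ IsErgodic M (V t) := by
  intro herg
  obtain ⟨c, hc1, hc2⟩ := exists_between hk2
  set S : Set R3 := {q | ∃ γ ∈ Gam, ((γ : Equiv.Perm R3) q).2.2^2 < c^2} with hS
  have hSopen : IsOpen S := by
    have e : S = ⋃ γ ∈ (Gam : Set (Equiv.Perm R3)), {q : R3 | ((γ : Equiv.Perm R3) q).2.2^2 < c^2} := by
      ext q
      rw [Set.mem_iUnion₂]
      constructor
      · rintro ⟨γ, h1, h2⟩; exact ⟨γ, h1, h2⟩
      · rintro ⟨γ, h1, h2⟩; exact ⟨γ, h1, h2⟩
    rw [e]
    apply isOpen_biUnion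
    intro γ hγ
    have hc : Continuous (γ : R3 → R3) := (Gam_contDiff hγ).continuous
    exact isOpen_lt (by fun_prop) continuous_const
  have hcont : Continuous (fun u : ℝ × ℝ => zp k u.1 u.2) :=
    (contDiff_zp hk2 contDiff_fst contDiff_snd).continuous
  have hSK : ∀ u : ℝ × ℝ, iota k u ∈ SK k := by
    intro u
    have := zp_eq hk2 u.1 u.2
    show (zp k u.1 u.2)^2 + u.1*u.2*(zp k u.1 u.2) - u.1^2 - u.2^2 = k^2
    linarith
  have h := herg (em 1 '' (SK k ∩ S)) ?_ ?_ ?_
  · rcases h with h | h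
    · refine pos_aux (k := k) (U := {u | zp k u.1 u.2 < c}) (isOpen_lt hcont continuous_const) ?_ ?_ h
      · obtain ⟨z, hz1, hz2⟩ := exists_between hc1
        obtain ⟨s, hs⟩ := zp_diag hk2 hz1 (hz2.trans hc2)
        exact ⟨(s, s), by show zp k s s < c; rw [hs]; exact hz2⟩
      · intro u hu
        refine ⟨iota k u, ⟨hSK u, 1, one_mem _, ?_⟩, rfl⟩
        have h1 := zp_pos hk2 u.1 u.2
        have h2 : zp k u.1 u.2 < c := hu
        show (zp k u.1 u.2)^2 < c^2
        nlinarith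
    · refine pos_aux (k := k) (U := {u | c < zp k u.1 u.2} ∩ {u | zp k u.1 u.2 < k})
        ((isOpen_lt continuous_const hcont).inter (isOpen_lt hcont continuous_const)) ?_ ?_ h
      · obtain ⟨z, hz1, hz2⟩ := exists_between hc2
        obtain ⟨s, hs⟩ := zp_diag hk2 (hc1.trans hz1) hz2
        exact ⟨(s, s), by show c < zp k s s; rw [hs]; exact hz1,
          by show zp k s s < k; rw [hs]; exact hz2⟩
      · rintro u ⟨hu1, hu2⟩
        have hu1 : c < zp k u.1 u.2 := hu1
        have hu2 : zp k u.1 u.2 < k := hu2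
        have h1 := zp_pos hk2 u.1 u.2
        refine ⟨(mem_V_em hk _).2 (hSK u), ?_⟩
        rintro ⟨q, ⟨_, γ, hγ, hlt⟩, he⟩
        have hq := em_inj 1 he
        subst hq
        have hW : iota k u ∈ WK k := ⟨hSK u, by
          show (zp k u.1 u.2)^2 < k^2
          nlinarith⟩
        rcases wander hk2 hγ with hd | hd
        · rw [WK_D (k := k) hd] at hlt
          have hlt : (zp k u.1 u.2)^2 < c^2 := hlt
          nlinarith
        · have := hd _ hW
          nlinarith
  · rintro _ ⟨q, hq, rfl⟩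
    exact (mem_V_em hk q).2 hq.1
  · have e : em 1 '' (SK k ∩ S) = V t ∩ prj ⁻¹' S := by
      ext p
      constructor
      · rintro ⟨q, hq, rfl⟩
        exact ⟨(mem_V_em hk q).2 hq.1, by rw [Set.mem_preimage, prj_em]; exact hq.2⟩
      · rintro ⟨h1, h2⟩
        rw [V_eq hk] at h1
        obtain ⟨q, hq, rfl⟩ := h1
        rw [Set.mem_preimage, prj_em] at h2
        exact ⟨q, ⟨hq, h2⟩, rfl⟩
    rw [e]
    exact (measurableSet_V t).inter (hSopen.preimage continuous_prj).measurableSet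
  · intro g hg
    obtain ⟨g', e, hp, γ, hγ, hr⟩ := act_real hg
    rw [image_em hr]
    congr 1
    ext q
    constructor
    · rintro ⟨r, ⟨hr1, δ, hδ, hr2⟩, rfl⟩
      refine ⟨(SK_Gam hγ r).2 hr1, δ * γ⁻¹, Gam.mul_mem hδ (Gam.inv_mem hγ), ?_⟩
      rw [Equiv.Perm.mul_apply]
      simpa using hr2
    · rintro ⟨hr1, δ, hδ, hr2⟩
      refine ⟨γ⁻¹ q, ⟨(SK_Gam (Gam.inv_mem hγ) q).2 hr1, δ * γ, Gam.mul_mem hδ hγ, ?_⟩, by simp⟩
      rw [Equiv.Perm.mul_apply]
      simpa using hr2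

end Pool.Agent.H528.MCG
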