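import Pool.Agent.H528.MCG.Group

set_option autoImplicit false

namespace Pool.Agent.H528.MCG

theorem comp_D {k b : ℝ} (hk : 2 < k) (hb : b*b = 1) {d : Equiv.Perm R3} (hd : d ∈ Dg) :
    ∃ c : ℝ, (c = 1 ∨ c = b) ∧ ∀ a p, p ∈ WC k a b → d p ∈ WC k (a*c) b := by
  refine Dg_induction (P := fun d => ∃ c : ℝ, (c = 1 ∨ c = b) ∧ ∀ a p, p ∈ WC k a b →
    d p ∈ WC k (a*c) b) ?_ ?_ ?_ ?_ hd
  · exact ⟨1, Or.inl rfl, fun a p hp => by simpa using hp⟩
  · rintro g ⟨c, hc, h⟩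
    exact ⟨c, hc, fun a p hp => comp_Ix hk (h a p hp)⟩
  · rintro g ⟨c, hc, h⟩
    exact ⟨c, hc, fun a p hp => comp_Iy (h a p hp)⟩
  · rintro g ⟨c, hc, h⟩
    refine ⟨c*b, ?_, fun a p hp => ?_⟩
    · rcases hc with rfl | rfl
      · right; ring
      · left; exact hb
    · have := comp_sw (h a p hp)
      rwa [mul_assoc] at this

theorem WC_sub {k a b : ℝ} : WC k a b ⊆ WK k := fun _ h => h.1

/-- image dichotomy for the components -/
theorem comp_image {k a b : ℝ} (hk : 2 < k) (ha : a*a = 1) (hb : b*b = 1) {g : Equiv.Perm R3}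
    (hg : g ∈ Gam) : g '' WC k a b = WC k a b ∨ Disjoint (g '' WC k a b) (WC k a b) := by
  rcases wander hk hg with hd | hd
  · obtain ⟨c, hc, h⟩ := comp_D hk hb hd
    obtain ⟨c', hc', h'⟩ := comp_D hk hb (Dg.inv_mem hd)
    have hcc : c*c = 1 := by rcases hc with rfl | rfl <;> simp [hb]
    have hcc' : c'*c' = 1 := by rcases hc' with rfl | rfl <;> simp [hb]
    have hc1 : c = 1 ∨ c = -1 := mul_self_eq_one_iff.1 hcc
    have hc1' : c' = 1 ∨ c' = -1 := mul_self_eq_one_iff.1 hcc'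
    rcases hc1 with hc1 | hc1
    · left
      apply Set.Subset.antisymm
      · rintro _ ⟨p, hp, rfl⟩
        have := h a p hp
        rwa [hc1, mul_one] at this
      · intro q hq
        have h1 := h' a q hq
        have h2 := h _ _ h1
        rw [show g (g⁻¹ q) = q by simp] at h2
        have h3 := h2.2.1
        have h4 := hq.2.1
        rcases hc1' with e | e
        · rw [e, mul_one] at h1
          exact ⟨g⁻¹ q, h1, by simp⟩
        · exfalso
          rw [e, hc1] at h3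
          linarith
    · right
      rw [Set.disjoint_left]
      rintro _ ⟨p, hp, rfl⟩ h2
      have h3 := (h a p hp).2.1
      have h4 := h2.2.1
      rw [hc1] at h3
      linarith
  · right
    rw [Set.disjoint_left]
    rintro _ ⟨p, hp, rfl⟩ h2
    have h3 := hd p hp.1
    have h4 := h2.1.2
    linarith

/-- the twist -/
def TT : Equiv.Perm R3 := sw * Ix

theorem TT_apply (p : R3) : TT p = (p.2.1, p.2.1*p.2.2 - p.1, p.2.2) := rfl

theorem TT_mem : TT ∈ Dg := Dg.mul_mem sw_memD Ix_memD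

theorem sw_TT : sw * TT = TT⁻¹ * sw := by
  unfold TT
  rw [mul_inv_rev, sw_inv, Ix_inv, ← mul_assoc, sw_mul, one_mul, mul_assoc, sw_mul, mul_one]

theorem sw_TT_zpow (n : ℤ) : sw * TT^n = TT^(-n) * sw := by
  have h : sw * TT * sw⁻¹ = TT⁻¹ := by rw [sw_TT, mul_assoc, mul_inv_cancel, mul_one]
  have h2 : sw * TT^n * sw⁻¹ = TT^(-n) := by
    rw [← MulAut.conj_apply, map_zpow, MulAut.conj_apply, h, inv_zpow, zpow_neg]
  rw [← h2, mul_assoc, inv_mul_cancel, mul_one]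

theorem Ix_eq : Ix = TT⁻¹ * sw := by
  unfold TT
  rw [mul_inv_rev, sw_inv, Ix_inv, mul_assoc, sw_mul, mul_one]

theorem Iy_eq : Iy = TT * sw := by
  unfold TT
  rw [mul_assoc, ← mul_assoc sw Ix sw, sw_Ix, mul_assoc, sw_mul, mul_one]

theorem D_form {d : Equiv.Perm R3} (hd : d ∈ Dg) :
    ∃ n : ℤ, d = TT^n ∨ d = TT^n * sw := by
  refine Dg_induction (P := fun d => ∃ n : ℤ, d = TT^n ∨ d = TT^n * sw) ?_ ?_ ?_ ?_ hd
  · exact ⟨0, Or.inl (by simp)⟩
  · rintro g ⟨n, h | h⟩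
    · refine ⟨-1-n, Or.inr ?_⟩
      rw [h, Ix_eq, mul_assoc, sw_TT_zpow, ← mul_assoc, ← zpow_neg_one, ← zpow_add]
      congr 2
    · refine ⟨-1-n, Or.inl ?_⟩
      rw [h, Ix_eq, mul_assoc, ← mul_assoc sw, sw_TT_zpow, mul_assoc, sw_mul, mul_one,
        ← zpow_neg_one, ← zpow_add]
      congr 2
  · rintro g ⟨n, h | h⟩
    · refine ⟨1-n, Or.inr ?_⟩
      rw [h, Iy_eq, mul_assoc, sw_TT_zpow, ← mul_assoc]
      nth_rewrite 1 [← zpow_one TT]
      rw [← zpow_add]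
      congr 2
    · refine ⟨1-n, Or.inl ?_⟩
      rw [h, Iy_eq, mul_assoc, ← mul_assoc sw, sw_TT_zpow, mul_assoc, sw_mul, mul_one]
      nth_rewrite 1 [← zpow_one TT]
      rw [← zpow_add]
      congr 2
  · rintro g ⟨n, h | h⟩
    · exact ⟨-n, Or.inr (by rw [h, sw_TT_zpow])⟩
    · exact ⟨-n, Or.inl (by rw [h, ← mul_assoc, sw_TT_zpow, mul_assoc, sw_mul, mul_one])⟩

/-- second differences of `|x_n|` -/
theorem TT_abs {k : ℝ} {p : R3} (hp : p ∈ WK k) :
    |(TT (TT p)).1| + |p.1| = |p.2.2| * |(TT p).1| := by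
  have h1 := WK_pos hp
  have h2 := WK_pos ((WK_mem_D TT_mem).2 hp)
  obtain ⟨x, y, z⟩ := p
  simp only [TT_apply] at *
  -- x_{2} = y z - x, signs agree
  have h3 : 0 ≤ (y*z - x)*x := by
    by_contra hc
    push Not at hc
    have h4 : 0 < (x*y*z)*(y*(y*z-x)*z) := mul_pos h1 h2
    have h5 : (x*y*z)*(y*(y*z-x)*z) = ((y*z-x)*x)*(y*z)^2 := by ring
    rw [h5] at h4
    have := mul_nonpos_of_nonpos_of_nonneg hc.le (sq_nonneg (y*z))
    linarith
  have h6 : |y*z - x| + |x| = |(y*z - x) + x| := by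
    rcases le_total 0 x with hx | hx
    · rcases eq_or_lt_of_le hx with h0 | h0
      · rw [← h0]; simp
      · have : 0 ≤ y*z - x := by
          by_contra hc; push Not at hc; nlinarith
        rw [abs_of_nonneg this, abs_of_nonneg hx, abs_of_nonneg (by linarith)]
    · rcases eq_or_lt_of_le hx with h0 | h0
      · rw [h0]; simp
      · have : y*z - x ≤ 0 := by
          by_contra hc; push Not at hc; nlinarith
        rw [abs_of_nonpos this, abs_of_nonpos hx, abs_of_nonpos (by linarith)]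
        ring
  rw [h6, ← abs_mul]
  congr 1; ring

theorem low {k : ℝ} (hk : 2 < k) {p : R3} (hp : p ∈ WK k) :
    4*(k^2 - p.2.2^2) ≤ (TT p).1^2 * (p.2.2^2 - 4) := by
  obtain ⟨h1, h2⟩ := hp
  obtain ⟨x, y, z⟩ := p
  simp only [SK, Set.mem_ofPred_eq, TT_apply] at *
  -- (x_2 - x)^2 ≥ 0 with x_2 = y z - x
  nlinarith [sq_nonneg (y*z - 2*x)]

theorem WK_pow {k : ℝ} {p : R3} (hp : p ∈ WK k) (n : ℕ) : (TT^n) p ∈ WK k :=
  (WK_mem_D (Dg.pow_mem TT_mem n)).2 hp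

theorem growth {k : ℝ} (hk : 2 < k) {C : Set R3} (hC : IsCompact C) (hCW : C ⊆ WK k) :
    ∃ N : ℕ, ∀ n : ℕ, N ≤ n → ∀ p ∈ C, (TT^n) p ∉ C := by
  rcases C.eq_empty_or_nonempty with rfl | hne
  · exact ⟨0, fun n _ p hp => absurd hp (Set.notMem_empty p)⟩
  -- bounds
  obtain ⟨M, hM⟩ : ∃ M : ℝ, ∀ p ∈ C, |p.1| ≤ M ∧ |p.2.1| ≤ M := by
    obtain ⟨M, hM⟩ := hC.isBounded.exists_norm_le
    refine ⟨M, fun p hp => ⟨?_, ?_⟩⟩
    · exact (norm_fst_le p).trans (hM p hp)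
    · exact ((norm_fst_le p.2).trans (norm_snd_le p)).trans (hM p hp)
  obtain ⟨c0, hc0, hc0'⟩ : ∃ c0 : ℝ, 0 < c0 ∧ ∀ p ∈ C, c0 ≤ k^2 - p.2.2^2 := by
    obtain ⟨p, hp, hmin⟩ := hC.exists_isMinOn hne
      (f := fun p : R3 => k^2 - p.2.2^2) (by fun_prop)
    refine ⟨k^2 - p.2.2^2, ?_, fun q hq => hmin hq⟩
    have := (hCW hp).2
    linarith
  obtain ⟨z1, hz1, hz1'⟩ : ∃ z1 : ℝ, 0 < z1 ∧ ∀ p ∈ C, z1 ≤ |p.2.2| - 2 := by
    obtain ⟨p, hp, hmin⟩ := hC.exists_isMinOn hne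
      (f := fun p : R3 => |p.2.2| - 2) (by fun_prop)
    refine ⟨|p.2.2| - 2, ?_, fun q hq => hmin hq⟩
    have h4 := four_lt hk (hCW hp).1
    have : 2 < |p.2.2| := by
      by_contra hcon
      push Not at hcon
      have : |p.2.2|^2 ≤ 2^2 := pow_le_pow_left₀ (abs_nonneg _) hcon 2
      rw [sq_abs] at this
      linarith
    linarith
  have hM0 : 0 ≤ M := by
    obtain ⟨p, hp⟩ := hne
    exact (abs_nonneg _).trans (hM p hp).1
  set m := Real.sqrt (4*c0/(k^2-4)) with hm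
  have hk4 : 0 < k^2 - 4 := by nlinarith
  have hm0 : 0 < m := Real.sqrt_pos.2 (by positivity)
  set η := z1*m with hη
  have hη0 : 0 < η := mul_pos hz1 hm0
  have key : ∀ p ∈ C, ∀ n : ℕ,
      |((TT^(n+1)) p).1| - |((TT^n) p).1| ≥ |(TT p).1| - |p.1| + n*η ∧
      |((TT^n) p).1| ≥ |p.1| + n*(|(TT p).1| - |p.1|) + η*(n*(n-1)/2) := by
    intro p hp n
    have hstep : ∀ j : ℕ, |((TT^(j+2)) p).1| - 2*|((TT^(j+1)) p).1| + |((TT^j) p).1| ≥ η := by
      intro j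
      have hW := WK_pow (hCW hp) j
      have h1 := TT_abs hW
      have h2 := low hk hW
      have hz : ((TT^j) p).2.2 = p.2.2 := WK_D (k := k) (Dg.pow_mem TT_mem j) p
      have e1 : TT ((TT^j) p) = (TT^(j+1)) p := by
        rw [pow_succ', Equiv.Perm.mul_apply]
      have e2 : TT ((TT^(j+1)) p) = (TT^(j+2)) p := by
        rw [pow_succ' TT (j+1), Equiv.Perm.mul_apply]
      rw [e1, e2, hz] at h1
      rw [e1, hz] at h2
      have h3 := hc0' p hp
      have h4 := hz1' p hp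
      have h5 : m ≤ |((TT^(j+1)) p).1| := by
        apply Real.sqrt_le_iff.2
        refine ⟨abs_nonneg _, ?_⟩
        rw [sq_abs, div_le_iff₀ hk4]
        have h6 : p.2.2^2 < k^2 := (hCW hp).2
        nlinarith [sq_nonneg ((TT^(j+1)) p).1]
      have h7 : |((TT^(j+2)) p).1| - 2*|((TT^(j+1)) p).1| + |((TT^j) p).1|
          = (|p.2.2| - 2)*|((TT^(j+1)) p).1| := by
        have : |((TT^(j+2)) p).1| = |p.2.2| * |((TT^(j+1)) p).1| - |((TT^j) p).1| := by linarith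
        rw [this]; ring
      rw [h7, hη]
      exact mul_le_mul h4 h5 hm0.le (by linarith)
    induction n with
    | zero => simp
    | succ n ih =>
      obtain ⟨i1, i2⟩ := ih
      have h8 := hstep n
      simp only [Nat.cast_add, Nat.cast_one]
      have e3 : n + 1 + 1 = n + 2 := rfl
      rw [e3]
      refine ⟨by linarith, ?_⟩
      nlinarith
  obtain ⟨N, hN⟩ := exists_nat_gt (2 + 4*M/η)
  refine ⟨N, ?_⟩
  intro n hn p hp hcon
  have h1 := (key p hp n).2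
  have h2 := (hM _ hcon).1
  have h3 := (hM p hp).1
  have h4 : (2 + 4*M/η) < n := lt_of_lt_of_le hN (by exact_mod_cast hn)
  have h5 : 4*M < ((n:ℝ) - 2)*η := by
    have : 4*M/η < (n:ℝ) - 2 := by linarith
    rwa [div_lt_iff₀ hη0] at this
  have hn2 : (2:ℝ) < n := by
    have : 0 ≤ 4*M/η := by positivity
    linarith
  have h6 : |(TT p).1| - |p.1| ≥ -M := by linarith [abs_nonneg (TT p).1]
  have h7 : (n:ℝ)*(|(TT p).1| - |p.1|) ≥ n*(-M) := mul_le_mul_of_nonneg_left h6 (by linarith)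
  have h8 : 4*M*n ≤ ((n:ℝ)-2)*η*n := mul_le_mul_of_nonneg_right h5.le (by linarith)
  have h9 : 0 ≤ η*n := by positivity
  have h10 := abs_nonneg p.1
  nlinarith

/-- finiteness of returns -/
theorem finite_returns {k : ℝ} (hk : 2 < k) {C : Set R3} (hC : IsCompact C) (hCW : C ⊆ WK k) :
    {d : Equiv.Perm R3 | d ∈ Dg ∧ (d '' C ∩ C).Nonempty}.Finite := by
  have hswc : Continuous (sw : R3 → R3) := by
    show Continuous fsw
    unfold fsw; fun_prop
  set C' := C ∪ sw '' C with hC'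
  have hC'c : IsCompact C' := hC.union (hC.image hswc)
  have hC'W : C' ⊆ WK k := by
    rintro p (hp | ⟨q, hq, rfl⟩)
    · exact hCW hp
    · exact (WK_mem_D sw_memD).2 (hCW hq)
  obtain ⟨N, hN⟩ := growth hk hC'c hC'W
  have hret : ∀ n : ℤ, (∃ p ∈ C', (TT^n) p ∈ C') → n ∈ Set.Icc (-(N:ℤ)) N := by
    rintro n ⟨p, hp, hp'⟩
    constructor
    · by_contra hcon
      push Not at hcon
      obtain ⟨j, hj⟩ := Int.eq_ofNat_of_zero_le (show 0 ≤ -n by omega)
      have h1 : (TT^j) ((TT^n) p) = p := by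
        have : n = -(j:ℤ) := by omega
        rw [this, zpow_neg, zpow_natCast]; simp
      exact hN j (by omega) _ hp' (by rw [h1]; exact hp)
    · by_contra hcon
      push Not at hcon
      obtain ⟨j, rfl⟩ := Int.eq_ofNat_of_zero_le (show 0 ≤ n by omega)
      rw [zpow_natCast] at hp'
      exact hN j (by omega) _ hp hp'
  have hfin : (((fun n : ℤ => TT^n) '' Set.Icc (-(N:ℤ)) N) ∪
      ((fun n : ℤ => TT^n * sw) '' Set.Icc (-(N:ℤ)) N)).Finite :=
    ((Set.finite_Icc _ _).image _).union ((Set.finite_Icc _ _).image _)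
  apply hfin.subset
  rintro d ⟨hd, q, ⟨p, hp, rfl⟩, hq⟩
  obtain ⟨n, h | h⟩ := D_form hd
  · left
    refine ⟨n, hret n ⟨p, Or.inl hp, Or.inl ?_⟩, h.symm⟩
    rw [← h]; exact hq
  · right
    refine ⟨n, hret n ⟨sw p, Or.inr ⟨p, hp, rfl⟩, Or.inl ?_⟩, h.symm⟩
    rw [h, Equiv.Perm.mul_apply] at hq
    exact hq

end Pool.Agent.H528.MCG
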