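import Pool.Agent.H528.MCG.Descent
import Pool.Agent.H528.MCG.Proper

set_option autoImplicit false

open MeasureTheory Set

namespace Pool.Agent.H528.MCG

/-- sign changes -/
def sc (a b : ℝ) (p : R3) : R3 := (a*p.1, b*p.2.1, a*b*p.2.2)

theorem sc_comm {g : Equiv.Perm R3} (hg : g ∈ Gam) : ∀ a b : ℝ, a*a = 1 → b*b = 1 →
    ∃ a' b' : ℝ, a'*a' = 1 ∧ b'*b' = 1 ∧ ∀ p, g (sc a b p) = sc a' b' (g p) := by
  refine Gam_induction (P := fun g => ∀ a b : ℝ, a*a = 1 → b*b = 1 →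
    ∃ a' b' : ℝ, a'*a' = 1 ∧ b'*b' = 1 ∧ ∀ p, g (sc a b p) = sc a' b' (g p)) ?_ ?_ ?_ ?_ ?_ hg
  · intro a b ha hb
    exact ⟨a, b, ha, hb, fun p => rfl⟩
  · intro g h a b ha hb
    obtain ⟨a', b', ha', hb', h'⟩ := h a b ha hb
    refine ⟨a', b', ha', hb', fun p => ?_⟩
    rw [Equiv.Perm.mul_apply, Equiv.Perm.mul_apply, h']
    simp only [sc, Ix_apply]
    refine Prod.ext ?_ rfl
    simp only
    linear_combination a'*(g p).2.1*(g p).2.2*hb'
  · intro g h a b ha hb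
    obtain ⟨a', b', ha', hb', h'⟩ := h a b ha hb
    refine ⟨a', b', ha', hb', fun p => ?_⟩
    rw [Equiv.Perm.mul_apply, Equiv.Perm.mul_apply, h']
    simp only [sc, Iy_apply]
    refine Prod.ext rfl (Prod.ext ?_ rfl)
    simp only
    linear_combination b'*(g p).1*(g p).2.2*ha'
  · intro g h a b ha hb
    obtain ⟨a', b', ha', hb', h'⟩ := h a b ha hb
    refine ⟨a', b', ha', hb', fun p => ?_⟩
    rw [Equiv.Perm.mul_apply, Equiv.Perm.mul_apply, h']
    simp only [sc, Iz_apply]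
    refine Prod.ext rfl (Prod.ext rfl ?_)
    simp only
    ring
  · intro g h a b ha hb
    obtain ⟨a', b', ha', hb', h'⟩ := h a b ha hb
    refine ⟨b', a', hb', ha', fun p => ?_⟩
    rw [Equiv.Perm.mul_apply, Equiv.Perm.mul_apply, h']
    simp only [sc, sw_apply]
    refine Prod.ext rfl (Prod.ext rfl ?_)
    simp only
    ring

/-- points all of whose special traces are large, with no vanishing coordinate in the orbit -/
def Estar (k : ℝ) : Set R3 := {p | p ∈ SK k ∧ ∀ g ∈ Gam, k^2 ≤ (g p).2.2^2 ∧ (g p).1 ≠ 0 ∧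
  (g p).2.1 ≠ 0}

theorem Estar_Gam {k : ℝ} {p : R3} (hp : p ∈ Estar k) {g : Equiv.Perm R3} (hg : g ∈ Gam) :
    g p ∈ Estar k := by
  refine ⟨(SK_Gam hg p).2 hp.1, fun h hh => ?_⟩
  have := hp.2 (h*g) (Gam.mul_mem hh hg)
  simpa [Equiv.Perm.mul_apply] using this

theorem Estar_sc {k : ℝ} {p : R3} (hp : p ∈ Estar k) {a b : ℝ} (ha : a*a = 1) (hb : b*b = 1) :
    sc a b p ∈ Estar k := by
  refine ⟨?_, fun g hg => ?_⟩
  · have h := hp.1
    simp only [SK, Set.mem_ofPred_eq, sc] at h ⊢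
    rw [← h]
    linear_combination (a*a*b*b*0 + (p.2.2^2*b*b + p.1*p.2.1*p.2.2*b*b - p.1^2))*ha
      + (p.2.2^2 + p.1*p.2.1*p.2.2 - p.2.1^2)*hb
  · obtain ⟨a', b', ha', hb', h'⟩ := sc_comm hg a b ha hb
    rw [h']
    obtain ⟨h1, h2, h3⟩ := hp.2 g hg
    have ha0 : a' ≠ 0 := by rintro rfl; norm_num at ha'
    have hb0 : b' ≠ 0 := by rintro rfl; norm_num at hb'
    refine ⟨?_, mul_ne_zero ha0 h2, mul_ne_zero hb0 h3⟩
    have : (a'*b'*(g p).2.2)^2 = (g p).2.2^2 := by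
      have e : (a'*b'*(g p).2.2)^2 = (a'*a')*(b'*b')*(g p).2.2^2 := by ring
      rw [e, ha', hb']; ring
    show k^2 ≤ (a'*b'*(g p).2.2)^2
    rw [this]; exact h1

/-- the chart -/
noncomputable def iota (k : ℝ) (q : ℝ × ℝ) : R3 := (q.1, q.2, zp k q.1 q.2)

def GGk (k : ℝ) : Set (ℝ × ℝ) := {q | 0 < q.1 ∧ 0 < q.2 ∧ iota k q ∈ Estar k}

section
variable {k : ℝ} (hk : 2 < k)
include hk

theorem GGk_h3 {q : ℝ × ℝ} (hq : q ∈ GGk k) : (|q.1 - q.2*zp k q.1 q.2|, q.2) ∈ GGk k := by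
  obtain ⟨a, b⟩ := q
  obtain ⟨h1, h2, h3⟩ := hq
  simp only at h1 h2
  have hz := zp_eq hk a b
  have hz0 := zp_pos hk a b
  set z := zp k a b with hzd
  have hIx := Estar_Gam h3 Ix_mem
  have hIx' : Ix (iota k (a, b)) = (b*z - a, b, z) := rfl
  rw [hIx'] at hIx
  rcases lt_trichotomy (a - b*z) 0 with h | h | h
  · have e : |a - b*z| = b*z - a := by rw [abs_of_neg h]; ring
    show (|a - b*z|, b) ∈ GGk k
    rw [e]
    refine ⟨by show 0 < b*z - a; linarith, h2, ?_⟩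
    have e2 : zp k (b*z - a) b = z := by
      symm
      apply zp_unique hk hz0
      nlinarith
    show (b*z - a, b, zp k (b*z - a) b) ∈ Estar k
    rw [e2]; exact hIx
  · exfalso
    have := (hIx.2 1 (one_mem _)).2.1
    apply this
    show b*z - a = 0
    linarith
  · show (|a - b*z|, b) ∈ GGk k
    rw [abs_of_pos h]
    refine ⟨h, h2, ?_⟩
    have hpos : 0 < z - (a - b*z)*b := by
      have h5 : z*(z - (a - b*z)*b) = k^2 + (a-b*z)^2 + b^2 := by nlinarith
      have h6 : 0 < k^2 + (a-b*z)^2 + b^2 := by positivity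
      rw [← h5] at h6
      exact (mul_pos_iff_of_pos_left hz0).1 h6
    have e2 : zp k (a - b*z) b = z - (a - b*z)*b := by
      symm
      apply zp_unique hk hpos
      nlinarith
    show (a - b*z, b, zp k (a - b*z) b) ∈ Estar k
    rw [e2]
    have hIz := Estar_sc (Estar_Gam hIx Iz_mem) (a := -1) (b := 1) (by norm_num) (by norm_num)
    have e3 : sc (-1) 1 (Iz (b*z - a, b, z)) = (a - b*z, b, z - (a - b*z)*b) := by
      simp only [sc, Iz_apply]
      refine Prod.ext ?_ (Prod.ext ?_ ?_) <;> simp only <;> ring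
    rw [e3] at hIz
    exact hIz

theorem volume_GGk : volume (GGk k) = 0 := by
  apply null_GG hk
  · intro p hp; exact ⟨hp.1, hp.2.1⟩
  · intro p hp
    refine ⟨hp.2.1, hp.1, ?_⟩
    have := Estar_Gam hp.2.2 sw_mem
    have e : sw (iota k p) = iota k (p.2, p.1) := by
      simp only [iota, sw_apply]
      rw [zp_comm]
    rw [← e]; exact this
  · intro p hp; exact GGk_h3 hk hp
  · intro p hp
    have h := (hp.2.2.2 1 (one_mem _)).1
    have h0 := zp_pos hk p.1 p.2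
    have h' : k^2 ≤ zp k p.1 p.2^2 := h
    by_contra hcon
    push Not at hcon
    nlinarith

/-- every point of `Estar` is seen in the chart -/
theorem Estar_abs {p : R3} (hp : p ∈ Estar k) : (|p.1|, |p.2.1|) ∈ GGk k := by
  have main : ∀ p : R3, p ∈ Estar k → 0 < p.1*p.2.1*p.2.2 → (|p.1|, |p.2.1|) ∈ GGk k := by
    rintro ⟨x, y, z⟩ hp hpos
    simp only at hpos
    obtain ⟨_, hx, hy⟩ := hp.2 1 (one_mem _)
    have hx : x ≠ 0 := hx
    have hy : y ≠ 0 := hy
    obtain ⟨a, ha, hax⟩ : ∃ a : ℝ, a*a = 1 ∧ a*x = |x| := by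
      rcases lt_or_gt_of_ne hx with h | h
      · exact ⟨-1, by norm_num, by rw [abs_of_neg h]; ring⟩
      · exact ⟨1, by norm_num, by rw [abs_of_pos h]; ring⟩
    obtain ⟨b, hb, hby⟩ : ∃ b : ℝ, b*b = 1 ∧ b*y = |y| := by
      rcases lt_or_gt_of_ne hy with h | h
      · exact ⟨-1, by norm_num, by rw [abs_of_neg h]; ring⟩
      · exact ⟨1, by norm_num, by rw [abs_of_pos h]; ring⟩
    have h := Estar_sc hp ha hb
    have hzpos : 0 < a*b*z := by
      have h1 : 0 < (x*y)^2 := by positivity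
      have h2 : (a*b*z)*(|x| * |y|) = (a*a)*(b*b)*(x*y*z) := by rw [← hax, ← hby]; ring
      rw [ha, hb, one_mul, one_mul] at h2
      have h3 : 0 < |x| * |y| := mul_pos (abs_pos.2 hx) (abs_pos.2 hy)
      rw [← h2] at hpos
      exact (mul_pos_iff_of_pos_right h3).1 hpos
    refine ⟨abs_pos.2 hx, abs_pos.2 hy, ?_⟩
    have e : sc a b (x, y, z) = iota k (|x|, |y|) := by
      have h5 := h.1
      simp only [SK, Set.mem_ofPred_eq, sc, hax, hby] at h5
      simp only [sc, iota, hax, hby]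
      refine Prod.ext rfl (Prod.ext rfl ?_)
      apply zp_unique hk hzpos
      nlinarith
    rw [← e]; exact h
  rcases lt_trichotomy (p.1*p.2.1*p.2.2) 0 with h | h | h
  · have h1 := Estar_Gam hp Iz_mem
    have h2 := main _ h1 (by
      simp only [Iz_apply]
      have : p.1*p.2.1*(-(p.1*p.2.1) - p.2.2) = -((p.1*p.2.1)^2) - p.1*p.2.1*p.2.2 := by ring
      -- opposite sign of the roots
      have h3 := hp.1
      simp only [SK, Set.mem_ofPred_eq] at h3
      have h4 : p.2.2*(-(p.1*p.2.1) - p.2.2) = -(k^2 + p.1^2 + p.2.1^2) := by nlinarith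
      have h5 : 0 < k^2 + p.1^2 + p.2.1^2 := by positivity
      have h6 : 0 < (p.1*p.2.1*p.2.2)*(p.2.2*(-(p.1*p.2.1) - p.2.2)) := by
        rw [h4]; exact mul_pos_of_neg_of_neg h (by linarith)
      have h7 : (p.1*p.2.1*p.2.2)*(p.2.2*(-(p.1*p.2.1) - p.2.2))
        = (p.1*p.2.1*(-(p.1*p.2.1) - p.2.2))*p.2.2^2 := by ring
      rw [h7] at h6
      by_contra hc
      push Not at hc
      have := mul_nonpos_of_nonpos_of_nonneg hc (sq_nonneg p.2.2)
      linarith)
    exact h2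
  · exfalso
    obtain ⟨h0, hx, hy⟩ := hp.2 1 (one_mem _)
    have h0 : k^2 ≤ p.2.2^2 := h0
    have hx : p.1 ≠ 0 := hx
    have hy : p.2.1 ≠ 0 := hy
    have hz : p.2.2 ≠ 0 := by
      intro hz; rw [hz] at h0; nlinarith
    exact (mul_ne_zero (mul_ne_zero hx hy) hz) h
  · exact main p hp h

end

end Pool.Agent.H528.MCG
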