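import Pool.Agent.H528.MCG.Struct
import Pool.Agent.H528.MCG.Link

set_option autoImplicit false

open MeasureTheory

namespace Pool.Agent.H528.MCG

theorem kappa_em (r : R3) : kappa (em 1 r) =
    ((r.2.2^2 + r.1*r.2.1*r.2.2 - r.1^2 - r.2.1^2 - 2 : ℝ) : ℂ) := by
  have hI := Complex.I_mul_I
  rw [em1]
  simp only [kappa]
  push_cast
  linear_combination ((r.1 : ℂ)^2 + (r.2.1 : ℂ)^2 - (r.1 : ℂ)*r.2.1*r.2.2) * hI

theorem em_Comp (r : R3) : em 1 r ∈ Comp := by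
  rw [Comp_eq]; exact ⟨r, rfl⟩

theorem mem_V_em {t k : ℝ} (hk : k^2 = t + 2) (r : R3) : em 1 r ∈ V t ↔ r ∈ SK k := by
  have h : em 1 r ∈ V t ↔ kappa (em 1 r) = (t : ℂ) := by
    constructor
    · intro h; exact h.2
    · intro h; exact ⟨em_Comp r, h⟩
  rw [h, kappa_em, Complex.ofReal_inj]
  simp only [SK, Set.mem_ofPred_eq]
  constructor <;> intro h <;> linarith

theorem V_eq {t k : ℝ} (hk : k^2 = t + 2) : V t = em 1 '' SK k := by
  ext p
  constructor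
  · intro hp
    have h1 : p ∈ Comp := hp.1
    rw [Comp_eq] at h1
    obtain ⟨r, rfl⟩ := h1
    exact ⟨r, (mem_V_em hk r).1 hp, rfl⟩
  · rintro ⟨r, hr, rfl⟩
    exact (mem_V_em hk r).2 hr

theorem mem_W_em {t k a b : ℝ} (hk : k^2 = t + 2) (r : R3) : em 1 r ∈ W t a b ↔ r ∈ WC k a b := by
  have e1 : (em 1 r).1.im = r.1 := by rw [em1]; simp
  have e2 : (em 1 r).2.1.re = r.2.2 := by rw [em1]; simp
  simp only [W, WC, WK, Set.mem_ofPred_eq]
  rw [mem_V_em hk, e1, e2, hk]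
  tauto

theorem W_eq {t k a b : ℝ} (hk : k^2 = t + 2) : W t a b = em 1 '' WC k a b := by
  ext p
  constructor
  · intro hp
    have h1 : p ∈ Comp := hp.1.1
    rw [Comp_eq] at h1
    obtain ⟨r, rfl⟩ := h1
    exact ⟨r, (mem_W_em hk r).1 hp, rfl⟩
  · rintro ⟨r, hr, rfl⟩
    exact (mem_W_em hk r).2 hr

theorem image_em {g : C3 → C3} {γ : Equiv.Perm R3} (h : ∀ r, g (em 1 r) = em 1 (γ r))
    (A : Set R3) : g '' (em 1 '' A) = em 1 '' (γ '' A) := by
  ext p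
  constructor
  · rintro ⟨_, ⟨r, hr, rfl⟩, rfl⟩
    exact ⟨γ r, ⟨r, hr, rfl⟩, (h r).symm⟩
  · rintro ⟨_, ⟨r, hr, rfl⟩, rfl⟩
    exact ⟨em 1 r, ⟨r, hr, rfl⟩, h r⟩

/-- projection to the real model -/
def prj (p : C3) : R3 := (p.1.im, p.2.2.im, p.2.1.re)

theorem prj_em (r : R3) : prj (em 1 r) = r := by
  rw [em1]; simp [prj]

theorem continuous_prj : Continuous prj := by
  unfold prj; fun_prop

theorem WC_nonempty {k a b : ℝ} (hk : 2 < k) (ha : a*a = 1) (hb : b*b = 1) :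
    (WC k a b).Nonempty := by
  obtain ⟨z0, hz1, hz2⟩ := exists_between hk
  have hpos : 0 < (k^2 - z0^2)/(z0-2) := by
    apply div_pos <;> nlinarith
  set x0 := Real.sqrt ((k^2 - z0^2)/(z0-2)) with hx0
  have hx0pos : 0 < x0 := Real.sqrt_pos.2 hpos
  have hx0sq : x0^2 = (k^2 - z0^2)/(z0-2) := Real.sq_sqrt hpos.le
  have hx0sq' : x0^2*(z0-2) = k^2 - z0^2 := by
    rw [hx0sq]; field_simp [show z0 - 2 ≠ 0 by linarith]
  refine ⟨(a*x0, a*b*x0, b*z0), ⟨?_, ?_⟩, ?_, ?_⟩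
  · show (b*z0)^2 + (a*x0)*(a*b*x0)*(b*z0) - (a*x0)^2 - (a*b*x0)^2 = k^2
    have e : (b*z0)^2 + (a*x0)*(a*b*x0)*(b*z0) - (a*x0)^2 - (a*b*x0)^2
      = (b*b)*z0^2 + (a*a)*(b*b)*(x0^2*z0) - (a*a)*x0^2 - (a*a)*(b*b)*x0^2 := by ring
    rw [e, ha, hb]; linarith
  · show (b*z0)^2 < k^2
    have e : (b*z0)^2 = (b*b)*z0^2 := by ring
    rw [e, hb]; nlinarith
  · show 0 < a*(a*x0)
    rw [← mul_assoc, ha, one_mul]; exact hx0pos
  · show 0 < b*(b*z0)
    rw [← mul_assoc, hb, one_mul]; linarith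

/-- conditions defining `WC` as an open set -/
def OC (k a b : ℝ) : Set R3 := {p | 0 < a*p.1} ∩ ({p | 0 < b*p.2.2} ∩ {p | p.2.2^2 < k^2})

theorem isOpen_OC (k a b : ℝ) : IsOpen (OC k a b) := by
  refine IsOpen.inter ?_ (IsOpen.inter ?_ ?_)
  · exact isOpen_lt continuous_const (by fun_prop)
  · exact isOpen_lt continuous_const (by fun_prop)
  · exact isOpen_lt (by fun_prop) continuous_const

theorem WC_eq (k a b : ℝ) : WC k a b = SK k ∩ OC k a b := by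
  ext p
  simp only [WC, WK, OC, Set.mem_ofPred_eq, Set.mem_inter_iff]
  tauto

theorem Gam_continuous {g : Equiv.Perm R3} (hg : g ∈ Gam) : Continuous (g : R3 → R3) := by
  refine Gam_induction (P := fun g => Continuous (g : R3 → R3)) ?_ ?_ ?_ ?_ ?_ hg
  · exact continuous_id
  · intro g h
    have : Continuous fIx := by unfold fIx; fun_prop
    exact this.comp h
  · intro g h
    have : Continuous fIy := by unfold fIy; fun_prop
    exact this.comp h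
  · intro g h
    have : Continuous fIz := by unfold fIz; fun_prop
    exact this.comp h
  · intro g h
    have : Continuous fsw := by unfold fsw; fun_prop
    exact this.comp h

theorem perm_image (σ τ : Equiv.Perm R3) (A : Set R3) : (σ * τ : Equiv.Perm R3) '' A =
    (σ : R3 → R3) '' ((τ : R3 → R3) '' A) := by
  rw [Equiv.Perm.coe_mul, Set.image_comp]

/-- the translates of the four pieces are wandering domains -/
theorem wandering {t k a b : ℝ} (hk2 : 2 < k) (hk : k^2 = t + 2) (ha : a*a = 1) (hb : b*b = 1)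
    {M : Subgroup (MulAut PiT)} {σ : Equiv.Perm R3} (hσ : σ ∈ Gam) :
    IsWanderingDomain M t (em 1 '' (σ '' WC k a b)) := by
  refine ⟨?_, ?_, ?_, ?_, ?_⟩
  · rintro _ ⟨_, ⟨r, hr, rfl⟩, rfl⟩
    exact (mem_V_em hk _).2 ((SK_Gam hσ r).2 hr.1.1)
  · exact ((WC_nonempty hk2 ha hb).image _).image _
  · refine ⟨prj ⁻¹' ((σ⁻¹ : Equiv.Perm R3) ⁻¹' OC k a b), ?_, ?_⟩
    · exact ((isOpen_OC k a b).preimage (Gam_continuous (Gam.inv_mem hσ))).preimage continuous_prj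
    · ext p
      constructor
      · rintro ⟨_, ⟨r, hr, rfl⟩, rfl⟩
        refine ⟨?_, (mem_V_em hk _).2 ((SK_Gam hσ r).2 hr.1.1)⟩
        rw [Set.mem_preimage, prj_em, Set.mem_preimage]
        rw [WC_eq] at hr
        simpa using hr.2
      · rintro ⟨h1, h2⟩
        rw [V_eq hk] at h2
        obtain ⟨q, hq, rfl⟩ := h2
        rw [Set.mem_preimage, prj_em, Set.mem_preimage] at h1
        refine ⟨q, ⟨σ⁻¹ q, ?_, by simp⟩, rfl⟩
        rw [WC_eq]
        exact ⟨(SK_Gam (Gam.inv_mem hσ) q).2 hq, h1⟩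
  · intro g hg
    obtain ⟨g', e, hp, γ, hγ, hr⟩ := act_real hg
    rw [image_em hr]
    have h0 : γ * σ = σ * (σ⁻¹ * γ * σ) := by group
    have h1 : (γ : R3 → R3) '' (σ '' WC k a b) = σ '' ((σ⁻¹ * γ * σ : Equiv.Perm R3) '' WC k a b) := by
      rw [← perm_image, ← perm_image, h0]
    rw [h1]
    rcases comp_image hk2 ha hb (Gam.mul_mem (Gam.mul_mem (Gam.inv_mem hσ) hγ) hσ) with h | h
    · left; rw [h]
    · right
      rw [Set.disjoint_image_iff (em_inj 1), Set.disjoint_image_iff σ.injective]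
      exact h
  · intro C hC hCc
    set C' : Set R3 := (σ⁻¹ : Equiv.Perm R3) '' (prj '' C) with hC'
    have hC'c : IsCompact C' :=
      (hCc.image continuous_prj).image (Gam_continuous (Gam.inv_mem hσ))
    have hCem : C = em 1 '' (σ '' C') := by
      ext p
      constructor
      · intro hp
        obtain ⟨_, ⟨r, hr, rfl⟩, rfl⟩ := hC hp
        refine ⟨σ r, ⟨r, ⟨σ r, ⟨em 1 (σ r), hp, prj_em _⟩, by simp⟩, rfl⟩, rfl⟩
      · rintro ⟨_, ⟨_, ⟨_, ⟨q, hq, rfl⟩, rfl⟩, rfl⟩, rfl⟩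
        obtain ⟨_, ⟨r, hr, rfl⟩, rfl⟩ := hC hq
        rw [prj_em]
        simpa using hq
    have hC'W : C' ⊆ WK k := by
      rintro _ ⟨_, ⟨q, hq, rfl⟩, rfl⟩
      obtain ⟨_, ⟨r, hr, rfl⟩, rfl⟩ := hC hq
      rw [prj_em]
      simpa using hr.1
    have hfin := finite_returns hk2 hC'c hC'W
    have hbig : (⋃ γ ∈ {d : Equiv.Perm R3 | d ∈ Dg ∧ (d '' C' ∩ C').Nonempty},
        {g : C3 → C3 | g ∈ act M ∧
          ∀ r, g (em 1 r) = em 1 ((σ * γ * σ⁻¹ : Equiv.Perm R3) r)}).Finite := by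
      apply hfin.biUnion
      intro γ _
      apply Set.Subsingleton.finite
      rintro g ⟨hg, hgr⟩ h ⟨hh, hhr⟩
      obtain ⟨g', e, hp, _⟩ := act_real hg
      obtain ⟨h', e', hp', _⟩ := act_real hh
      rw [← e, ← e']
      congr 1
      apply Poly_ext hp hp'
      intro r
      rw [e, e', hgr, hhr]
    apply hbig.subset
    rintro g ⟨hg, hgW, hgC⟩
    obtain ⟨g', e, hp, γ, hγ, hr⟩ := act_real hg
    rw [Set.mem_iUnion₂]
    have h0 : γ * σ = σ * (σ⁻¹ * γ * σ) := by group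
    have hmem : σ⁻¹ * γ * σ ∈ Gam := Gam.mul_mem (Gam.mul_mem (Gam.inv_mem hσ) hγ) hσ
    refine ⟨σ⁻¹ * γ * σ, ⟨?_, ?_⟩, hg, ?_⟩
    · rcases wander hk2 hmem with h | h
      · exact h
      · exfalso
        obtain ⟨q, hq⟩ := WC_nonempty hk2 ha hb
        rw [image_em hr] at hgW
        have h1 : em 1 (γ (σ q)) ∈ em 1 '' (σ '' WC k a b) := by
          rw [← hgW]
          exact ⟨_, ⟨_, ⟨q, hq, rfl⟩, rfl⟩, rfl⟩
        obtain ⟨_, ⟨q', hq', rfl⟩, h2⟩ := h1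
        have h2 := em_inj 1 h2
        have h3 := h q hq.1
        have h4 : (σ⁻¹ * γ * σ : Equiv.Perm R3) q = q' := by
          rw [Equiv.Perm.mul_apply, Equiv.Perm.mul_apply, ← h2]; simp
        rw [h4] at h3
        have h5 := hq'.1.2
        linarith
    · have h1 : (γ : R3 → R3) '' (σ '' C') = σ '' ((σ⁻¹ * γ * σ : Equiv.Perm R3) '' C') := by
        rw [← perm_image γ σ C', ← perm_image σ (σ⁻¹ * γ * σ) C', h0]
      rw [hCem, image_em hr, ← Set.image_inter (em_inj 1), h1,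
        ← Set.image_inter σ.injective] at hgC
      exact hgC.of_image.of_image
    · intro r
      rw [hr]
      congr 1
      have : σ * (σ⁻¹ * γ * σ) * σ⁻¹ = γ := by group
      rw [this]

/-- the moves realised by orientation preserving classes -/
def Rl (γ : Equiv.Perm R3) : Prop := ∃ φ ∈ ModPlus, ∃ g : Equiv.Perm C3, Ind φ g ∧
  ∀ r, g (em 1 r) = em 1 (γ r)

theorem Rl_one : Rl 1 := ⟨1, one_mem _, 1, fun ρ => rfl, fun r => rfl⟩

theorem Rl_mul {γ δ : Equiv.Perm R3} (h1 : Rl γ) (h2 : Rl δ) : Rl (γ * δ) := by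
  obtain ⟨φ, hφ, g, hg, hr⟩ := h1
  obtain ⟨φ', hφ', g', hg', hr'⟩ := h2
  refine ⟨φ' * φ, ModPlus.mul_mem hφ' hφ, g * g', ind_mul hg' hg, fun r => ?_⟩
  rw [Equiv.Perm.mul_apply, hr', hr]; rfl

theorem Rl_inv {γ : Equiv.Perm R3} (h1 : Rl γ) : Rl γ⁻¹ := by
  obtain ⟨φ, hφ, g, hg, hr⟩ := h1
  refine ⟨φ⁻¹, ModPlus.inv_mem hφ, g⁻¹, ind_inv hg, fun r => ?_⟩
  rw [Equiv.Perm.inv_eq_iff_eq, hr]
  simp

theorem twX_mem : twX ∈ ModPlus := Subgroup.subset_closure (by simp)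
theorem twY_mem : twY ∈ ModPlus := Subgroup.subset_closure (by simp)

theorem Rl_TT : Rl TT := by
  refine ⟨twY, twY_mem, pY, ind_Y, fun r => ?_⟩
  simp only [em1, pY, Equiv.coe_fn_mk, TT_apply]
  refine Prod.ext rfl (Prod.ext rfl ?_)
  push_cast; ring

theorem Rl_BB : Rl (Iy * Iz) := by
  refine ⟨twX * twX, ModPlus.mul_mem twX_mem twX_mem, pX * pX, ind_mul ind_X ind_X, fun r => ?_⟩
  have hI := Complex.I_mul_I
  rw [Equiv.Perm.mul_apply, Equiv.Perm.mul_apply]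
  have e1 : pX (em 1 r) = em 2 (Iz r) := by
    simp only [em1, em2, pX, Equiv.coe_fn_mk, Iz_apply]
    refine Prod.ext rfl (Prod.ext rfl ?_)
    push_cast
    linear_combination (r.1 : ℂ) * r.2.1 * hI
  have e2 : ∀ r : R3, pX (em 2 r) = em 1 (Iy r) := by
    intro r
    simp only [em1, em2, pX, Equiv.coe_fn_mk, Iy_apply]
    refine Prod.ext rfl (Prod.ext rfl ?_)
    push_cast; ring
  rw [e1, e2]

theorem Rl_all {γ : Equiv.Perm R3} (hγ : γ ∈ Gam) : Rl γ ∨ Rl (sw * γ) := by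
  have eIx : sw * Ix = TT := rfl
  have eIx' : Ix * sw = TT⁻¹ := by
    rw [Ix_eq, mul_assoc, sw_mul, mul_one]
  have eIy : sw * Iy = TT⁻¹ := by
    rw [Iy_eq, ← mul_assoc, sw_TT, mul_assoc, sw_mul, mul_one]
  have eIy' : Iy * sw = TT := by
    rw [Iy_eq, mul_assoc, sw_mul, mul_one]
  have eIz : sw * Iz = TT⁻¹ * (Iy * Iz) := by
    rw [← mul_assoc, ← eIy, mul_assoc sw Iy Iy, Iy_mul, mul_one]
  have eIz' : Iz * sw = TT⁻¹ * (Iy * Iz) := by
    rw [← sw_Iz, eIz]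
  refine Gam_induction (P := fun γ => Rl γ ∨ Rl (sw * γ)) (Or.inl Rl_one) ?_ ?_ ?_ ?_ hγ
  · rintro g (h | h)
    · right
      rw [← mul_assoc, eIx]; exact Rl_mul Rl_TT h
    · left
      have e : Ix * g = TT⁻¹ * (sw * g) := by
        rw [← eIx', mul_assoc, ← mul_assoc sw sw g, sw_mul, one_mul]
      rw [e]; exact Rl_mul (Rl_inv Rl_TT) h
  · rintro g (h | h)
    · right
      rw [← mul_assoc, eIy]; exact Rl_mul (Rl_inv Rl_TT) h
    · left
      have e : Iy * g = TT * (sw * g) := by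
        rw [← eIy', mul_assoc, ← mul_assoc sw sw g, sw_mul, one_mul]
      rw [e]; exact Rl_mul Rl_TT h
  · rintro g (h | h)
    · right
      rw [← mul_assoc, eIz]; exact Rl_mul (Rl_mul (Rl_inv Rl_TT) Rl_BB) h
    · left
      have e : Iz * g = (TT⁻¹ * (Iy * Iz)) * (sw * g) := by
        rw [← eIz', mul_assoc, ← mul_assoc sw sw g, sw_mul, one_mul]
      rw [e]; exact Rl_mul (Rl_mul (Rl_inv Rl_TT) Rl_BB) h
  · rintro g (h | h)
    · right
      rw [← mul_assoc, sw_mul, one_mul]; exact h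
    · left; exact h

theorem act_of_Rl {γ : Equiv.Perm R3} (h : Rl γ) {M : Subgroup (MulAut PiT)} (hM : ModPlus ≤ M) :
    ∃ g ∈ act M, ∀ r, g (em 1 r) = em 1 (γ r) := by
  obtain ⟨φ, hφ, g, hg, hr⟩ := h
  refine ⟨g, ⟨⟨φ, hM hφ, hg⟩, ?_⟩, hr⟩
  rw [Comp_eq, ← Set.image_univ, image_em hr, Set.image_univ, γ.range_eq_univ]

theorem signs {k : ℝ} {p : R3} (hp : p ∈ WK k) :
    ∃ a b : ℝ, (a = 1 ∨ a = -1) ∧ (b = 1 ∨ b = -1) ∧ p ∈ WC k a b := by
  have h1 := WK_pos hp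
  have hx : p.1 ≠ 0 := by
    intro h; rw [h] at h1; simp at h1
  have hz : p.2.2 ≠ 0 := by
    intro h; rw [h] at h1; simp at h1
  obtain ⟨a, ha, hax⟩ : ∃ a : ℝ, (a = 1 ∨ a = -1) ∧ 0 < a*p.1 := by
    rcases lt_or_gt_of_ne hx with h | h
    · exact ⟨-1, Or.inr rfl, by linarith⟩
    · exact ⟨1, Or.inl rfl, by linarith⟩
  obtain ⟨b, hb, hbz⟩ : ∃ b : ℝ, (b = 1 ∨ b = -1) ∧ 0 < b*p.2.2 := by
    rcases lt_or_gt_of_ne hz with h | h
    · exact ⟨-1, Or.inr rfl, by linarith⟩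
    · exact ⟨1, Or.inl rfl, by linarith⟩
  exact ⟨a, b, ha, hb, hp, hax, hbz⟩

/-- description of the translates in the real model -/
theorem Translates_form {t k : ℝ} (hk : k^2 = t + 2) {M : Subgroup (MulAut PiT)}
    {U : Set C3} (hU : U ∈ Translates M t) :
    ∃ σ ∈ Gam, ∃ a b : ℝ, (a = 1 ∨ a = -1) ∧ (b = 1 ∨ b = -1) ∧ U = em 1 '' (σ '' WC k a b) := by
  obtain ⟨g, hg, a, b, ha, hb, rfl⟩ := hU
  obtain ⟨g', e, hp, γ, hγ, hr⟩ := act_real hg
  exact ⟨γ, hγ, a, b, ha, hb, by rw [W_eq hk, image_em hr]⟩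

theorem sq_of_sign {a : ℝ} (ha : a = 1 ∨ a = -1) : a*a = 1 := by
  rcases ha with rfl | rfl <;> norm_num

theorem Translates_wandering {t k : ℝ} (hk2 : 2 < k) (hk : k^2 = t + 2)
    {M : Subgroup (MulAut PiT)} {U : Set C3} (hU : U ∈ Translates M t) :
    IsWanderingDomain M t U := by
  obtain ⟨σ, hσ, a, b, ha, hb, rfl⟩ := Translates_form hk hU
  exact wandering hk2 hk (sq_of_sign ha) (sq_of_sign hb) hσ

/-- an element of `Dg` maps a component onto a component -/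
theorem comp_D_image {k a b : ℝ} (hk : 2 < k) (ha : a = 1 ∨ a = -1) (hb : b = 1 ∨ b = -1)
    {d : Equiv.Perm R3} (hd : d ∈ Dg) :
    ∃ c : ℝ, (c = 1 ∨ c = -1) ∧ d '' WC k a b = WC k c b := by
  have hb2 := sq_of_sign hb
  obtain ⟨c, hc, h⟩ := comp_D hk hb2 hd
  obtain ⟨c', hc', h'⟩ := comp_D hk hb2 (Dg.inv_mem hd)
  have hc1 : c = 1 ∨ c = -1 := by
    rcases hc with hc | hc
    · exact Or.inl hc
    · rw [hc]; exact hb
  have hc1' : c' = 1 ∨ c' = -1 := by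
    rcases hc' with hc | hc
    · exact Or.inl hc
    · rw [hc]; exact hb
  refine ⟨a*c, ?_, ?_⟩
  · rcases ha with rfl | rfl <;> rcases hc1 with rfl | rfl <;> norm_num
  · have hcc : a*c*c' = a := by
      obtain ⟨q, hq⟩ := WC_nonempty hk (sq_of_sign ha) hb2
      have h1 := h' _ _ (h a q hq)
      rw [show d⁻¹ (d q) = q by simp] at h1
      have h2 := h1.2.1
      have h3 := hq.2.1
      rcases ha with rfl | rfl <;> rcases hc1 with rfl | rfl <;> rcases hc1' with rfl | rfl <;>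
        first
        | (exfalso; linarith)
        | (norm_num; done)
    apply Set.Subset.antisymm
    · rintro _ ⟨p, hp, rfl⟩
      exact h a p hp
    · intro q hq
      have h1 := h' _ _ hq
      rw [hcc] at h1
      exact ⟨d⁻¹ q, h1, by simp⟩

theorem WC_disjoint {k a b c d : ℝ} (ha : a = 1 ∨ a = -1) (hb : b = 1 ∨ b = -1)
    (hc : c = 1 ∨ c = -1) (hd : d = 1 ∨ d = -1) {p : R3} (h1 : p ∈ WC k a b)
    (h2 : p ∈ WC k c d) : a = c ∧ b = d := by
  have h3 := h1.2.1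
  have h4 := h2.2.1
  have h5 := h1.2.2
  have h6 := h2.2.2
  constructor
  · rcases ha with rfl | rfl <;> rcases hc with rfl | rfl <;> first | rfl | (exfalso; linarith)
  · rcases hb with rfl | rfl <;> rcases hd with rfl | rfl <;> first | rfl | (exfalso; linarith)

theorem Translates_disjoint {t k : ℝ} (hk2 : 2 < k) (hk : k^2 = t + 2)
    {M : Subgroup (MulAut PiT)} : (Translates M t).PairwiseDisjoint id := by
  intro U hU U' hU' hne
  obtain ⟨σ, hσ, a, b, ha, hb, rfl⟩ := Translates_form hk hU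
  obtain ⟨τ, hτ, c, d, hc, hd, rfl⟩ := Translates_form hk hU'
  show Disjoint (em 1 '' (σ '' WC k a b)) (em 1 '' (τ '' WC k c d))
  rw [Set.disjoint_image_iff (em_inj 1), Set.disjoint_left]
  rintro _ ⟨p, hp, rfl⟩ ⟨q, hq, hpq⟩
  apply hne
  have hmem : τ⁻¹ * σ ∈ Gam := Gam.mul_mem (Gam.inv_mem hτ) hσ
  have hp' : (τ⁻¹ * σ : Equiv.Perm R3) p = q := by
    rw [Equiv.Perm.mul_apply, ← hpq]; simp
  have hD : τ⁻¹ * σ ∈ Dg := by
    rcases wander hk2 hmem with h | h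
    · exact h
    · exfalso
      have h3 := h p hp.1
      rw [hp'] at h3
      have h5 := hq.1.2
      linarith
  obtain ⟨e, he, heq⟩ := comp_D_image hk2 ha hb hD
  have h6 : q ∈ WC k e b := by
    rw [← heq, ← hp']; exact ⟨p, hp, rfl⟩
  obtain ⟨rfl, rfl⟩ := WC_disjoint he hb hc hd h6 hq
  congr 1
  rw [← heq, ← perm_image]
  congr 2
  group

/-- the union of the translates contains every point whose orbit meets `WK` -/
theorem mem_translates {t k : ℝ} (hk2 : 2 < k) (hk : k^2 = t + 2) {M : Subgroup (MulAut PiT)}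
    (hM : ModPlus ≤ M) {q : R3} {γ : Equiv.Perm R3} (hγ : γ ∈ Gam) (hq : γ q ∈ WK k) :
    em 1 q ∈ ⋃₀ Translates M t := by
  obtain ⟨δ, hδ, hδq⟩ : ∃ δ : Equiv.Perm R3, Rl δ ∧ δ q ∈ WK k := by
    rcases Rl_all hγ with h | h
    · exact ⟨γ, h, hq⟩
    · refine ⟨sw * γ, h, ?_⟩
      rw [Equiv.Perm.mul_apply]
      exact (WK_mem_D sw_memD).2 hq
  obtain ⟨a, b, ha, hb, hab⟩ := signs hδq
  obtain ⟨g, hg, hgr⟩ := act_of_Rl (Rl_inv hδ) hM
  refine ⟨g '' W t a b, ⟨g, hg, a, b, ha, hb, rfl⟩, em 1 (δ q), (mem_W_em hk _).2 hab, ?_⟩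
  rw [hgr]; simp

end Pool.Agent.H528.MCG
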