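import Pool.Agent.H528.MCG.Words

set_option autoImplicit false

open MeasureTheory Set

namespace Pool.Agent.H528.MCG

/-- density -/
noncomputable def ww (k : ℝ) (p : ℝ × ℝ) : ENNReal := ENNReal.ofReal (1/sD k p.1 p.2)

/-- the invariant measure in the coordinates `(t,u)` -/
noncomputable def mu (k : ℝ) : Measure (ℝ × ℝ) := (volume : Measure (ℝ × ℝ)).withDensity (ww k)

theorem continuous_Dd (k : ℝ) : Continuous (fun p : ℝ × ℝ => Dd k p.1 p.2) := by
  unfold Dd; fun_prop

theorem continuous_sD (k : ℝ) : Continuous (fun p : ℝ × ℝ => sD k p.1 p.2) :=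
  Real.continuous_sqrt.comp (continuous_Dd k)

theorem continuous_F (k : ℝ) : Continuous (fun p : ℝ × ℝ => F k p.1 p.2) := by
  have := continuous_sD k
  unfold F; fun_prop

theorem continuous_G (k : ℝ) : Continuous (fun p : ℝ × ℝ => G k p.1 p.2) := by
  have := continuous_sD k
  unfold G; fun_prop

theorem measurable_ww (k : ℝ) : Measurable (ww k) := by
  unfold ww
  have := (continuous_sD k).measurable
  fun_prop

section
variable {k : ℝ} (hk : 2 < k)
include hk

theorem hasDerivAt_F (t u : ℝ) : HasDerivAt (F k t) (sD k t (F k t u) / sD k t u) u := by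
  have hD := Dd_pos hk t u
  have h0 := sD_pos hk t u
  have h1 : HasDerivAt (fun u => Dd k t u) (t^2*(2*u) + 4*(2*u)) u := by
    unfold Dd
    have e1 : HasDerivAt (fun u : ℝ => u^2) (2*u) u := by
      simpa using hasDerivAt_pow 2 u
    have e2 := ((e1.const_mul (t^2)).add_const (4*t^2)).add (e1.const_mul 4)
    exact e2.add_const (4*k^2)
  have h2 : HasDerivAt (fun u => sD k t u) ((t^2*(2*u) + 4*(2*u))/(2*sD k t u)) u := by
    have := h1.sqrt hD.ne'
    exact this
  have h3 : HasDerivAt (fun u => F k t u)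
      (1 + t^2/2 + t*((t^2*(2*u) + 4*(2*u))/(2*sD k t u))/2) u := by
    unfold F
    have e1 : HasDerivAt (fun u : ℝ => u + t^2*u/2) (1 + t^2/2) u := by
      have := (hasDerivAt_id u).add (((hasDerivAt_id u).const_mul (t^2)).div_const 2)
      exact this.congr_deriv (by ring)
    have e2 := ((h2.const_mul t).div_const 2)
    exact e1.add e2
  refine h3.congr_deriv ?_
  rw [sD_F hk]
  field_simp

theorem F_surj (t : ℝ) : Function.Surjective (F k t) := fun v => ⟨G k t v, F_G hk t v⟩

theorem oneD (t : ℝ) (g : ℝ → ENNReal) :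
    ∫⁻ v, g v * ww k (t, v) = ∫⁻ u, g (F k t u) * ww k (t, u) := by
  have h := lintegral_image_eq_lintegral_abs_deriv_mul (s := (univ : Set ℝ)) (f := F k t)
    (f' := fun u => sD k t (F k t u) / sD k t u) MeasurableSet.univ
    (fun u _ => (hasDerivAt_F hk t u).hasDerivWithinAt) ((F_inj hk t).injOn)
    (fun v => g v * ww k (t, v))
  rw [image_univ, (F_surj hk t).range_eq, setLIntegral_univ, setLIntegral_univ] at h
  rw [h]
  apply lintegral_congr
  intro u
  have h0 := sD_pos hk t u
  have h1 := sD_pos hk t (F k t u)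
  have e : ENNReal.ofReal |sD k t (F k t u) / sD k t u| * ww k (t, F k t u) = ww k (t, u) := by
    unfold ww
    simp only
    rw [abs_of_pos (div_pos h1 h0), ← ENNReal.ofReal_mul (div_pos h1 h0).le]
    congr 1
    field_simp
  rw [← e]; ring

/-- the slide as a measurable equivalence -/
noncomputable def slideE : (ℝ × ℝ) ≃ᵐ (ℝ × ℝ) where
  toFun p := (p.1, F k p.1 p.2)
  invFun p := (p.1, G k p.1 p.2)
  left_inv p := by simp [G_F hk]
  right_inv p := by simp [F_G hk]
  measurable_toFun := by
    have := (continuous_F k).measurable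
    exact measurable_fst.prodMk this
  measurable_invFun := by
    have := (continuous_G k).measurable
    exact measurable_fst.prodMk this

theorem mp_slide : MeasurePreserving (slideE hk) (mu k) (mu k) := by
  refine ⟨(slideE hk).measurable, ?_⟩
  ext B hB
  rw [Measure.map_apply (slideE hk).measurable hB]
  unfold mu
  rw [withDensity_apply _ ((slideE hk).measurable hB), withDensity_apply _ hB,
    ← lintegral_indicator ((slideE hk).measurable hB), ← lintegral_indicator hB]
  have hm1 : Measurable ((slideE hk ⁻¹' B).indicator (ww k)) :=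
    (measurable_ww k).indicator ((slideE hk).measurable hB)
  have hm2 : Measurable (B.indicator (ww k)) := (measurable_ww k).indicator hB
  rw [Measure.volume_eq_prod, lintegral_prod _ hm1.aemeasurable, lintegral_prod _ hm2.aemeasurable]
  apply lintegral_congr
  intro t
  have h := oneD hk t (fun v => B.indicator 1 (t, v))
  have e1 : ∀ v, B.indicator (ww k) (t, v) = B.indicator 1 (t, v) * ww k (t, v) := by
    intro v
    by_cases hv : (t, v) ∈ B
    · simp [hv]
    · simp [hv]
  have e2 : ∀ u, (slideE hk ⁻¹' B).indicator (ww k) (t, u)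
      = B.indicator 1 (t, F k t u) * ww k (t, u) := by
    intro u
    by_cases hv : (t, F k t u) ∈ B
    · have : (t, u) ∈ slideE hk ⁻¹' B := hv
      simp [hv, this]
    · have : (t, u) ∉ slideE hk ⁻¹' B := hv
      simp [hv, this]
  simp_rw [e1, e2]
  exact h.symm

omit hk in
theorem mp_density {e : ℝ × ℝ → ℝ × ℝ} (he : MeasurePreserving e volume volume)
    (hw : ∀ p, ww k (e p) = ww k p) : MeasurePreserving e (mu k) (mu k) := by
  refine ⟨he.measurable, ?_⟩
  ext B hB
  rw [Measure.map_apply he.measurable hB]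
  unfold mu
  rw [withDensity_apply _ (he.measurable hB), withDensity_apply _ hB]
  have h := he.setLIntegral_comp_preimage hB (measurable_ww k)
  simp_rw [hw] at h
  exact h

omit hk in
theorem mp_swap : MeasurePreserving (MeasurableEquiv.prodComm : (ℝ × ℝ) ≃ᵐ (ℝ × ℝ)) (mu k) (mu k) := by
  apply mp_density
  · exact Measure.measurePreserving_swap
  · rintro ⟨t, u⟩
    show ENNReal.ofReal (1/sD k u t) = ENNReal.ofReal (1/sD k t u)
    rw [sD_comm]

/-- sign change on the second coordinate -/
def sgE (b : Bool) : (ℝ × ℝ) ≃ᵐ (ℝ × ℝ) :=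
  (MeasurableEquiv.refl ℝ).prodCongr (if b then MeasurableEquiv.refl ℝ else MeasurableEquiv.neg ℝ)

omit hk in
theorem sgE_apply (b : Bool) (p : ℝ × ℝ) : sgE b p = (p.1, sg b p.2) := by
  cases b <;> rfl

omit hk in
theorem mp_sg (b : Bool) : MeasurePreserving (sgE b) (mu k) (mu k) := by
  apply mp_density
  · cases b
    · exact (MeasurePreserving.id volume).prod (Measure.measurePreserving_neg volume)
    · exact (MeasurePreserving.id volume).prod (MeasurePreserving.id volume)
  · rintro ⟨t, u⟩
    rw [sgE_apply]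
    cases b
    · show ENNReal.ofReal (1/sD k t (-u)) = _
      rw [sD_neg]; rfl
    · rfl

/-- iterated slide -/
noncomputable def slideN : ℕ → ((ℝ × ℝ) ≃ᵐ (ℝ × ℝ))
  | 0 => MeasurableEquiv.refl _
  | n+1 => (slideN n).trans (slideE hk)

theorem slideN_apply (n : ℕ) (p : ℝ × ℝ) : slideN hk n p = (p.1, (F k p.1)^[n] p.2) := by
  induction n with
  | zero => rfl
  | succ n ih =>
    show slideE hk (slideN hk n p) = _
    rw [ih, Function.iterate_succ_apply']; rfl

theorem mp_slideN (n : ℕ) : MeasurePreserving (slideN hk n) (mu k) (mu k) := by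
  induction n with
  | zero => exact MeasurePreserving.id _
  | succ n ih => exact ih.trans (mp_slide hk)

/-- branch maps as measurable equivalences -/
noncomputable def phiE (a : ℕ × Bool) : (ℝ × ℝ) ≃ᵐ (ℝ × ℝ) :=
  ((sgE a.2).trans (slideN hk (a.1+1))).trans MeasurableEquiv.prodComm

theorem phiE_apply (a : ℕ × Bool) (p : ℝ × ℝ) : phiE hk a p = phi k a p := by
  show MeasurableEquiv.prodComm (slideN hk (a.1+1) (sgE a.2 p)) = _
  rw [sgE_apply, slideN_apply]; rfl

theorem mp_phiE (a : ℕ × Bool) : MeasurePreserving (phiE hk a) (mu k) (mu k) :=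
  ((mp_sg a.2).trans (mp_slideN hk (a.1+1))).trans mp_swap

noncomputable def phiLE : List (ℕ × Bool) → ((ℝ × ℝ) ≃ᵐ (ℝ × ℝ))
  | [] => MeasurableEquiv.refl _
  | a :: l => (phiLE l).trans (phiE hk a)

theorem phiLE_apply (l : List (ℕ × Bool)) (p : ℝ × ℝ) : phiLE hk l p = phiL k l p := by
  induction l with
  | nil => rfl
  | cons a l ih =>
    show phiE hk a (phiLE hk l p) = _
    rw [ih, phiE_apply]; rfl

theorem mp_phiLE (l : List (ℕ × Bool)) : MeasurePreserving (phiLE hk l) (mu k) (mu k) := by
  induction l with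
  | nil => exact MeasurePreserving.id _
  | cons a l ih => exact ih.trans (mp_phiE hk a)

omit hk in
theorem mu_image {e : (ℝ × ℝ) ≃ᵐ (ℝ × ℝ)} (h : MeasurePreserving e (mu k) (mu k))
    (A : Set (ℝ × ℝ)) : mu k (e '' A) = mu k A := by
  rw [MeasurableEquiv.image_eq_preimage_symm]
  exact (MeasurePreserving.symm e h).measure_preimage_equiv A

end

end Pool.Agent.H528.MCG
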