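import Pool.Agent.H528.MCG.Meas

set_option autoImplicit false

open MeasureTheory Set

namespace Pool.Agent.H528.MCG

section
variable {k : ℝ} (hk : 2 < k)
include hk

omit hk in
theorem measurableSet_Om : MeasurableSet Om := by
  unfold Om
  exact (measurableSet_lt measurable_const measurable_snd).inter
    (measurableSet_le measurable_snd measurable_fst)

omit hk in
theorem measurableSet_Kill : MeasurableSet (Kill k) := by
  unfold Kill
  exact (measurableSet_lt measurable_const measurable_snd).inter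
    ((measurableSet_lt (measurable_const.mul measurable_fst) measurable_snd).inter
    (measurableSet_le measurable_snd measurable_fst))

/-- survivors reaching level `< d` -/
def SS (k d : ℝ) (l : List (ℕ × Bool)) (a : ℕ × Bool) : Set (ℝ × ℝ) :=
  {q | q ∈ Surv k ∧ (phiL k l (phi k a q)).1 < d}

def KK (k d : ℝ) (l : List (ℕ × Bool)) (n : ℕ) : Set (ℝ × ℝ) :=
  {q | q ∈ Kill k ∧ (phiL k l (phi k (n, true) q)).1 < d}

theorem measurableSet_KK (d : ℝ) (l : List (ℕ × Bool)) (n : ℕ) : MeasurableSet (KK k d l n) := by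
  have h : Measurable (fun q => (phiL k l (phi k (n, true) q)).1) := by
    have e : (fun q => (phiL k l (phi k (n, true) q)).1)
        = fun q => (phiLE hk l (phiE hk (n, true) q)).1 := by
      funext q; rw [phiE_apply, phiLE_apply]
    rw [e]
    exact measurable_fst.comp ((phiLE hk l).measurable.comp (phiE hk (n, true)).measurable)
  exact measurableSet_Kill.inter (measurableSet_lt h measurable_const)

theorem mu_le (A : Set (ℝ × ℝ)) : mu k A ≤ ENNReal.ofReal (1/(2*k)) * volume A := by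
  have h : mu k ≤ (ENNReal.ofReal (1/(2*k))) • (volume : Measure (ℝ × ℝ)) := by
    unfold mu
    rw [← withDensity_const]
    apply withDensity_mono
    filter_upwards with p
    unfold ww
    apply ENNReal.ofReal_le_ofReal
    apply one_div_le_one_div_of_le (by linarith)
    exact sD_ge hk p.1 p.2
  exact h A

theorem vol_le {A : Set (ℝ × ℝ)} (hA : MeasurableSet A)
    (h1 : ∀ p ∈ A, |p.1| ≤ 1 ∧ |p.2| ≤ 1) :
    volume A ≤ ENNReal.ofReal (3 + 2*k) * mu k A := by
  unfold mu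
  rw [withDensity_apply _ hA, ← lintegral_const_mul _ (measurable_ww k)]
  have : volume A = ∫⁻ _ in A, 1 := by simp
  rw [this]
  apply setLIntegral_mono' hA
  intro p hp
  obtain ⟨h2, h3⟩ := h1 p hp
  unfold ww
  rw [← ENNReal.ofReal_mul (by linarith), ← ENNReal.ofReal_one]
  apply ENNReal.ofReal_le_ofReal
  have h4 := sD_pos hk p.1 p.2
  have h5 : sD k p.1 p.2 ≤ 3 + 2*k := by
    apply Real.sqrt_le_iff.2
    refine ⟨by linarith, ?_⟩
    unfold Dd
    have g1 : p.1^2 ≤ 1 := by rw [← sq_abs]; nlinarith [abs_nonneg p.1]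
    have g2 : p.2^2 ≤ 1 := by rw [← sq_abs]; nlinarith [abs_nonneg p.2]
    have g3 : p.1^2*p.2^2 ≤ 1 := by nlinarith [sq_nonneg p.1, sq_nonneg p.2]
    nlinarith
  rw [mul_one_div, le_div_iff₀ h4]
  linarith

theorem LL_image : ∃ c : ENNReal, c ≠ ⊤ ∧ ∀ A : Set (ℝ × ℝ),
    volume A ≤ c * volume (LL k '' A) := by
  have h1 := rr_pos hk
  have h2 := rr_lt_one hk
  have h3 := CC_pos hk
  set f : (ℝ × ℝ) →ₗ[ℝ] (ℝ × ℝ) := Matrix.toLin (Module.Basis.finTwoProd ℝ) (Module.Basis.finTwoProd ℝ)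
    !![1/CC k, 0; rr k/CC k, (1-rr k)/(rr k*CC k)] with hf
  have e : LL k = f := by
    funext p
    rw [hf, Matrix.toLin_finTwoProd_apply]
    rfl
  have hdet : LinearMap.det f = (1/CC k)*((1-rr k)/(rr k*CC k)) := by
    rw [hf, LinearMap.det_toLin, Matrix.det_fin_two_of]; ring
  have hpos : 0 < (1/CC k)*((1-rr k)/(rr k*CC k)) :=
    mul_pos (by positivity) (div_pos (by linarith) (mul_pos h1 h3))
  refine ⟨ENNReal.ofReal (((1/CC k)*((1-rr k)/(rr k*CC k)))⁻¹), ENNReal.ofReal_ne_top, ?_⟩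
  intro A
  have h := Measure.addHaar_image_linearMap (volume : Measure (ℝ × ℝ)) f A
  rw [hdet, abs_of_pos hpos, ← e] at h
  rw [h, ← mul_assoc, ← ENNReal.ofReal_mul (by positivity), inv_mul_cancel₀ hpos.ne']
  simp

theorem Om_lt_one {d : ℝ} (hd1 : d ≤ 1) {p : ℝ × ℝ} (hp : p ∈ Om) (h : p.1 < d) :
    |p.1| ≤ 1 ∧ |p.2| ≤ 1 := by
  have h1 := Om_fst_pos hp
  rw [abs_of_pos h1, abs_of_pos hp.1]
  exact ⟨by linarith, by linarith [hp.2]⟩

/-- the comparison of measures -/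
theorem compare {d : ℝ} (hd1 : d ≤ 1) (hd2 : 3*d^2 ≤ k - 2) :
    ∃ c : ENNReal, c ≠ ⊤ ∧ ∀ (l : List (ℕ × Bool)) (n : ℕ) (s : Bool),
      mu k (SS k d l (n, s)) ≤ c * mu k (KK k d l n) := by
  obtain ⟨c, hc, hc'⟩ := LL_image hk
  refine ⟨ENNReal.ofReal (1/(2*k)) * (c * ENNReal.ofReal (3+2*k)),
    ENNReal.mul_ne_top ENNReal.ofReal_ne_top (ENNReal.mul_ne_top hc ENNReal.ofReal_ne_top), ?_⟩
  intro l n s
  have hsub : LL k '' (SS k d l (n, s)) ⊆ KK k d l n := by
    rintro _ ⟨q, ⟨hq1, hq2⟩, rfl⟩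
    have hO := Surv_sub_Om hk hq1
    have h1 := fst_le_phi hk (Om_fst_pos hO)
      (by rw [abs_of_pos hO.1]; exact hO.2) (n, s)
    have hS := Surv_sub_Om hk (phi_mem_Surv hk hq1 (n, s))
    have h2 := phiL_fst hk (Om_fst_pos hS) (by rw [abs_of_pos hS.1]; exact hS.2) l
    have h3 := LL_rel hk hq1 hd1 hd2 (by linarith [h2.1]) n s
    have h4 := rel_phiL hk hd1 hd2 h3 l hq2.le
    refine ⟨LL_mem hk hq1, ?_⟩
    obtain ⟨g1, g2, g3, g4⟩ := h4
    have := (abs_nonneg _).trans g4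
    linarith
  have hK : ∀ p ∈ KK k d l n, |p.1| ≤ 1 ∧ |p.2| ≤ 1 := by
    intro p hp
    have hO := Kill_sub_Om hp.1
    have h1 := fst_le_phi hk (Om_fst_pos hO)
      (by rw [abs_of_pos hO.1]; exact hO.2) (n, true)
    have hS := Surv_sub_Om hk (phi_plus_mem_Surv hk hO n)
    have h2 := phiL_fst hk (Om_fst_pos hS) (by rw [abs_of_pos hS.1]; exact hS.2) l
    exact Om_lt_one hk hd1 hO (by linarith [h2.1, hp.2])
  calc mu k (SS k d l (n, s)) ≤ ENNReal.ofReal (1/(2*k)) * volume (SS k d l (n, s)) := mu_le hk _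
    _ ≤ ENNReal.ofReal (1/(2*k)) * (c * volume (LL k '' (SS k d l (n, s)))) := by
        gcongr; exact hc' _
    _ ≤ ENNReal.ofReal (1/(2*k)) * (c * volume (KK k d l n)) := by gcongr
    _ ≤ ENNReal.ofReal (1/(2*k)) * (c * (ENNReal.ofReal (3+2*k) * mu k (KK k d l n))) := by
        gcongr; exact vol_le hk (measurableSet_KK hk d l n) hK
    _ = _ := by ring

/-- kill images -/
def BB (k d : ℝ) (i : List (ℕ × Bool) × ℕ) : Set (ℝ × ℝ) :=
  (fun q => phiL k i.1 (phi k (i.2, true) q)) '' KK k d i.1 i.2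

theorem BB_eq (d : ℝ) (i : List (ℕ × Bool) × ℕ) :
    BB k d i = ((phiE hk (i.2, true)).trans (phiLE hk i.1)) '' KK k d i.1 i.2 := by
  unfold BB
  apply image_congr
  intro q _
  show _ = phiLE hk i.1 (phiE hk (i.2, true) q)
  rw [phiE_apply, phiLE_apply]

theorem mu_BB (d : ℝ) (i : List (ℕ × Bool) × ℕ) : mu k (BB k d i) = mu k (KK k d i.1 i.2) := by
  rw [BB_eq hk]
  exact mu_image ((mp_phiE hk _).trans (mp_phiLE hk _)) _

theorem measurableSet_BB (d : ℝ) (i : List (ℕ × Bool) × ℕ) : MeasurableSet (BB k d i) := by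
  rw [BB_eq hk, MeasurableEquiv.measurableSet_image]
  exact measurableSet_KK hk _ _ _

theorem BB_disj (d : ℝ) : Pairwise (Function.onFun Disjoint (BB k d)) := by
  intro i j hij
  rw [Function.onFun, Set.disjoint_left]
  rintro _ ⟨p, hp, rfl⟩ ⟨q, hq, h⟩
  apply hij
  obtain ⟨h1, h2, _⟩ := kill_unique hk hq.1 hp.1 h
  exact Prod.ext h1.symm h2.symm

theorem sum_BB {d : ℝ} (hd1 : d ≤ 1) : ∑' i, mu k (BB k d i) ≠ ⊤ := by
  rw [← measure_iUnion (BB_disj hk d) (measurableSet_BB hk d)]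
  have hsub : (⋃ i, BB k d i) ⊆ Icc 0 1 ×ˢ Icc 0 1 := by
    intro x hx
    obtain ⟨i, q, hq, rfl⟩ := mem_iUnion.1 hx
    have hO := Kill_sub_Om hq.1
    have hS := phiL_mem_Surv hk (phi_plus_mem_Surv hk hO i.2) i.1
    have hSO := Surv_sub_Om hk hS
    have h1 := Om_lt_one hk hd1 hSO hq.2
    have h2 := Om_fst_pos hSO
    exact ⟨⟨h2.le, (le_abs_self _).trans h1.1⟩, ⟨hSO.1.le, (le_abs_self _).trans h1.2⟩⟩
  apply ne_top_of_le_ne_top _ ((measure_mono hsub).trans (mu_le hk _))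
  apply ENNReal.mul_ne_top ENNReal.ofReal_ne_top
  rw [Measure.volume_eq_prod, Measure.prod_prod]
  simp

/-- the set of infinitely surviving points below level `d` has measure zero -/
theorem null_small {d : ℝ} (hd1 : d ≤ 1) (hd2 : 3*d^2 ≤ k - 2) {E : Set (ℝ × ℝ)}
    (hE : ∀ p ∈ E, p.1 < d ∧ ∀ m : ℕ, ∃ l : List (ℕ × Bool), l.length = m ∧
      ∃ a, ∃ q ∈ Surv k, phiL k l (phi k a q) = p) : mu k E = 0 := by
  obtain ⟨c, hc, hcomp⟩ := compare hk hd1 hd2
  have key : ∀ m : ℕ, mu k E ≤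
      2 * (c * ∑' i : List (ℕ × Bool) × ℕ, (if i.1.length = m then mu k (BB k d i) else 0)) := by
    intro m
    have hcov : ∀ s : Bool, mu k (⋃ i : List (ℕ × Bool) × ℕ, ⋃ _ : i.1.length = m,
        (fun q => phiL k i.1 (phi k (i.2, s) q)) '' SS k d i.1 (i.2, s)) ≤
        c * ∑' i : List (ℕ × Bool) × ℕ, (if i.1.length = m then mu k (BB k d i) else 0) := by
      intro s
      rw [← ENNReal.tsum_mul_left]
      refine (measure_iUnion_le _).trans (ENNReal.tsum_le_tsum ?_)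
      intro i
      by_cases h : i.1.length = m
      · simp only [h, iUnion_true, if_true]
        have e : (fun q => phiL k i.1 (phi k (i.2, s) q)) '' SS k d i.1 (i.2, s)
            = ((phiE hk (i.2, s)).trans (phiLE hk i.1)) '' SS k d i.1 (i.2, s) := by
          apply image_congr
          intro q _
          show _ = phiLE hk i.1 (phiE hk (i.2, s) q)
          rw [phiE_apply, phiLE_apply]
        rw [e, mu_image ((mp_phiE hk _).trans (mp_phiLE hk _)), mu_BB hk]
        exact hcomp i.1 i.2 s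
      · simp [h]
    have hsub : E ⊆ (⋃ i : List (ℕ × Bool) × ℕ, ⋃ _ : i.1.length = m,
        (fun q => phiL k i.1 (phi k (i.2, true) q)) '' SS k d i.1 (i.2, true)) ∪
        (⋃ i : List (ℕ × Bool) × ℕ, ⋃ _ : i.1.length = m,
        (fun q => phiL k i.1 (phi k (i.2, false) q)) '' SS k d i.1 (i.2, false)) := by
      intro p hp
      obtain ⟨h1, h2⟩ := hE p hp
      obtain ⟨l, hl, ⟨n, s⟩, q, hq, hpq⟩ := h2 m
      have hqS : q ∈ SS k d l (n, s) := ⟨hq, by rw [hpq]; exact h1⟩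
      cases s with
      | true =>
        left
        exact mem_iUnion.2 ⟨(l, n), mem_iUnion.2 ⟨hl, q, hqS, hpq⟩⟩
      | false =>
        right
        exact mem_iUnion.2 ⟨(l, n), mem_iUnion.2 ⟨hl, q, hqS, hpq⟩⟩
    refine (measure_mono hsub).trans ((measure_union_le _ _).trans ?_)
    rw [two_mul]
    exact add_le_add (hcov true) (hcov false)
  by_contra h0
  have h1 : ∑' _ : ℕ, mu k E = ⊤ := ENNReal.tsum_const_eq_top_of_ne_zero h0
  have h2 : ∑' _ : ℕ, mu k E ≤ ∑' m : ℕ, 2 * (c * ∑' i : List (ℕ × Bool) × ℕ,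
      (if i.1.length = m then mu k (BB k d i) else 0)) := ENNReal.tsum_le_tsum key
  rw [h1, ENNReal.tsum_mul_left, ENNReal.tsum_mul_left, ENNReal.tsum_comm] at h2
  have h3 : ∀ i : List (ℕ × Bool) × ℕ, ∑' m : ℕ, (if i.1.length = m then mu k (BB k d i) else 0)
      = mu k (BB k d i) := by
    intro i
    have := tsum_ite_eq i.1.length (fun _ => mu k (BB k d i))
    simpa only [eq_comm] using this
  simp_rw [h3] at h2
  have h4 : (2:ENNReal) * (c * ∑' i, mu k (BB k d i)) ≠ ⊤ :=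
    ENNReal.mul_ne_top (by simp) (ENNReal.mul_ne_top hc (sum_BB hk hd1))
  exact h4 (top_le_iff.1 h2)

end

end Pool.Agent.H528.MCG
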