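import Mathlib

set_option autoImplicit false

namespace Pool.Agent.H528.MCG

/-- discriminant -/
noncomputable def Dd (k t u : ℝ) : ℝ := t^2*u^2 + 4*t^2 + 4*u^2 + 4*k^2
/-- its square root -/
noncomputable def sD (k t u : ℝ) : ℝ := Real.sqrt (Dd k t u)
/-- the positive root `z` of `z^2 + t u z = k^2 + t^2 + u^2` -/
noncomputable def zp (k t u : ℝ) : ℝ := (-(t*u) + sD k t u)/2
/-- slide up along the pivot `t` -/
noncomputable def F (k t u : ℝ) : ℝ := u + t^2*u/2 + t*sD k t u/2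
/-- slide down along the pivot `t` -/
noncomputable def G (k t u : ℝ) : ℝ := u + t^2*u/2 - t*sD k t u/2

section
variable {k : ℝ} (hk : 2 < k)
include hk

theorem Dd_pos (t u : ℝ) : 0 < Dd k t u := by
  unfold Dd; positivity

theorem sD_sq (t u : ℝ) : sD k t u ^ 2 = Dd k t u := Real.sq_sqrt (Dd_pos hk t u).le

theorem sD_pos (t u : ℝ) : 0 < sD k t u := Real.sqrt_pos.2 (Dd_pos hk t u)

theorem sD_ge (t u : ℝ) : 2*k ≤ sD k t u := by
  apply Real.le_sqrt_of_sq_le
  unfold Dd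
  nlinarith [sq_nonneg t, sq_nonneg u, sq_nonneg (t*u)]

omit hk in
theorem sD_comm (t u : ℝ) : sD k t u = sD k u t := by
  unfold sD Dd; congr 1; ring

omit hk in
theorem sD_neg (t u : ℝ) : sD k t (-u) = sD k t u := by
  unfold sD Dd; congr 1; ring

omit hk in
theorem zp_comm (t u : ℝ) : zp k t u = zp k u t := by
  unfold zp; rw [sD_comm t u]; ring

omit hk in
theorem zp_neg_neg (t u : ℝ) : zp k (-t) (-u) = zp k t u := by
  unfold zp
  rw [sD_neg, sD_comm (-t) u, sD_neg, sD_comm u t]; ring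

theorem abs_mul_lt_sD (t u : ℝ) : |t*u| < sD k t u := by
  apply Real.lt_sqrt_of_sq_lt
  rw [sq_abs]
  unfold Dd
  nlinarith [sq_nonneg t, sq_nonneg u]

theorem zp_pos (t u : ℝ) : 0 < zp k t u := by
  unfold zp
  have := abs_mul_lt_sD hk t u
  have h2 := le_abs_self (t*u)
  linarith

theorem zp_eq (t u : ℝ) : zp k t u ^ 2 + t*u*zp k t u = k^2 + t^2 + u^2 := by
  have h := sD_sq hk t u
  unfold Dd at h
  unfold zp
  nlinarith

/-- uniqueness of the positive root -/
theorem zp_unique {t u z : ℝ} (hz : 0 < z) (h : z^2 + t*u*z = k^2 + t^2 + u^2) :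
    z = zp k t u := by
  have h1 := zp_eq hk t u
  have h2 := zp_pos hk t u
  have h3 : (z - zp k t u) * (z + zp k t u + t*u) = 0 := by nlinarith
  rcases mul_eq_zero.1 h3 with h4 | h4
  · linarith
  · exfalso
    -- product of the roots is negative
    have h5 : zp k t u = -(z + t*u) := by linarith
    have h6 : z * zp k t u = -(k^2 + t^2 + u^2) := by rw [h5]; nlinarith
    have h7 := mul_pos hz h2
    nlinarith [sq_nonneg t, sq_nonneg u]

theorem two_lt_zp (t u : ℝ) : 2 < zp k t u := by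
  have h1 := zp_eq hk t u
  have h2 := zp_pos hk t u
  by_contra h3
  push Not at h3
  have h4 : t*u*zp k t u ≤ t^2 + u^2 := by
    have h5 : |t*u| * zp k t u ≤ |t*u| * 2 := mul_le_mul_of_nonneg_left h3 (abs_nonneg _)
    have h6 : t*u*zp k t u ≤ |t*u| * zp k t u :=
      mul_le_mul_of_nonneg_right (le_abs_self _) h2.le
    have h7 : |t*u| * 2 ≤ t^2 + u^2 := by
      rw [abs_mul]
      nlinarith [sq_nonneg (|t| - |u|), sq_abs t, sq_abs u]
    linarith
  nlinarith

theorem F_eq (t u : ℝ) : F k t u = u + t*(zp k t u + t*u) := by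
  unfold F zp; ring

theorem G_eq (t u : ℝ) : G k t u = u - t*zp k t u := by
  unfold G zp; ring

theorem F_neg_eq (t u : ℝ) : F k t (-u) = -u + t*zp k t u := by
  unfold F zp; rw [sD_neg]; ring

theorem sD_F (t u : ℝ) : sD k t (F k t u) = (1 + t^2/2)*sD k t u + t*u*(t^2+4)/2 := by
  have h0 := sD_pos hk t u
  have hsq := sD_sq hk t u
  have hpos : 0 ≤ (1 + t^2/2)*sD k t u + t*u*(t^2+4)/2 := by
    have h1 : (t*u*(t^2+4)/2)^2 ≤ ((1 + t^2/2)*sD k t u)^2 := by
      have e2 : ((1 + t^2/2)*sD k t u)^2 = (1+t^2/2)^2*Dd k t u := by rw [mul_pow, hsq]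
      rw [e2]; unfold Dd
      have e3 : (1+t^2/2)^2*(t^2*u^2 + 4*t^2 + 4*u^2 + 4*k^2) - (t*u*(t^2+4)/2)^2
        = t^2*u^2*(0) + 4*u^2 + t^2*u^2 + (1+t^2/2)^2*(4*t^2+4*k^2) := by ring
      have e4 : 0 ≤ t^2*u^2*(0) + 4*u^2 + t^2*u^2 + (1+t^2/2)^2*(4*t^2+4*k^2) := by positivity
      linarith
    have h2 := abs_le_of_sq_le_sq' h1 (by positivity)
    linarith [h2.1]
  have e : Dd k t (F k t u) = ((1 + t^2/2)*sD k t u + t*u*(t^2+4)/2)^2 := by
    unfold Dd F
    unfold Dd at hsq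
    linear_combination (t^4/4 + t^2 + t^2 *t^2*0 - (1+t^2/2)^2) * hsq
  show Real.sqrt (Dd k t (F k t u)) = _
  rw [e, Real.sqrt_sq hpos]

theorem G_F (t u : ℝ) : G k t (F k t u) = u := by
  unfold G
  rw [sD_F hk]
  unfold F
  ring

theorem sD_G (t u : ℝ) : sD k t (G k t u) = (1 + t^2/2)*sD k t u - t*u*(t^2+4)/2 := by
  have h := sD_F hk t (-u)
  have e : F k t (-u) = - G k t u := by unfold F G; rw [sD_neg]; ring
  rw [e, sD_neg, sD_neg] at h
  rw [h]; ring

theorem F_G (t u : ℝ) : F k t (G k t u) = u := by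
  unfold F
  rw [sD_G hk]
  unfold G
  ring

/-- the three term recursion -/
theorem F_F (t u : ℝ) : F k t (F k t u) = (t^2+2)*F k t u - u := by
  conv_lhs => unfold F
  rw [show sD k t (u + t^2*u/2 + t*sD k t u/2) = sD k t (F k t u) from rfl, sD_F hk]
  unfold F
  ring

theorem F_gt_self {t u : ℝ} (ht : 0 < t) (hu : 0 ≤ u) : u < F k t u := by
  have := sD_pos hk t u
  unfold F
  have : 0 ≤ t^2*u/2 := by positivity
  have : 0 < t*sD k t u/2 := by positivity
  linarith

theorem lt_F {t u : ℝ} (ht : 0 < t) (hu : |u| ≤ t) : t < F k t u := by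
  have h1 := F_neg_eq hk t (-u)
  rw [neg_neg] at h1
  rw [h1]
  have h2 := two_lt_zp hk t (-u)
  have h3 := (abs_le.1 hu).1
  nlinarith

theorem F_inj (t : ℝ) : Function.Injective (F k t) :=
  Function.LeftInverse.injective (G_F hk t)

theorem F_iter_inj (t : ℝ) (n : ℕ) : Function.Injective ((F k t)^[n]) :=
  (F_inj hk t).iterate n

theorem lt_F_iter {t u : ℝ} (ht : 0 < t) (hu : |u| ≤ t) (n : ℕ) : t < (F k t)^[n+1] u := by
  induction n with
  | zero => simpa using lt_F hk ht hu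
  | succ n ih =>
    rw [Function.iterate_succ_apply']
    exact ih.trans (F_gt_self hk ht (ht.trans ih).le)

theorem F_iter_mono {t u : ℝ} (ht : 0 < t) (hu : |u| ≤ t) (n : ℕ) :
    F k t u ≤ (F k t)^[n+1] u := by
  induction n with
  | zero => simp
  | succ n ih =>
    rw [Function.iterate_succ_apply' (F k t) (n+1) u]
    exact ih.trans (F_gt_self hk ht (ht.trans (lt_F_iter hk ht hu n)).le).le

/-- uniqueness of the decomposition -/
theorem F_iter_unique {t u v : ℝ} (ht : 0 < t) (hu : |u| ≤ t) (hv : |v| ≤ t) {m n : ℕ}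
    (h : (F k t)^[m] u = (F k t)^[n] v) : m = n ∧ u = v := by
  have key : ∀ (m n : ℕ) (u v : ℝ), |u| ≤ t → |v| ≤ t → (F k t)^[m] u = (F k t)^[n] v →
      m < n → False := by
    intro m n u v hu hv h hmn
    obtain ⟨d, rfl⟩ := Nat.exists_eq_add_of_lt hmn
    rw [add_assoc, Function.iterate_add_apply] at h
    have h2 := F_iter_inj hk t m h
    have h3 := lt_F_iter hk ht hv d
    rw [← h2] at h3
    exact absurd h3 (not_lt.2 ((le_abs_self u).trans hu))
  rcases lt_trichotomy m n with h1 | h1 | h1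
  · exact (key m n u v hu hv h h1).elim
  · subst h1
    exact ⟨rfl, F_iter_inj hk t m h⟩
  · exact (key n m v u hv hu h.symm h1).elim

/-- the basic cone estimate -/
theorem cone_base {d t u T U : ℝ} (hd1 : d ≤ 1) (hd2 : 3*d^2 ≤ k - 2)
    (hu : |u| ≤ t) (hU : |U| ≤ T) (hT : T ≤ d) (h : |U - u| ≤ T - t) :
    T - t ≤ F k T U - F k t u := by
  have ht0 : 0 ≤ t := (abs_nonneg _).trans hu
  have hT0 : 0 ≤ T := (abs_nonneg _).trans hU
  have hd0 : 0 ≤ d := hT0.trans hT
  have ha : 0 ≤ T - t := (abs_nonneg _).trans h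
  set a := T - t with haD
  set b := U - u with hbD
  have hb1 : -a ≤ b := (abs_le.1 h).1
  have hb2 : b ≤ a := (abs_le.1 h).2
  have htd : t ≤ d := by linarith
  have hu1 := abs_le.1 hu
  have hU1 := abs_le.1 hU
  have s1 := sD_ge hk T U
  have s2 := sD_ge hk t u
  have q1 := sD_sq hk T U
  have q2 := sD_sq hk t u
  unfold Dd at q1 q2
  -- first piece
  have e1 : -(3*d^2*a) ≤ T^2*U - t^2*u := by
    have : T^2*U - t^2*u = T^2*b + (T+t)*a*u := by rw [haD, hbD]; ring
    rw [this]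
    have h1 : -(d^2*a) ≤ T^2*b := by
      have hT2 : T^2 ≤ d^2 := pow_le_pow_left₀ hT0 hT 2
      have h11 : T^2*b ≥ T^2*(-a) := mul_le_mul_of_nonneg_left hb1 (sq_nonneg _)
      have h12 : T^2*a ≤ d^2*a := mul_le_mul_of_nonneg_right hT2 ha
      linarith
    have h2 : -(2*d^2*a) ≤ (T+t)*a*u := by
      have hp : 0 ≤ (T+t)*a := by positivity
      have h3 : (T+t)*a*u ≥ (T+t)*a*(-t) := mul_le_mul_of_nonneg_left hu1.1 hp
      have h4 : (T+t)*t ≤ (2*d)*d := mul_le_mul (by linarith) htd ht0 (by linarith)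
      have h5 : (T+t)*t*a ≤ (2*d)*d*a := mul_le_mul_of_nonneg_right h4 ha
      have h6 : (T+t)*a*(-t) = -((T+t)*t*a) := by ring
      have h7 : (2*d)*d*a = 2*d^2*a := by ring
      linarith
    linarith
  -- difference of discriminants
  have e2 : -((8*d + 2*d^3)*a) ≤ sD k T U^2 - sD k t u^2 := by
    rw [q1, q2]
    have h1 : (U^2 - u^2) ≥ -(2*d*a) := by
      have : U^2 - u^2 = b*(U+u) := by rw [hbD]; ring
      rw [this]
      have h3 : |U+u| ≤ 2*d := by
        calc |U+u| ≤ |U| + |u| := abs_add_le _ _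
          _ ≤ T + t := add_le_add hU hu
          _ ≤ 2*d := by linarith
      have h4 : |b*(U+u)| ≤ a*(2*d) := by
        rw [abs_mul]; exact mul_le_mul h h3 (abs_nonneg _) ha
      have := (abs_le.1 h4).1
      linarith
    have h2 : 0 ≤ T^2 - t^2 := by
      have := pow_le_pow_left₀ ht0 (show t ≤ T by linarith) 2
      linarith
    have h3 : T^2*U^2 - t^2*u^2 ≥ -(2*d^3*a) := by
      have : T^2*U^2 - t^2*u^2 = (T^2-t^2)*U^2 + t^2*(U^2-u^2) := by ring
      rw [this]
      have h4 : 0 ≤ (T^2-t^2)*U^2 := mul_nonneg h2 (sq_nonneg _)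
      have h5 : t^2*(U^2-u^2) ≥ t^2*(-(2*d*a)) := mul_le_mul_of_nonneg_left h1 (sq_nonneg _)
      have h6 : t^2*(2*d*a) ≤ d^2*(2*d*a) := by
        apply mul_le_mul_of_nonneg_right _ (by positivity)
        exact pow_le_pow_left₀ ht0 htd 2
      have h7 : d^2*(2*d*a) = 2*d^3*a := by ring
      have h8 : t^2*(-(2*d*a)) = -(t^2*(2*d*a)) := by ring
      linarith
    have h9 : (8*d + 2*d^3)*a = 4*(2*d*a) + 2*d^3*a := by ring
    linarith
  have e3 : -((10*d)*a/8) ≤ sD k T U - sD k t u := by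
    by_contra hcon
    push Not at hcon
    have h1 : (sD k T U - sD k t u)*(sD k T U + sD k t u) ≥ -((8*d+2*d^3)*a) := by
      have : (sD k T U - sD k t u)*(sD k T U + sD k t u) = sD k T U^2 - sD k t u^2 := by ring
      rw [this]; exact e2
    have h2 : 8 ≤ sD k T U + sD k t u := by linarith
    have h3 : sD k T U - sD k t u < 0 := by
      have : 0 ≤ 10*d*a/8 := by positivity
      linarith
    have h4 : (sD k T U - sD k t u)*(sD k T U + sD k t u) ≤ (sD k T U - sD k t u)*8 :=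
      mul_le_mul_of_nonpos_left h2 h3.le
    have h5 : d^3 ≤ d := by
      have h51 : d^2 ≤ 1 := by nlinarith only [hd0, hd1]
      have h52 : d^3 = d*d^2 := by ring
      rw [h52]
      exact mul_le_of_le_one_right hd0 h51
    have h6 : (8*d+2*d^3)*a ≤ 10*d*a := by
      apply mul_le_mul_of_nonneg_right _ ha
      linarith
    linarith
  have e4 : T*sD k T U - t*sD k t u ≥ 2*k*a - 10*d^2*a/8 := by
    have : T*sD k T U - t*sD k t u = a*sD k T U + t*(sD k T U - sD k t u) := by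
      rw [haD]; ring
    rw [this]
    have h1 : a*sD k T U ≥ a*(2*k) := mul_le_mul_of_nonneg_left s1 ha
    have h2 : t*(sD k T U - sD k t u) ≥ t*(-((10*d)*a/8)) := mul_le_mul_of_nonneg_left e3 ht0
    have h3 : t*((10*d)*a/8) ≤ d*((10*d)*a/8) := mul_le_mul_of_nonneg_right htd (by positivity)
    have h4 : d*((10*d)*a/8) = 10*d^2*a/8 := by ring
    have h5 : t*(-((10*d)*a/8)) = -(t*((10*d)*a/8)) := by ring
    linarith
  have hF : F k T U - F k t u = b + (T^2*U - t^2*u)/2 + (T*sD k T U - t*sD k t u)/2 := by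
    unfold F; rw [hbD]; ring
  rw [hF]
  have h9 : 3*d^2*a ≤ (k-2)*a := mul_le_mul_of_nonneg_right hd2 ha
  have h10 : 0 ≤ d^2*a := by positivity
  have h11 : (k-2)*a = k*a - 2*a := by ring
  linarith

/-- the cone estimate for iterates -/
theorem cone_iter {d t u T U : ℝ} (hd1 : d ≤ 1) (hd2 : 3*d^2 ≤ k - 2) (ht : 0 < t)
    (hu : |u| ≤ t) (hU : |U| ≤ T) (hT : T ≤ d) (h : |U - u| ≤ T - t) (n : ℕ) :
    T - t ≤ (F k T)^[n+1] U - (F k t)^[n+1] u ∧
      (F k T)^[n] U - (F k t)^[n] u ≤ (F k T)^[n+1] U - (F k t)^[n+1] u := by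
  have ha : 0 ≤ T - t := (abs_nonneg _).trans h
  induction n with
  | zero =>
    have h1 := cone_base hk hd1 hd2 hu hU hT h
    refine ⟨by simpa using h1, ?_⟩
    simp only [Function.iterate_zero, id_eq, zero_add, Function.iterate_one]
    exact ((abs_le.1 h).2).trans h1
  | succ n ih =>
    obtain ⟨ih1, ih2⟩ := ih
    have e1 : (F k T)^[n+2] U = (T^2+2)*(F k T)^[n+1] U - (F k T)^[n] U := by
      rw [Function.iterate_succ_apply', Function.iterate_succ_apply', F_F hk]
    have e2 : (F k t)^[n+2] u = (t^2+2)*(F k t)^[n+1] u - (F k t)^[n] u := by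
      rw [Function.iterate_succ_apply', Function.iterate_succ_apply', F_F hk]
    have hpos : 0 ≤ (F k t)^[n+1] u := (ht.trans (lt_F_iter hk ht hu n)).le
    have hsq : t^2 ≤ T^2 := by nlinarith
    have h2 : (F k T)^[n+1] U - (F k t)^[n+1] u ≤ (F k T)^[n+2] U - (F k t)^[n+2] u := by
      rw [e1, e2]
      have h3 : 0 ≤ (T^2 - t^2) * (F k t)^[n+1] u := mul_nonneg (by linarith) hpos
      have h4 : 0 ≤ T^2 * ((F k T)^[n+1] U - (F k t)^[n+1] u) :=
        mul_nonneg (sq_nonneg _) (ha.trans ih1)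
      nlinarith
    exact ⟨ih1.trans h2, h2⟩

end

end Pool.Agent.H528.MCG
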