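import Pool.Agent.H528.MCG.Lift

set_option autoImplicit false

open MeasureTheory Set

namespace Pool.Agent.H528.MCG

theorem null_image {f : ℝ × ℝ → R3} (hf : ContDiff ℝ 1 f) {Z : Set (ℝ × ℝ)}
    (hZ : volume Z = 0) : Measure.hausdorffMeasure 2 (f '' Z) = 0 := by
  have h1 : ∀ x : ℝ × ℝ, ∃ K, ∃ t ∈ nhds x, LipschitzOnWith K f t := fun x =>
    (hf.contDiffAt).exists_lipschitzOnWith
  choose K U hU hK using h1
  obtain ⟨s, hs, hcov⟩ := TopologicalSpace.countable_cover_nhds hU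
  have hsub : f '' Z ⊆ ⋃ x ∈ s, f '' (Z ∩ U x) := by
    rintro _ ⟨z, hz, rfl⟩
    have h2 : z ∈ ⋃ x ∈ s, U x := by rw [hcov]; trivial
    rw [Set.mem_iUnion₂] at h2 ⊢
    obtain ⟨x, hx, hzx⟩ := h2
    exact ⟨x, hx, z, ⟨hz, hzx⟩, rfl⟩
  apply measure_mono_null hsub
  rw [measure_biUnion_null_iff hs]
  intro x _
  have h3 : LipschitzOnWith (K x) f (Z ∩ U x) := (hK x).mono Set.inter_subset_right
  have h4 := h3.hausdorffMeasure_image_le (d := 2) (by norm_num)
  rw [hausdorffMeasure_prod_real, measure_mono_null Set.inter_subset_left hZ, mul_zero] at h4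
  exact le_antisymm h4 zero_le

theorem Gam_countable : (Gam : Set (Equiv.Perm R3)).Countable := by
  unfold Gam
  rw [FreeGroup.closure_eq_range]
  rw [MonoidHom.coe_range]
  have : Countable (({Ix, Iy, Iz, sw} : Set (Equiv.Perm R3))) := by
    apply Set.Countable.to_subtype
    exact (Set.toFinite _).countable
  exact Set.countable_range _

theorem Gam_contDiff {g : Equiv.Perm R3} (hg : g ∈ Gam) : ContDiff ℝ 1 (g : R3 → R3) := by
  refine Gam_induction (P := fun g => ContDiff ℝ 1 (g : R3 → R3)) ?_ ?_ ?_ ?_ ?_ hg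
  · exact contDiff_id
  · intro g h
    have : ContDiff ℝ 1 fIx := by unfold fIx; fun_prop
    exact this.comp h
  · intro g h
    have : ContDiff ℝ 1 fIy := by unfold fIy; fun_prop
    exact this.comp h
  · intro g h
    have : ContDiff ℝ 1 fIz := by unfold fIz; fun_prop
    exact this.comp h
  · intro g h
    have : ContDiff ℝ 1 fsw := by unfold fsw; fun_prop
    exact this.comp h

section
variable {k : ℝ} (hk : 2 < k)
include hk

theorem contDiff_zp {f g : ℝ × ℝ → ℝ} (hf : ContDiff ℝ 1 f) (hg : ContDiff ℝ 1 g) :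
    ContDiff ℝ 1 (fun q => zp k (f q) (g q)) := by
  have h1 : ContDiff ℝ 1 (fun q => Dd k (f q) (g q)) := by
    unfold Dd; fun_prop
  have h2 : ContDiff ℝ 1 (fun q => sD k (f q) (g q)) := by
    unfold sD
    exact h1.sqrt (fun q => (Dd_pos hk _ _).ne')
  unfold zp
  exact (((hf.mul hg).neg).add h2).div_const 2

/-- the two sheets -/
theorem contDiff_iota : ContDiff ℝ 1 (iota k) := by
  unfold iota
  exact contDiff_fst.prodMk (contDiff_snd.prodMk (contDiff_zp hk contDiff_fst contDiff_snd))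

omit hk in
noncomputable def iota' (k : ℝ) (q : ℝ × ℝ) : R3 := (q.1, q.2, -zp k (-q.1) q.2)

theorem contDiff_iota' : ContDiff ℝ 1 (iota' k) := by
  unfold iota'
  exact contDiff_fst.prodMk (contDiff_snd.prodMk
    (contDiff_zp hk contDiff_fst.neg contDiff_snd).neg)

theorem two_sheets {p : R3} (hp : p ∈ SK k) : p = iota k (p.1, p.2.1) ∨ p = iota' k (p.1, p.2.1) := by
  have h4 := four_lt hk hp
  obtain ⟨x, y, z⟩ := p
  simp only [SK, Set.mem_ofPred_eq] at hp
  have h4 : 4 < z^2 := h4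
  have hz0 : z ≠ 0 := by rintro rfl; norm_num at h4
  rcases lt_or_gt_of_ne hz0 with h | h
  · right
    simp only [iota']
    refine Prod.ext rfl (Prod.ext rfl ?_)
    have := zp_unique hk (t := -x) (u := y) (z := -z) (by linarith) (by nlinarith)
    simp only
    linarith
  · left
    simp only [iota]
    refine Prod.ext rfl (Prod.ext rfl ?_)
    exact zp_unique hk h (by nlinarith)

omit hk in
/-- the null set of parameters -/
def ZZ (k : ℝ) : Set (ℝ × ℝ) := {q | q.1 = 0 ∨ q.2 = 0 ∨ (|q.1|, |q.2|) ∈ GGk k}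

theorem volume_ZZ : volume (ZZ k) = 0 := by
  have h0 := volume_GGk hk
  have hsub : ZZ k ⊆ ({q | q.1 = 0} ∪ {q | q.2 = 0}) ∪
      ((GGk k ∪ (fun q : ℝ × ℝ => (-q.1, q.2)) ⁻¹' GGk k) ∪
       ((fun q : ℝ × ℝ => (q.1, -q.2)) ⁻¹' GGk k ∪
        (fun q : ℝ × ℝ => (-q.1, -q.2)) ⁻¹' GGk k)) := by
    rintro ⟨x, y⟩ (h | h | h)
    · exact Or.inl (Or.inl h)
    · exact Or.inl (Or.inr h)
    · right
      simp only at h
      rcases abs_choice x with hx | hx <;> rcases abs_choice y with hy | hy <;>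
        rw [hx, hy] at h
      · exact Or.inl (Or.inl h)
      · exact Or.inr (Or.inl h)
      · exact Or.inl (Or.inr h)
      · exact Or.inr (Or.inr h)
  have neg_mp : MeasurePreserving (fun x : ℝ => -x) volume volume :=
    Measure.measurePreserving_neg volume
  have id_mp : MeasurePreserving (fun x : ℝ => x) volume volume := MeasurePreserving.id _
  have m1 : volume ((fun q : ℝ × ℝ => (-q.1, q.2)) ⁻¹' GGk k) = 0 :=
    (neg_mp.prod id_mp).quasiMeasurePreserving.preimage_null h0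
  have m2 : volume ((fun q : ℝ × ℝ => (q.1, -q.2)) ⁻¹' GGk k) = 0 :=
    (id_mp.prod neg_mp).quasiMeasurePreserving.preimage_null h0
  have m3 : volume ((fun q : ℝ × ℝ => (-q.1, -q.2)) ⁻¹' GGk k) = 0 :=
    (neg_mp.prod neg_mp).quasiMeasurePreserving.preimage_null h0
  have m4 : volume {q : ℝ × ℝ | q.1 = 0} = 0 := by
    have : {q : ℝ × ℝ | q.1 = 0} = ({0} : Set ℝ) ×ˢ Set.univ := by
      ext q; simp
    rw [this, Measure.volume_eq_prod, Measure.prod_prod]; simp
  have m5 : volume {q : ℝ × ℝ | q.2 = 0} = 0 := by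
    have : {q : ℝ × ℝ | q.2 = 0} = (Set.univ : Set ℝ) ×ˢ ({0} : Set ℝ) := by
      ext q; simp
    rw [this, Measure.volume_eq_prod, Measure.prod_prod]; simp
  apply measure_mono_null hsub
  simp only [measure_union_null_iff]
  exact ⟨⟨m4, m5⟩, ⟨h0, m1⟩, m2, m3⟩

/-- points of the level surface whose orbit avoids `WK` lie in countably many null images -/
theorem bad_sub {q : R3} (hq : q ∈ SK k) (hbad : ∀ γ ∈ Gam, γ q ∉ WK k) :
    q ∈ ⋃ γ ∈ (Gam : Set (Equiv.Perm R3)),
      (((fun u => (γ : R3 → R3) (iota k u)) '' ZZ k) ∪ ((fun u => (γ : R3 → R3) (iota' k u)) '' ZZ k)) := by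
  -- a point of the orbit lying over `ZZ`
  have key : ∃ γ ∈ Gam, ((γ q).1, (γ q).2.1) ∈ ZZ k := by
    by_cases h : ∃ γ ∈ Gam, (γ q).1 = 0 ∨ (γ q).2.1 = 0
    · obtain ⟨γ, hγ, h⟩ := h
      refine ⟨γ, hγ, ?_⟩
      rcases h with h | h
      · exact Or.inl h
      · exact Or.inr (Or.inl h)
    · push Not at h
      refine ⟨1, one_mem _, Or.inr (Or.inr ?_)⟩
      apply Estar_abs hk
      refine ⟨hq, fun g hg => ⟨?_, h g hg⟩⟩
      by_contra hcon
      push Not at hcon
      exact hbad g hg ⟨(SK_Gam hg q).2 hq, hcon⟩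
  obtain ⟨γ, hγ, hZ⟩ := key
  rw [Set.mem_iUnion₂]
  refine ⟨γ⁻¹, Gam.inv_mem hγ, ?_⟩
  rcases two_sheets hk ((SK_Gam hγ q).2 hq) with h | h
  · left
    refine ⟨_, hZ, ?_⟩
    show γ⁻¹ (iota k ((γ q).1, (γ q).2.1)) = q
    rw [← h]; simp
  · right
    refine ⟨_, hZ, ?_⟩
    show γ⁻¹ (iota' k ((γ q).1, (γ q).2.1)) = q
    rw [← h]; simp

theorem bad_null : Measure.hausdorffMeasure 2 {q : R3 | q ∈ SK k ∧ ∀ γ ∈ Gam, γ q ∉ WK k} = 0 := by
  apply measure_mono_null (fun q hq => bad_sub hk hq.1 hq.2)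
  rw [measure_biUnion_null_iff Gam_countable]
  intro γ hγ
  rw [measure_union_null_iff]
  exact ⟨null_image ((Gam_contDiff hγ).comp (contDiff_iota hk)) (volume_ZZ hk),
    null_image ((Gam_contDiff hγ).comp (contDiff_iota' hk)) (volume_ZZ hk)⟩

end

theorem em_lip : LipschitzWith 1 (em 1) := by
  apply LipschitzWith.of_dist_le_mul
  intro p q
  rw [em1, em1, NNReal.coe_one, one_mul]
  have h1 : ∀ a b : ℝ, dist ((a : ℂ) * Complex.I) (b * Complex.I) = dist a b := by
    intro a b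
    rw [dist_eq_norm, ← sub_mul, norm_mul, Complex.norm_I, mul_one, ← Complex.ofReal_sub,
      Complex.norm_real, dist_eq_norm]
  have h2 : ∀ a b : ℝ, dist (a : ℂ) (b : ℂ) = dist a b := by
    intro a b
    rw [dist_eq_norm, ← Complex.ofReal_sub, Complex.norm_real, dist_eq_norm]
  simp only [Prod.dist_eq, h1, h2]
  apply max_le
  · exact le_max_left _ _
  · apply max_le
    · exact le_trans (le_max_right _ _) (le_max_right _ _)
    · exact le_trans (le_max_left _ _) (le_max_right _ _)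

/-- the complement of the union of the translates is null -/
theorem complement_null {t k : ℝ} (hk2 : 2 < k) (hk : k^2 = t + 2) {M : Subgroup (MulAut PiT)}
    (hM : ModPlus ≤ M) : Measure.hausdorffMeasure 2 (V t \ ⋃₀ Translates M t) = 0 := by
  have hsub : (V t \ ⋃₀ Translates M t) ⊆
      em 1 '' {q : R3 | q ∈ SK k ∧ ∀ γ ∈ Gam, γ q ∉ WK k} := by
    rintro p ⟨hp, hnot⟩
    rw [V_eq hk] at hp
    obtain ⟨q, hq, rfl⟩ := hp
    refine ⟨q, ⟨hq, fun γ hγ hcon => hnot ?_⟩, rfl⟩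
    exact mem_translates hk2 hk hM hγ hcon
  apply measure_mono_null hsub
  have h := em_lip.hausdorffMeasure_image_le (d := 2) (by norm_num)
    {q : R3 | q ∈ SK k ∧ ∀ γ ∈ Gam, γ q ∉ WK k}
  rw [bad_null hk2, mul_zero] at h
  exact le_antisymm h zero_le

end Pool.Agent.H528.MCG
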