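import Pool.Agent.H528.MCG.Char
import Pool.Agent.H528.MCG.Nielsen

set_option autoImplicit false

open MeasureTheory

namespace Pool.Agent.H528.MCG

/-- coordinates as a function on `Fin 3` -/
def vv (p : C3) : Fin 3 → ℂ := ![p.1, p.2.1, p.2.2]

/-- polynomial maps -/
def Poly (g : Equiv.Perm C3) : Prop := ∃ P : Fin 3 → MvPolynomial (Fin 3) ℂ,
  ∀ p i, vv (g p) i = MvPolynomial.eval (vv p) (P i)

theorem Poly_mul {g h : Equiv.Perm C3} (hg : Poly g) (hh : Poly h) : Poly (g * h) := by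
  obtain ⟨P, hP⟩ := hg
  obtain ⟨P', hP'⟩ := hh
  refine ⟨fun i => MvPolynomial.bind₁ P' (P i), fun p i => ?_⟩
  rw [Equiv.Perm.mul_apply, hP]
  rw [MvPolynomial.eval, MvPolynomial.eval, MvPolynomial.eval₂Hom_bind₁]
  congr 2
  funext j
  rw [hP' p j]; rfl

theorem Poly_one : Poly 1 := ⟨fun i => MvPolynomial.X i, fun p i => by simp⟩

theorem Poly_X : Poly pX := by
  refine ⟨![MvPolynomial.X 0, MvPolynomial.X 2,
    MvPolynomial.X 0 * MvPolynomial.X 2 - MvPolynomial.X 1], fun p i => ?_⟩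
  fin_cases i <;> simp [pX, vv]

theorem Poly_X' : Poly pX⁻¹ := by
  refine ⟨![MvPolynomial.X 0, MvPolynomial.X 0 * MvPolynomial.X 1 - MvPolynomial.X 2,
    MvPolynomial.X 1], fun p i => ?_⟩
  have e : pX⁻¹ p = (p.1, p.1*p.2.1 - p.2.2, p.2.1) := rfl
  rw [e]
  fin_cases i <;> simp [vv]

theorem Poly_Y : Poly pY := by
  refine ⟨![MvPolynomial.X 2, MvPolynomial.X 1,
    MvPolynomial.X 2 * MvPolynomial.X 1 - MvPolynomial.X 0], fun p i => ?_⟩
  fin_cases i <;> simp [pY, vv]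

theorem Poly_Y' : Poly pY⁻¹ := by
  refine ⟨![MvPolynomial.X 0 * MvPolynomial.X 1 - MvPolynomial.X 2, MvPolynomial.X 1,
    MvPolynomial.X 0], fun p i => ?_⟩
  have e : pY⁻¹ p = (p.1*p.2.1 - p.2.2, p.2.1, p.1) := rfl
  rw [e]
  fin_cases i <;> simp [vv]

theorem Poly_R : Poly pR := by
  refine ⟨![MvPolynomial.X 0, MvPolynomial.X 1,
    MvPolynomial.X 0 * MvPolynomial.X 1 - MvPolynomial.X 2], fun p i => ?_⟩
  fin_cases i <;> simp [pR, vv]

theorem Poly_R' : Poly pR⁻¹ := by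
  refine ⟨![MvPolynomial.X 0, MvPolynomial.X 1,
    MvPolynomial.X 0 * MvPolynomial.X 1 - MvPolynomial.X 2], fun p i => ?_⟩
  have e : pR⁻¹ p = (p.1, p.2.1, p.1*p.2.1 - p.2.2) := rfl
  rw [e]
  fin_cases i <;> simp [vv]

/-- polynomial maps agreeing on `iℝ × ℝ × iℝ` are equal -/
theorem Poly_ext {g h : Equiv.Perm C3} (hg : Poly g) (hh : Poly h)
    (he : ∀ r, g (em 1 r) = h (em 1 r)) : g = h := by
  obtain ⟨P, hP⟩ := hg
  obtain ⟨P', hP'⟩ := hh
  have key : ∀ i, P i = P' i := by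
    intro i
    set s : Fin 3 → Set ℂ := ![Set.range (fun x : ℝ => (x : ℂ) * Complex.I),
      Set.range (fun x : ℝ => (x : ℂ)), Set.range (fun x : ℝ => (x : ℂ) * Complex.I)] with hs
    have hinj1 : Function.Injective (fun x : ℝ => (x : ℂ) * Complex.I) := by
      intro a b hab
      have := mul_right_cancel₀ Complex.I_ne_zero hab
      exact_mod_cast this
    have hinf : ∀ i, (s i).Infinite := by
      intro i
      fin_cases i
      · exact Set.infinite_range_of_injective hinj1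
      · exact Set.infinite_range_of_injective Complex.ofReal_injective
      · exact Set.infinite_range_of_injective hinj1
    apply MvPolynomial.funext_set s hinf
    intro x hx
    obtain ⟨a, ha⟩ := hx 0 (Set.mem_univ _)
    obtain ⟨c, hc⟩ := hx 1 (Set.mem_univ _)
    obtain ⟨b, hb⟩ := hx 2 (Set.mem_univ _)
    have e : x = vv (em 1 (a, b, c)) := by
      funext j
      fin_cases j
      · exact ha.symm
      · exact hc.symm
      · exact hb.symm
    rw [e, ← hP, ← hP', he]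
  ext1 p
  have h2 : vv (g p) = vv (h p) := by
    funext i; rw [hP, hP', key]
  have h3 : ∀ q : C3, q = (vv q 0, vv q 1, vv q 2) := fun q => rfl
  rw [h3 (g p), h2]; rfl

/-- the swap of the generators -/
def swA : MulAut PiT :=
  MonoidHom.toMulEquiv (endo genY genX) (endo genY genX)
    (hom_ext (by simp [endo_X, endo_Y]) (by simp [endo_X, endo_Y]))
    (hom_ext (by simp [endo_X, endo_Y]) (by simp [endo_X, endo_Y]))

def pS : Equiv.Perm C3 where
  toFun p := (p.2.1, p.1, p.2.2)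
  invFun p := (p.2.1, p.1, p.2.2)
  left_inv _ := rfl
  right_inv _ := rfl

theorem ind_S : Ind swA pS := by
  intro ρ
  have e1 : (ρ.comp swA.toMonoidHom) genX = ρ genY := by
    show ρ (endo genY genX genX) = _
    rw [endo_X]
  have e2 : (ρ.comp swA.toMonoidHom) genY = ρ genX := by
    show ρ (endo genY genX genY) = _
    rw [endo_Y]
  rw [chr_eq, chr_eq, e1, e2, tr_comm (ρ genY)]
  rfl

theorem Q_S : Q pS := by
  refine ⟨Equiv.swap 0 1, ![1, 1, sw], ?_, ?_⟩
  · intro i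
    fin_cases i
    · exact one_mem _
    · exact one_mem _
    · exact sw_mem
  · intro i r
    fin_cases i
    · show pS (em 0 r) = em 1 r
      rfl
    · show pS (em 1 r) = em 0 r
      rfl
    · show pS (em 2 r) = em 2 (sw r)
      rfl

theorem Poly_S : Poly pS := by
  refine ⟨![MvPolynomial.X 1, MvPolynomial.X 0, MvPolynomial.X 2], fun p i => ?_⟩
  fin_cases i <;> simp [pS, vv]

theorem Poly_S' : Poly pS⁻¹ := Poly_S

theorem ind_conj (x : PiT) : Ind (MulAut.conj x) (1 : Equiv.Perm C3) := by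
  intro ρ
  have h : ∀ y, (ρ.comp (MulAut.conj x).toMonoidHom) y = ρ x * ρ y * (ρ x)⁻¹ := by
    intro y
    show ρ (x * y * x⁻¹) = _
    rw [map_mul, map_mul, map_inv]
  have htr : ∀ A B : SL2C, tr (A * B * A⁻¹) = tr B := by
    intro A B
    rw [tr_comm, ← mul_assoc, inv_mul_cancel, one_mul]
  rw [chr_eq, chr_eq, h, h, htr, htr]
  have e : ρ x * ρ genX * (ρ x)⁻¹ * (ρ x * ρ genY * (ρ x)⁻¹)
      = ρ x * (ρ genX * ρ genY) * (ρ x)⁻¹ := by group
  rw [e, htr]; rfl

/-- automorphisms acting by admissible polynomial automorphisms -/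
def GoodN : Subgroup (MulAut PiT) where
  carrier := {φ | ∃ g : Equiv.Perm C3, Ind φ g ∧ Q g ∧ Poly g ∧ Poly g⁻¹}
  one_mem' := ⟨1, fun _ => rfl, Q_one, Poly_one, by rw [inv_one]; exact Poly_one⟩
  mul_mem' := by
    rintro x y ⟨g, h1, h2, h3, h4⟩ ⟨g', h1', h2', h3', h4'⟩
    refine ⟨g' * g, ind_mul h1 h1', Q_mul h2' h2, Poly_mul h3' h3, ?_⟩
    rw [mul_inv_rev]; exact Poly_mul h4 h4'
  inv_mem' := by
    rintro x ⟨g, h1, h2, h3, h4⟩
    exact ⟨g⁻¹, ind_inv h1, Q_inv h2, h4, by rw [inv_inv]; exact h3⟩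

theorem GoodN_top : GoodN = ⊤ := by
  apply Pool.Agent.H528.Nielsen.nielsen GoodN (σ := swA) (ε := refl) (μ := twY)
  · exact ⟨pS, ind_S, Q_S, Poly_S, Poly_S'⟩
  · exact ⟨pR, ind_R, Q_R, Poly_R, Poly_R'⟩
  · exact ⟨pY, ind_Y, Q_Y, Poly_Y, Poly_Y'⟩
  · intro x
    exact ⟨1, ind_conj x, Q_one, Poly_one, by rw [inv_one]; exact Poly_one⟩
  · show endo genY genX genX = genY
    exact endo_X _ _
  · show endo genY genX genY = genX
    exact endo_Y _ _
  · show endo genX⁻¹ genY genX = genX⁻¹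
    exact endo_X _ _
  · show endo genX⁻¹ genY genY = genY
    exact endo_Y _ _
  · show endo (genX * genY) genY genX = genX * genY
    exact endo_X _ _
  · show endo (genX * genY) genY genY = genY
    exact endo_Y _ _

/-- each automorphism acts by a polynomial automorphism compatible with the real model -/
theorem structure_all (φ : MulAut PiT) :
    ∃ g : Equiv.Perm C3, Ind φ g ∧ Q g ∧ Poly g ∧ Poly g⁻¹ := by
  have h : φ ∈ GoodN := by rw [GoodN_top]; exact Subgroup.mem_top φ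
  exact h

theorem Ind_unique {φ : MulAut PiT} {g h : C3 → C3} (hg : Ind φ g) (hh : Ind φ h) : g = h := by
  funext p
  obtain ⟨ρ, rfl⟩ := chr_surj p
  rw [hg, hh]

/-- the component is the range of `em 1` -/
theorem Comp_eq : Comp = Set.range (em 1) := by
  ext p
  constructor
  · rintro ⟨h1, h2, h3⟩
    refine ⟨(p.1.im, p.2.2.im, p.2.1.re), ?_⟩
    rw [em1]
    refine Prod.ext ?_ (Prod.ext ?_ ?_)
    · apply Complex.ext <;> simp [h1]
    · apply Complex.ext <;> simp [h2]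
    · apply Complex.ext <;> simp [h3]
  · rintro ⟨r, rfl⟩
    rw [em1]
    simp [Comp]

theorem em_inj (i : Fin 3) : Function.Injective (em i) := by
  have hinj1 : ∀ a b : ℝ, (a : ℂ) * Complex.I = b * Complex.I → a = b := by
    intro a b hab
    have := mul_right_cancel₀ Complex.I_ne_zero hab
    exact_mod_cast this
  intro p q h
  fin_cases i
  · have h' : em 0 p = em 0 q := h
    rw [em0, em0, Prod.mk.injEq, Prod.mk.injEq] at h'
    exact Prod.ext (hinj1 _ _ h'.2.1) (Prod.ext (hinj1 _ _ h'.2.2) (by exact_mod_cast h'.1))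
  · have h' : em 1 p = em 1 q := h
    rw [em1, em1, Prod.mk.injEq, Prod.mk.injEq] at h'
    exact Prod.ext (hinj1 _ _ h'.1) (Prod.ext (hinj1 _ _ h'.2.2) (by exact_mod_cast h'.2.1))
  · have h' : em 2 p = em 2 q := h
    rw [em2, em2, Prod.mk.injEq, Prod.mk.injEq] at h'
    exact Prod.ext (hinj1 _ _ h'.1) (Prod.ext (hinj1 _ _ h'.2.1) (by exact_mod_cast h'.2.2))

/-- elements of `act M` act through `Gam` on the component -/
theorem act_real {M : Subgroup (MulAut PiT)} {g : C3 → C3} (hg : g ∈ act M) :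
    ∃ g' : Equiv.Perm C3, (g' : C3 → C3) = g ∧ Poly g' ∧
      ∃ γ ∈ Gam, ∀ r, g (em 1 r) = em 1 (γ r) := by
  obtain ⟨⟨φ, hφ, hind⟩, hC⟩ := hg
  obtain ⟨g', h1, h2, h3, _⟩ := structure_all φ
  have e : (g' : C3 → C3) = g := Ind_unique h1 hind
  refine ⟨g', e, h3, ?_⟩
  obtain ⟨s, γ, hγ, hr⟩ := h2
  have hs : s 1 = 1 := by
    have key : ∀ r : R3, em (s 1) (γ 1 r) ∈ Comp := by
      intro r
      rw [← hr, e, ← hC]
      exact ⟨em 1 r, by rw [Comp_eq]; exact ⟨r, rfl⟩, rfl⟩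
    have h5 := key ((γ 1)⁻¹ (1, 1, 1))
    rw [show γ 1 ((γ 1)⁻¹ (1, 1, 1)) = ((1, 1, 1) : R3) by simp] at h5
    generalize s 1 = j at h5 ⊢
    fin_cases j
    · exfalso
      have h6 : em 0 (1, 1, 1) ∈ Comp := h5
      rw [em0] at h6
      simp [Comp] at h6
    · rfl
    · exfalso
      have h6 : em 2 (1, 1, 1) ∈ Comp := h5
      rw [em2] at h6
      simp [Comp] at h6
  refine ⟨γ 1, hγ 1, fun r => ?_⟩
  rw [← e, hr, hs]

end Pool.Agent.H528.MCG
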