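import Pool.Agent.H528.MCG.Plane

set_option autoImplicit false

namespace Pool.Agent.H528.MCG

/-- the small root of `r + 1/r = k` -/
noncomputable def rr (k : ℝ) : ℝ := (k - Real.sqrt (k^2-4))/2

def Om : Set (ℝ × ℝ) := {p | 0 < p.2 ∧ p.2 ≤ p.1}
def Surv (k : ℝ) : Set (ℝ × ℝ) := {p | 0 < p.2 ∧ p.2 ≤ rr k * p.1}
def Kill (k : ℝ) : Set (ℝ × ℝ) := {p | 0 < p.2 ∧ rr k * p.1 < p.2 ∧ p.2 ≤ p.1}

/-- sign twist -/
def sg (b : Bool) (x : ℝ) : ℝ := if b then x else -x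

/-- the branch maps -/
noncomputable def phi (k : ℝ) (a : ℕ × Bool) (p : ℝ × ℝ) : ℝ × ℝ :=
  ((F k p.1)^[a.1+1] (sg a.2 p.2), p.1)

noncomputable def phiL (k : ℝ) (l : List (ℕ × Bool)) (p : ℝ × ℝ) : ℝ × ℝ :=
  l.foldr (fun a q => phi k a q) p

theorem phiL_nil (k : ℝ) (p : ℝ × ℝ) : phiL k [] p = p := rfl
theorem phiL_cons (k : ℝ) (a : ℕ × Bool) (l : List (ℕ × Bool)) (p : ℝ × ℝ) :
    phiL k (a :: l) p = phi k a (phiL k l p) := rfl

theorem abs_sg (b : Bool) (x : ℝ) : |sg b x| = |x| := by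
  unfold sg; split_ifs <;> simp

section
variable {k : ℝ} (hk : 2 < k)
include hk

theorem rr_eq : rr k * rr k + 1 = k * rr k := by
  have h : Real.sqrt (k^2-4)^2 = k^2-4 := Real.sq_sqrt (by nlinarith)
  unfold rr; nlinarith

theorem rr_pos : 0 < rr k := by
  unfold rr
  have : Real.sqrt (k^2-4) < k := by
    rw [Real.sqrt_lt' (by linarith)]; linarith
  linarith

theorem rr_lt_one : rr k < 1 := by
  unfold rr
  have h : k - 2 < Real.sqrt (k^2-4) := by
    apply Real.lt_sqrt_of_sq_lt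
    nlinarith
  linarith

theorem k_mul_sub (t : ℝ) : rr k * (k*t - rr k * t) = t := by
  have h := rr_eq hk
  have e : rr k * (k*t - rr k * t) = (k*rr k - rr k*rr k)*t := by ring
  rw [e, ← h]; ring

theorem surv_iff {t u : ℝ} (hu : 0 < u) (hut : u ≤ t) : u ≤ rr k * t ↔ k ≤ zp k t u := by
  have h1 := rr_eq hk
  have h2 := rr_pos hk
  have h3 := rr_lt_one hk
  have ht : 0 < t := hu.trans_le hut
  have hz := zp_eq hk t u
  have hz0 := zp_pos hk t u
  -- k t u ≤ t^2 + u^2 iff u ≤ r t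
  have key : k*t*u ≤ t^2+u^2 ↔ u ≤ rr k*t := by
    have e : rr k * (t^2+u^2-k*t*u) = (rr k*t - u)*(t - rr k*u) := by
      have : rr k * (t^2+u^2-k*t*u) = rr k*(t^2+u^2) - (k*rr k)*t*u := by ring
      rw [this, ← h1]; ring
    have hpos : 0 < t - rr k*u := by nlinarith
    constructor
    · intro h
      by_contra hcon
      push Not at hcon
      have h5 : (rr k*t - u)*(t - rr k*u) < 0 := mul_neg_of_neg_of_pos (by linarith) hpos
      have h6 : 0 ≤ rr k * (t^2+u^2-k*t*u) := mul_nonneg h2.le (by linarith)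
      linarith
    · intro h
      have h5 : 0 ≤ (rr k*t - u)*(t - rr k*u) := mul_nonneg (by linarith) hpos.le
      rw [← e] at h5
      have := nonneg_of_mul_nonneg_right h5 h2
      linarith
  rw [← key]
  constructor
  · intro h
    by_contra hcon
    push Not at hcon
    have h4 : zp k t u^2 < k^2 := by nlinarith
    have h5 : t*u*zp k t u < t*u*k := mul_lt_mul_of_pos_left hcon (mul_pos ht hu)
    nlinarith
  · intro h
    have h4 : k^2 ≤ zp k t u^2 := by nlinarith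
    have h5 : t*u*k ≤ t*u*zp k t u := mul_le_mul_of_nonneg_left h (mul_pos ht hu).le
    nlinarith

theorem Surv_sub_Om : Surv k ⊆ Om := by
  rintro ⟨t, u⟩ ⟨h1, h2⟩
  simp only at h1 h2
  have := rr_pos hk
  have := rr_lt_one hk
  have ht : 0 < t := by
    by_contra hcon
    push Not at hcon
    nlinarith
  exact ⟨h1, by simp only; nlinarith⟩

omit hk in
theorem Kill_sub_Om : Kill k ⊆ Om := fun p hp => ⟨hp.1, hp.2.2⟩

omit hk in
theorem Om_fst_pos {p : ℝ × ℝ} (hp : p ∈ Om) : 0 < p.1 := hp.1.trans_le hp.2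

omit hk in
theorem Om_abs {p : ℝ × ℝ} (hp : p ∈ Om) (b : Bool) : |sg b p.2| ≤ p.1 := by
  rw [abs_sg, abs_of_pos hp.1]; exact hp.2

theorem phi_plus_mem_Surv {p : ℝ × ℝ} (hp : p ∈ Om) (n : ℕ) : phi k (n, true) p ∈ Surv k := by
  have ht := Om_fst_pos hp
  have h0 := Om_abs hp true
  refine ⟨ht, ?_⟩
  show p.1 ≤ rr k * (F k p.1)^[n+1] (sg true p.2)
  have h1 := F_iter_mono hk ht h0 n
  have h2 : sg true p.2 = p.2 := rfl
  rw [h2] at h1 ⊢
  have h3 := F_eq hk p.1 p.2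
  have hz := zp_eq hk p.1 p.2
  have hz0 := zp_pos hk p.1 p.2
  have htu : 0 < p.1*p.2 := mul_pos ht hp.1
  have h4 : k ≤ zp k p.1 p.2 + p.1*p.2 := by
    by_contra hcon
    push Not at hcon
    have h5 : zp k p.1 p.2 * (zp k p.1 p.2 + p.1*p.2) = k^2 + p.1^2 + p.2^2 := by
      rw [← hz]; ring
    have h6 : zp k p.1 p.2 < k := by linarith
    have h7 : zp k p.1 p.2 * (zp k p.1 p.2 + p.1*p.2) < k*k :=
      mul_lt_mul h6 hcon.le (by positivity) (by linarith)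
    nlinarith [sq_nonneg p.1, sq_nonneg p.2]
  have h8 : k*p.1 - rr k*p.1 ≤ F k p.1 p.2 := by
    rw [h3]
    have := mul_le_mul_of_nonneg_left h4 ht.le
    have := mul_pos (rr_pos hk) ht
    nlinarith [hp.1]
  calc p.1 = rr k * (k*p.1 - rr k*p.1) := (k_mul_sub hk _).symm
    _ ≤ rr k * F k p.1 p.2 := mul_le_mul_of_nonneg_left h8 (rr_pos hk).le
    _ ≤ _ := mul_le_mul_of_nonneg_left h1 (rr_pos hk).le

theorem phi_mem_Surv {p : ℝ × ℝ} (hp : p ∈ Surv k) (a : ℕ × Bool) : phi k a p ∈ Surv k := by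
  obtain ⟨n, b⟩ := a
  have hp' := Surv_sub_Om hk hp
  cases b with
  | true => exact phi_plus_mem_Surv hk hp' n
  | false =>
    have ht := Om_fst_pos hp'
    have h0 := Om_abs hp' false
    refine ⟨ht, ?_⟩
    show p.1 ≤ rr k * (F k p.1)^[n+1] (sg false p.2)
    have h1 := F_iter_mono hk ht h0 n
    have h2 : sg false p.2 = -p.2 := rfl
    rw [h2] at h1 ⊢
    rw [F_neg_eq hk] at h1
    have h3 := (surv_iff hk hp'.1 hp'.2).1 hp.2
    have h8 : k*p.1 - rr k*p.1 ≤ -p.2 + p.1*zp k p.1 p.2 := by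
      have := mul_le_mul_of_nonneg_left h3 ht.le
      have := hp.2
      nlinarith
    calc p.1 = rr k * (k*p.1 - rr k*p.1) := (k_mul_sub hk _).symm
      _ ≤ rr k * (-p.2 + p.1*zp k p.1 p.2) := mul_le_mul_of_nonneg_left h8 (rr_pos hk).le
      _ ≤ _ := mul_le_mul_of_nonneg_left h1 (rr_pos hk).le

theorem phi_unique {p q : ℝ × ℝ} (hp : p ∈ Om) (hq : q ∈ Om) {a b : ℕ × Bool}
    (h : phi k a p = phi k b q) : a = b ∧ p = q := by
  obtain ⟨n, s⟩ := a
  obtain ⟨m, s'⟩ := b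
  unfold phi at h
  rw [Prod.mk.injEq] at h
  obtain ⟨h1, h2⟩ := h
  simp only at h1 h2
  rw [← h2] at h1
  have hq' : |sg s' q.2| ≤ p.1 := by rw [h2]; exact Om_abs hq s'
  obtain ⟨h3, h4⟩ := F_iter_unique hk (Om_fst_pos hp) (Om_abs hp s) hq' h1
  have h5 : n = m := by omega
  have h6 : |sg s p.2| = |sg s' q.2| := by rw [h4]
  rw [abs_sg, abs_sg, abs_of_pos hp.1, abs_of_pos hq.1] at h6
  have h7 : s = s' := by
    unfold sg at h4
    have g1 := hp.1
    have g2 := hq.1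
    cases s <;> cases s'
    · rfl
    · exfalso
      simp only [Bool.false_eq_true, if_false, if_true] at h4
      linarith
    · exfalso
      simp only [Bool.false_eq_true, if_false, if_true] at h4
      linarith
    · rfl
  exact ⟨by rw [h5, h7], Prod.ext h2 h6⟩

theorem phiL_mem_Surv {p : ℝ × ℝ} (hp : p ∈ Surv k) (l : List (ℕ × Bool)) :
    phiL k l p ∈ Surv k := by
  induction l with
  | nil => exact hp
  | cons a l ih => rw [phiL_cons]; exact phi_mem_Surv hk ih a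

omit hk in
theorem Kill_disj {p : ℝ × ℝ} (h1 : p ∈ Kill k) (h2 : p ∈ Surv k) : False := by
  have := h1.2.1
  have := h2.2
  linarith

theorem kill_unique {p q : ℝ × ℝ} (hp : p ∈ Kill k) (hq : q ∈ Kill k) {n m : ℕ} :
    ∀ {l l' : List (ℕ × Bool)}, phiL k l (phi k (n, true) p) = phiL k l' (phi k (m, true) q) →
      l = l' ∧ n = m ∧ p = q := by
  have hp' := Kill_sub_Om hp
  have hq' := Kill_sub_Om hq
  have hP := phi_plus_mem_Surv hk hp' n
  have hQ := phi_plus_mem_Surv hk hq' m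
  intro l
  induction l with
  | nil =>
    intro l' h
    cases l' with
    | nil =>
      rw [phiL_nil, phiL_nil] at h
      obtain ⟨h1, h2⟩ := phi_unique hk hp' hq' h
      exact ⟨rfl, by simpa using congrArg Prod.fst h1, h2⟩
    | cons a l' =>
      rw [phiL_nil, phiL_cons] at h
      obtain ⟨h1, h2⟩ := phi_unique hk hp' (Surv_sub_Om hk (phiL_mem_Surv hk hQ l')) h
      exact (Kill_disj hp (h2 ▸ phiL_mem_Surv hk hQ l')).elim
  | cons a l ih =>
    intro l' h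
    cases l' with
    | nil =>
      rw [phiL_nil, phiL_cons] at h
      obtain ⟨h1, h2⟩ := phi_unique hk (Surv_sub_Om hk (phiL_mem_Surv hk hP l)) hq' h
      exact (Kill_disj hq (h2 ▸ phiL_mem_Surv hk hP l)).elim
    | cons b l' =>
      rw [phiL_cons, phiL_cons] at h
      obtain ⟨h1, h2⟩ := phi_unique hk (Surv_sub_Om hk (phiL_mem_Surv hk hP l))
        (Surv_sub_Om hk (phiL_mem_Surv hk hQ l')) h
      obtain ⟨h3, h4, h5⟩ := ih h2
      exact ⟨by rw [h1, h3], h4, h5⟩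

/-- first coordinates increase -/
theorem fst_le_phi {p : ℝ × ℝ} (hp : 0 < p.1) (hp2 : |p.2| ≤ p.1) (a : ℕ × Bool) :
    p.1 < (phi k a p).1 := by
  unfold phi
  exact lt_F_iter hk hp (by rw [abs_sg]; exact hp2) a.1

/-- the comparison relation -/
def Rel (P p : ℝ × ℝ) : Prop := 0 < p.1 ∧ |p.2| ≤ p.1 ∧ |P.2| ≤ P.1 ∧ |P.2 - p.2| ≤ P.1 - p.1

omit hk in
theorem sg_sub (s : Bool) (x y : ℝ) : |sg s x - sg s y| = |x - y| := by
  cases s
  · have : sg false x - sg false y = -(x - y) := by simp only [sg, Bool.false_eq_true, if_false]; ring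
    rw [this, abs_neg]
  · rfl

/-- one step with possibly different signs -/
theorem rel_start {d t u T U : ℝ} (hd1 : d ≤ 1) (hd2 : 3*d^2 ≤ k - 2) (ht : 0 < t)
    (hu : |u| ≤ t) (hU : |U| ≤ T) (hT : T ≤ d) (h : |U - u| ≤ T - t) (n : ℕ) :
    Rel ((F k T)^[n+1] U, T) ((F k t)^[n+1] u, t) := by
  have ha : 0 ≤ T - t := (abs_nonneg _).trans h
  have hT0 : 0 < T := by linarith
  have h1 := (cone_iter hk hd1 hd2 ht hu hU hT h n).1
  have h2 := lt_F_iter hk ht hu n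
  have h3 := lt_F_iter hk hT0 hU n
  refine ⟨ht.trans h2, ?_, ?_, ?_⟩
  · show |t| ≤ _
    rw [abs_of_pos ht]; exact h2.le
  · show |T| ≤ _
    rw [abs_of_pos hT0]; exact h3.le
  · show |T - t| ≤ _
    rw [abs_of_nonneg ha]; exact h1

theorem rel_phi {d : ℝ} (hd1 : d ≤ 1) (hd2 : 3*d^2 ≤ k - 2) {P p : ℝ × ℝ} (h : Rel P p)
    (a : ℕ × Bool) (hP : (phi k a P).1 ≤ d) : Rel (phi k a P) (phi k a p) := by
  obtain ⟨h1, h2, h3, h4⟩ := h
  have h5 : 0 < P.1 := by linarith [abs_nonneg (P.2 - p.2)]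
  have h6 := fst_le_phi hk h5 h3 a
  apply rel_start hk hd1 hd2 h1 _ _ (h6.le.trans hP) _ a.1
  · rw [abs_sg]; exact h2
  · rw [abs_sg]; exact h3
  · rw [sg_sub]; exact h4

omit hk in
theorem Rel.fst_pos {P p : ℝ × ℝ} (h : Rel P p) : 0 < P.1 := by
  obtain ⟨h1, h2, h3, h4⟩ := h
  linarith [abs_nonneg (P.2 - p.2)]

theorem phiL_fst {P : ℝ × ℝ} (h0 : 0 < P.1) (h1 : |P.2| ≤ P.1) (l : List (ℕ × Bool)) :
    P.1 ≤ (phiL k l P).1 ∧ |(phiL k l P).2| ≤ (phiL k l P).1 := by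
  induction l with
  | nil => exact ⟨le_rfl, h1⟩
  | cons a l ih =>
    rw [phiL_cons]
    have h2 : 0 < (phiL k l P).1 := h0.trans_le ih.1
    have h3 := fst_le_phi hk h2 ih.2 a
    refine ⟨ih.1.trans h3.le, ?_⟩
    show |(phiL k l P).1| ≤ _
    rw [abs_of_pos h2]; exact h3.le

theorem rel_phiL {d : ℝ} (hd1 : d ≤ 1) (hd2 : 3*d^2 ≤ k - 2) {P p : ℝ × ℝ} (h : Rel P p)
    (l : List (ℕ × Bool)) (hP : (phiL k l P).1 ≤ d) : Rel (phiL k l P) (phiL k l p) := by
  induction l with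
  | nil => exact h
  | cons a l ih =>
    rw [phiL_cons] at hP ⊢
    have h1 := phiL_fst hk h.fst_pos h.2.2.1 l
    have h2 := fst_le_phi hk (h.fst_pos.trans_le h1.1) h1.2 a
    exact rel_phi hk hd1 hd2 (ih (h2.le.trans hP)) a hP

/-- the constant used in the linear comparison map -/
noncomputable def CC (k : ℝ) : ℝ := 2/(1 - rr k)

theorem CC_pos : 0 < CC k := div_pos two_pos (by linarith [rr_lt_one hk])

/-- the comparison map from survivors to killed points -/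
noncomputable def LL (k : ℝ) (p : ℝ × ℝ) : ℝ × ℝ :=
  ((1/CC k)*p.1 + 0*p.2, (rr k/CC k)*p.1 + ((1-rr k)/(rr k*CC k))*p.2)

theorem LL_mem {p : ℝ × ℝ} (hp : p ∈ Surv k) : LL k p ∈ Kill k := by
  have h1 := rr_pos hk
  have h2 := rr_lt_one hk
  have h3 := CC_pos hk
  have h4 : 0 < p.1 := Om_fst_pos (Surv_sub_Om hk hp)
  obtain ⟨h5, h6⟩ := hp
  have e1 : (LL k p).1 = p.1/CC k := by unfold LL; simp only; ring
  have e2 : (LL k p).2 = rr k*(p.1/CC k) + ((1-rr k)/(rr k*CC k))*p.2 := by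
    unfold LL; simp only; ring
  have h7 : 0 < ((1-rr k)/(rr k*CC k))*p.2 :=
    mul_pos (div_pos (by linarith) (mul_pos h1 h3)) h5
  have h8 : ((1-rr k)/(rr k*CC k))*p.2 ≤ (1-rr k)*(p.1/CC k) := by
    have : (1-rr k)*(p.1/CC k) = ((1-rr k)/(rr k*CC k))*(rr k*p.1) := by
      field_simp
    rw [this]
    exact mul_le_mul_of_nonneg_left h6 (div_pos (by linarith) (mul_pos h1 h3)).le
  have h9 : 0 < p.1/CC k := div_pos h4 h3
  refine ⟨?_, ?_, ?_⟩
  · rw [e2]; positivity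
  · rw [e1, e2]; linarith
  · rw [e1, e2]; linarith

theorem LL_rel {p : ℝ × ℝ} (hp : p ∈ Surv k) {d : ℝ} (hd1 : d ≤ 1) (hd2 : 3*d^2 ≤ k - 2)
    (hpd : p.1 ≤ d) (n : ℕ) (s : Bool) :
    Rel (phi k (n, s) p) (phi k (n, true) (LL k p)) := by
  have h1 := rr_pos hk
  have h2 := rr_lt_one hk
  have h3 := CC_pos hk
  have h4 : 0 < p.1 := Om_fst_pos (Surv_sub_Om hk hp)
  have hL := LL_mem hk hp
  have hLO := Kill_sub_Om hL
  have e1 : (LL k p).1 = p.1/CC k := by unfold LL; simp only; ring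
  apply rel_start hk hd1 hd2 (Om_fst_pos hLO) (Om_abs hLO true)
    (Om_abs (Surv_sub_Om hk hp) s) hpd _ n
  have h5 : |sg s p.2 - sg true (LL k p).2| ≤ |sg s p.2| + |sg true (LL k p).2| := abs_sub _ _
  rw [abs_sg, abs_sg, abs_of_pos hp.1, abs_of_pos hL.1] at h5
  have h6 := hp.2
  have h7 := hL.2.2
  rw [e1] at h7 ⊢
  have h8 : p.1/CC k = p.1*(1-rr k)/2 := by
    unfold CC
    have : (1 - rr k) ≠ 0 := by linarith
    field_simp
  rw [h8] at h7 ⊢
  nlinarith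

end

end Pool.Agent.H528.MCG
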